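import Pool.Agent.H34.OC.SA4

/-!
# Short odd cycles from a short odd path between linked vertices
-/

set_option autoImplicit false

namespace Pool.Agent.H34.OC

variable {V : Type*} [DecidableEq V] {G : SimpleGraph V}

theorem cyc_of_linked [Fintype V] {M J μ r m : ℕ} {u v : V} {S : Finset V} (hL : Lk G M u v)
    (hp : Pth G u v m S) (hμ : 0 < μ) (hcard : Fintype.card V ≤ r * μ)
    (hdeg : ∀ y, μ + J + m + 1 ≤ dg G Finset.univ y) (hM : Bd r J + m + 1 ≤ M) (hm : 1 ≤ m)
    {j : ℕ} (hj1 : 1 ≤ j) (hjJ : j ≤ J) : HasCyc G (m + 2 * j) := by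
  classical
  set D := Finset.univ \ S with hD
  have hSc := hp.card
  have hDc : D.card ≤ r * μ := (Finset.card_le_univ D).trans hcard
  set W := (nb G Finset.univ u ∩ nb G Finset.univ v) \ S with hW
  have hWc : Bd r J ≤ W.card := by
    have h1 := hL.2
    have h2 := Finset.le_card_sdiff S (nb G Finset.univ u ∩ nb G Finset.univ v)
    rw [← hW] at h2
    omega
  obtain ⟨a, ha, c, hc, S', hS', hp'⟩ := altpath (G := G) (D := D) hμ hDc (j - 1) W ∅
    ((Bd_mono r (by omega)).trans hWc) (by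
      intro y _
      have h1 := hdeg y
      have h2 := dg_sdiff_ge (G := G) Finset.univ S y
      rw [← hD] at h2
      rw [Finset.sdiff_empty]
      omega)
  have hS'D : S' ⊆ D := by
    intro w hw
    rcases Finset.mem_union.mp (hS' hw) with h1 | h1
    · rw [hW, Finset.mem_sdiff] at h1
      rw [hD, Finset.mem_sdiff]
      exact ⟨Finset.mem_univ _, h1.2⟩
    · exact (Finset.mem_sdiff.mp h1).1
  have hmem : ∀ w ∈ W, G.Adj u w ∧ G.Adj v w := by
    intro w hw
    rw [hW, Finset.mem_sdiff, Finset.mem_inter, mem_nb, mem_nb] at hw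
    exact ⟨hw.1.1.2, hw.1.2.2⟩
  have hdis : Disjoint S S' := by
    rw [Finset.disjoint_left]
    intro w hw hw'
    have := hS'D hw'
    rw [hD, Finset.mem_sdiff] at this
    exact this.2 hw
  have h1 := hp.join (hmem a ha).2 hp' hdis
  have h2 : PIn G u c (m + 1 + 2 * (j - 1)) (S ∪ S') := ⟨_, subset_rfl, h1⟩
  exact h2.hasCyc (hmem c hc).1.symm (by omega) (by omega)

end Pool.Agent.H34.OC
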