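import Mathlib

/-!
# Paths with prescribed length and vertex set

`Pth G a b m S`: there is a path in `G` from `a` to `b` with `m` edges and vertex set `S`.
-/

set_option autoImplicit false

namespace Pool.Agent.H34.OC

variable {V : Type*} [DecidableEq V]

/-- `Pth G a b m S`: there is a path in `G` from `a` to `b` with `m` edges and vertex set `S`. -/
inductive Pth (G : SimpleGraph V) : V → V → ℕ → Finset V → Prop
  | nil (a : V) : Pth G a a 0 {a}
  | cons {a b c : V} {m : ℕ} {S : Finset V} (h : G.Adj a b) (p : Pth G b c m S) (ha : a ∉ S) :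
      Pth G a c (m + 1) (insert a S)

/-- A path sequence: `x 0, ..., x m` are distinct and consecutive ones are adjacent. -/
structure PSeq (G : SimpleGraph V) (m : ℕ) (x : ℕ → V) : Prop where
  adj : ∀ i, i < m → G.Adj (x i) (x (i + 1))
  inj : ∀ i j, i ≤ m → j ≤ m → x i = x j → i = j

/-- the image of the interval `[i, j]` -/
def img (x : ℕ → V) (i j : ℕ) : Finset V := (Finset.Icc i j).image x

/-- there is a path from `a` to `b` with `m` edges inside `U` -/
def PIn (G : SimpleGraph V) (a b : V) (m : ℕ) (U : Finset V) : Prop :=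
  ∃ S, S ⊆ U ∧ Pth G a b m S

/-- there is a cycle with `l` vertices -/
def HasCyc (G : SimpleGraph V) (l : ℕ) : Prop :=
  3 ≤ l ∧ ∃ a b S, Pth G a b (l - 1) S ∧ G.Adj b a

variable {G : SimpleGraph V}

theorem Pth.left_mem {a b : V} {m : ℕ} {S : Finset V} (h : Pth G a b m S) : a ∈ S := by
  cases h <;> simp

theorem Pth.right_mem {a b : V} {m : ℕ} {S : Finset V} (h : Pth G a b m S) : b ∈ S := by
  induction h with
  | nil a => simp
  | cons h p ha ih => simp [ih]

theorem Pth.card {a b : V} {m : ℕ} {S : Finset V} (h : Pth G a b m S) : S.card = m + 1 := by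
  induction h with
  | nil a => simp
  | cons h p ha ih => rw [Finset.card_insert_of_notMem ha, ih]

theorem Pth.congr {a b a' b' : V} {m m' : ℕ} {S S' : Finset V} (h : Pth G a b m S)
    (ha : a = a') (hb : b = b') (hm : m = m') (hS : S = S') : Pth G a' b' m' S' := by
  subst ha hb hm hS; exact h

theorem Pth.join {a b c e : V} {m m' : ℕ} {S S' : Finset V} (h : Pth G a b m S)
    (hbc : G.Adj b c) (h' : Pth G c e m' S') (hd : Disjoint S S') :
    Pth G a e (m + 1 + m') (S ∪ S') := by
  induction h with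
  | nil a =>
    have ha : a ∉ S' := by
      intro ha; exact (Finset.disjoint_left.mp hd (by simp)) ha
    have := Pth.cons hbc h' ha
    refine this.congr rfl rfl (by omega) ?_
    ext v; simp
  | @cons a b' c' m S h p ha ih =>
    have hd' : Disjoint S S' := Finset.disjoint_of_subset_left (Finset.subset_insert _ _) hd
    have h1 := ih hbc hd'
    have ha' : a ∉ S ∪ S' := by
      rw [Finset.mem_union]; rintro (h2 | h2)
      · exact ha h2
      · exact (Finset.disjoint_left.mp hd (by simp)) h2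
    have h2 := Pth.cons h h1 ha'
    refine h2.congr rfl rfl (by omega) ?_
    ext v; simp

theorem Pth.rev {a b : V} {m : ℕ} {S : Finset V} (h : Pth G a b m S) : Pth G b a m S := by
  induction h with
  | nil a => exact Pth.nil a
  | @cons a b c m S h p ha ih =>
    have hd : Disjoint S {a} := by
      rw [Finset.disjoint_singleton_right]; exact ha
    have := ih.join h.symm (Pth.nil a) hd
    refine this.congr rfl rfl (by omega) ?_
    ext v; simp

theorem PIn.mono {a b : V} {m : ℕ} {U U' : Finset V} (h : PIn G a b m U) (hU : U ⊆ U') :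
    PIn G a b m U' := by
  obtain ⟨S, hS, hp⟩ := h; exact ⟨S, hS.trans hU, hp⟩

theorem PIn.rev {a b : V} {m : ℕ} {U : Finset V} (h : PIn G a b m U) : PIn G b a m U := by
  obtain ⟨S, hS, hp⟩ := h; exact ⟨S, hS, hp.rev⟩

theorem PIn.join {a b c e : V} {m m' : ℕ} {U U' : Finset V} (h : PIn G a b m U)
    (hbc : G.Adj b c) (h' : PIn G c e m' U') (hd : Disjoint U U') :
    PIn G a e (m + 1 + m') (U ∪ U') := by
  obtain ⟨S, hS, hp⟩ := h
  obtain ⟨S', hS', hp'⟩ := h'
  exact ⟨S ∪ S', Finset.union_subset_union hS hS',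
    hp.join hbc hp' (Finset.disjoint_of_subset_left hS (Finset.disjoint_of_subset_right hS' hd))⟩

theorem PIn.single (a : V) : PIn G a a 0 {a} := ⟨{a}, subset_rfl, Pth.nil a⟩

theorem PIn.congr {a b a' b' : V} {m m' : ℕ} {U U' : Finset V} (h : PIn G a b m U)
    (ha : a = a') (hb : b = b') (hm : m = m') (hU : U ⊆ U') : PIn G a' b' m' U' := by
  subst ha hb hm; exact h.mono hU

theorem PIn.left_mem {a b : V} {m : ℕ} {U : Finset V} (h : PIn G a b m U) : a ∈ U := by
  obtain ⟨S, hS, hp⟩ := h; exact hS hp.left_mem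

theorem PIn.right_mem {a b : V} {m : ℕ} {U : Finset V} (h : PIn G a b m U) : b ∈ U := by
  obtain ⟨S, hS, hp⟩ := h; exact hS hp.right_mem

theorem mem_img {x : ℕ → V} {i j : ℕ} {v : V} : v ∈ img x i j ↔ ∃ t, i ≤ t ∧ t ≤ j ∧ x t = v := by
  simp only [img, Finset.mem_image, Finset.mem_Icc]
  constructor
  · rintro ⟨t, ⟨h1, h2⟩, h3⟩; exact ⟨t, h1, h2, h3⟩
  · rintro ⟨t, h1, h2, h3⟩; exact ⟨t, ⟨h1, h2⟩, h3⟩

theorem mem_img_self {x : ℕ → V} {i j t : ℕ} (h1 : i ≤ t) (h2 : t ≤ j) : x t ∈ img x i j :=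
  mem_img.mpr ⟨t, h1, h2, rfl⟩

theorem img_mono {x : ℕ → V} {i j i' j' : ℕ} (h1 : i' ≤ i) (h2 : j ≤ j') :
    img x i j ⊆ img x i' j' := by
  intro v hv
  obtain ⟨t, h3, h4, h5⟩ := mem_img.mp hv
  exact mem_img.mpr ⟨t, h1.trans h3, h4.trans h2, h5⟩

theorem img_self (x : ℕ → V) (i : ℕ) : img x i i = {x i} := by
  simp [img]

theorem PSeq.img_disj {m : ℕ} {x : ℕ → V} (h : PSeq G m x) {i j i' j' : ℕ} (h1 : j < i')
    (h2 : j' ≤ m) : Disjoint (img x i j) (img x i' j') := by
  rw [Finset.disjoint_left]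
  intro v hv hv'
  obtain ⟨t, h3, h4, h5⟩ := mem_img.mp hv
  obtain ⟨t', h6, h7, h8⟩ := mem_img.mp hv'
  have := h.inj t t' (by omega) (by omega) (h5.trans h8.symm)
  omega

theorem PSeq.seg {m : ℕ} {x : ℕ → V} (h : PSeq G m x) {i j : ℕ} (hij : i ≤ j) (hj : j ≤ m) :
    Pth G (x i) (x j) (j - i) (img x i j) := by
  obtain ⟨r, rfl⟩ : ∃ r, j = i + r := ⟨j - i, by omega⟩
  induction r with
  | zero => exact (Pth.nil (x i)).congr rfl rfl (by omega) (by simp [img])
  | succ r ih =>
    have h1 := ih (by omega) (by omega)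
    have hd : Disjoint (img x i (i + r)) ({x (i + (r + 1))} : Finset V) := by
      rw [← img_self]; exact h.img_disj (by omega) (by omega)
    have h2 := h1.join (h.adj (i + r) (by omega)) (Pth.nil (x (i + (r + 1)))) hd
    refine h2.congr rfl rfl (by omega) ?_
    ext v
    simp only [Finset.mem_union, mem_img, Finset.mem_singleton]
    constructor
    · rintro (⟨t, h3, h4, h5⟩ | rfl)
      · exact ⟨t, h3, by omega, h5⟩
      · exact ⟨_, by omega, le_refl _, rfl⟩
    · rintro ⟨t, h3, h4, h5⟩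
      rcases Nat.lt_or_ge (i + r) t with h6 | h6
      · right; have : t = i + (r + 1) := by omega
        rw [← this, h5]
      · left; exact ⟨t, h3, h6, h5⟩

theorem PSeq.pin {m : ℕ} {x : ℕ → V} (h : PSeq G m x) {i j : ℕ} (hij : i ≤ j) (hj : j ≤ m) :
    PIn G (x i) (x j) (j - i) (img x i j) := ⟨_, subset_rfl, h.seg hij hj⟩

theorem Pth.seq {a b : V} {m : ℕ} {S : Finset V} (h : Pth G a b m S) :
    ∃ x : ℕ → V, PSeq G m x ∧ x 0 = a ∧ x m = b ∧ img x 0 m = S := by
  induction h with
  | nil a =>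
    refine ⟨fun _ => a, ⟨fun i hi => absurd hi (by omega), fun i j hi hj _ => by omega⟩, rfl, rfl, ?_⟩
    simp [img]
  | @cons a b c m S h p ha ih =>
    obtain ⟨x, hx, h0, hm, hS⟩ := ih
    refine ⟨fun i => if i = 0 then a else x (i - 1), ⟨?_, ?_⟩, by simp, by simp [hm], ?_⟩
    · intro i hi
      by_cases h0' : i = 0
      · subst h0'; simpa [h0] using h
      · have := hx.adj (i - 1) (by omega)
        have h1 : i - 1 + 1 = i := by omega
        simp only [h0', if_false, Nat.add_sub_cancel, Nat.add_eq_zero_iff, one_ne_zero, and_false]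
        rw [h1] at this; exact this
    · have hna : ∀ i, i ≤ m → x i ≠ a := by
        intro i hi he; apply ha; rw [← hS]; exact mem_img.mpr ⟨i, by omega, hi, he⟩
      intro i j hi hj hij
      by_cases h1 : i = 0 <;> by_cases h2 : j = 0
      · omega
      · simp only [h1, h2, if_true, if_false] at hij
        exact absurd hij.symm (hna _ (by omega))
      · simp only [h1, h2, if_true, if_false] at hij
        exact absurd hij (hna _ (by omega))
      · simp only [h1, h2, if_false] at hij
        have := hx.inj _ _ (by omega) (by omega) hij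
        omega
    · ext v
      simp only [mem_img, Finset.mem_insert, ← hS]
      constructor
      · rintro ⟨t, h1, h2, h3⟩
        by_cases h4 : t = 0
        · left; simp [h4] at h3; exact h3.symm
        · right; simp only [h4, if_false] at h3; exact ⟨t - 1, by omega, by omega, h3⟩
      · rintro (rfl | ⟨t, h1, h2, h3⟩)
        · exact ⟨0, le_refl _, by omega, by simp⟩
        · exact ⟨t + 1, by omega, by omega, by simp [h3]⟩

/-- replace the part between positions `i < j` by a detour through `D` -/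
theorem PSeq.detour {m : ℕ} {x : ℕ → V} (h : PSeq G m x) {i j r : ℕ} (hij : i < j) (hj : j ≤ m)
    {w w' : V} {D : Finset V} (hD : ∀ t, t ≤ m → x t ∉ D) (hl : PIn G w w' r D)
    (h1 : G.Adj (x i) w) (h2 : G.Adj (x j) w') :
    PIn G (x 0) (x m) (i + 1 + r + 1 + (m - j)) (img x 0 i ∪ D ∪ img x j m) := by
  have hd1 : Disjoint (img x 0 i) D := by
    rw [Finset.disjoint_left]; intro v hv hv'
    obtain ⟨t, _, h4, h5⟩ := mem_img.mp hv
    exact hD t (by omega) (h5 ▸ hv')
  have hd2 : Disjoint (img x 0 i ∪ D) (img x j m) := by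
    rw [Finset.disjoint_union_left]
    refine ⟨h.img_disj hij le_rfl, ?_⟩
    rw [Finset.disjoint_left]; intro v hv hv'
    obtain ⟨t, _, h4, h5⟩ := mem_img.mp hv'
    exact hD t (by omega) (h5 ▸ hv)
  have e1 := (h.pin (Nat.zero_le i) (by omega)).join h1 hl hd1
  have e2 := e1.join h2.symm (h.pin hj le_rfl) hd2
  exact e2.congr rfl rfl (by omega) subset_rfl

theorem Pth.toWalk {a b : V} {m : ℕ} {S : Finset V} (h : Pth G a b m S) :
    ∃ p : G.Walk a b, p.IsPath ∧ p.length = m ∧ p.support.toFinset = S := by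
  induction h with
  | nil a => exact ⟨SimpleGraph.Walk.nil, by simp, by simp, by simp⟩
  | @cons a b c m S h p ha ih =>
    obtain ⟨p, h1, h2, h3⟩ := ih
    refine ⟨SimpleGraph.Walk.cons h p, ?_, by simp [h2], by simp [h3]⟩
    rw [SimpleGraph.Walk.cons_isPath_iff]
    refine ⟨h1, ?_⟩
    rw [← h3] at ha; simpa using ha

theorem Pth.ofWalk {a b : V} (p : G.Walk a b) (hp : p.IsPath) :
    Pth G a b p.length p.support.toFinset := by
  induction p with
  | nil => simpa using Pth.nil _
  | cons h p ih =>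
    rw [SimpleGraph.Walk.cons_isPath_iff] at hp
    have := Pth.cons h (ih hp.1) (by simpa using hp.2)
    simpa using this

theorem HasCyc.toWalk {l : ℕ} (h : HasCyc G l) :
    ∃ (u : V) (p : G.Walk u u), p.IsCycle ∧ p.length = l := by
  obtain ⟨hl, a, b, S, hp, hab⟩ := h
  obtain ⟨p, h1, h2, h3⟩ := hp.toWalk
  refine ⟨b, SimpleGraph.Walk.cons hab p, ?_, by simp [h2]; omega⟩
  rw [SimpleGraph.Walk.cons_isCycle_iff]
  refine ⟨h1, ?_⟩
  intro he
  cases p with
  | nil => exact absurd h2 (by simp; omega)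
  | @cons _ c _ h' p' =>
    rw [SimpleGraph.Walk.cons_isPath_iff] at h1
    rw [SimpleGraph.Walk.edges_cons, List.mem_cons] at he
    rcases he with he | he
    · rw [Sym2.eq_iff] at he
      rcases he with ⟨h4, h5⟩ | ⟨h4, _⟩
      · exact hab.ne h4
      · subst h4
        have h5 := SimpleGraph.Walk.length_eq_zero_iff.mpr (SimpleGraph.Walk.isPath_iff_nil.mp h1.1)
        rw [SimpleGraph.Walk.length_cons] at h2
        omega
    · exact h1.2 (SimpleGraph.Walk.snd_mem_support_of_mem_edges _ he)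

theorem PIn.hasCyc {a b : V} {m : ℕ} {U : Finset V} (h : PIn G a b m U) (hab : G.Adj b a)
    (hm : 2 ≤ m) {l : ℕ} (hl : l = m + 1) : HasCyc G l := by
  obtain ⟨S, _, hp⟩ := h
  subst hl
  exact ⟨by omega, a, b, S, by simpa using hp, hab⟩

end Pool.Agent.H34.OC
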