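import Pool.Agent.H34.OC.W2

/-!
# Final configuration: definitions
-/

set_option autoImplicit false

namespace Pool.Agent.H34.OC

variable {V : Type*} [DecidableEq V] {G : SimpleGraph V}

/-- Final context: a non-extendable odd cycle `x` of length `l` (complement `R`); outside the
exceptional set `F` the cycle vertices have all their `R`-neighbours in the small set `Z`. -/
structure Base (G : SimpleGraph V) [Fintype V] (l d z0 : ℕ) (x : ℕ → V) (R Z F : Finset V) :
    Prop where
  ctx : Ctx G l d x R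
  ll : d ≤ 2 * l
  Zc : Z.card ≤ z0
  Fc : F.card ≤ z0
  typ : ∀ t, x t ∉ F → nb G R (x t) ⊆ Z

/-- ear with inner path of length `q` -/
def Ear (G : SimpleGraph V) (R : Finset V) (u v : V) (q : ℕ) : Prop :=
  ∃ w w', G.Adj u w ∧ G.Adj v w' ∧ PIn G w w' q R

theorem Ear.symm {R : Finset V} {u v : V} {q : ℕ} (h : Ear G R u v q) : Ear G R v u q := by
  obtain ⟨w, w', h1, h2, h3⟩ := h
  exact ⟨w', w, h2, h1, h3.rev⟩

theorem Ear.cyc {X R : Finset V} {u v : V} {p q : ℕ} (h : Ear G R u v q)
    (hp : PIn G u v p X) (hd : Disjoint X R) (h1 : 1 ≤ p + q) : HasCyc G (p + q + 2) := by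
  obtain ⟨w, w', h2, h3, h4⟩ := h
  have h5 := hp.rev.join h2 h4 hd
  exact h5.hasCyc h3.symm (by omega) (by omega)

end Pool.Agent.H34.OC
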