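import Pool.Agent.H34.OC.PX
import Pool.Agent.H34.OC.Fin0

/-!
# Chords of a path and of a cycle; counting lemmas
-/

set_option autoImplicit false

namespace Pool.Agent.H34.OC

variable {V : Type*} [DecidableEq V] {G : SimpleGraph V}

/-- shortcut along a chord -/
theorem PSeq.chord {m : ℕ} {x : ℕ → V} (h : PSeq G m x) {i j s : ℕ} (hij : i < j) (hj : j ≤ s)
    (hs : s ≤ m) (hc : G.Adj (x i) (x j)) :
    PIn G (x 0) (x s) (i + 1 + (s - j)) (img x 0 m) := by
  have p := (h.pin (Nat.zero_le i) (by omega)).join hc (h.pin hj hs) (h.img_disj hij hs)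
  refine p.congr rfl rfl rfl ?_
  exact Finset.union_subset (img_mono le_rfl (by omega)) (img_mono (by omega) hs)

/-- shortcut along two disjoint chords -/
theorem PSeq.chord2 {m : ℕ} {x : ℕ → V} (h : PSeq G m x) {i j t u s : ℕ} (hij : i < j)
    (hjt : j ≤ t) (htu : t < u) (hu : u ≤ s) (hs : s ≤ m) (hc : G.Adj (x i) (x j))
    (hc' : G.Adj (x t) (x u)) :
    PIn G (x 0) (x s) (i + 1 + (t - j) + 1 + (s - u)) (img x 0 m) := by
  have p := (h.pin (Nat.zero_le i) (by omega)).join hc (h.pin hjt (by omega))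
    (h.img_disj hij (by omega))
  have p2 := p.join hc' (h.pin hu hs) (by
    rw [Finset.disjoint_union_left]
    exact ⟨h.img_disj (by omega) hs, h.img_disj htu hs⟩)
  refine p2.congr rfl rfl rfl ?_
  exact Finset.union_subset (Finset.union_subset (img_mono le_rfl (by omega))
    (img_mono (by omega) (by omega))) (img_mono (by omega) hs)

/-- route 1 along a chord crossing the end `s` -/
theorem PSeq.over1 {m : ℕ} {x : ℕ → V} (h : PSeq G m x) {i j s : ℕ} (hi : i < s) (hj : s ≤ j)
    (hjm : j ≤ m) (hc : G.Adj (x i) (x j)) :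
    PIn G (x 0) (x s) (i + 1 + (j - s)) (img x 0 m) := by
  have p := (h.pin (Nat.zero_le i) (by omega)).join hc (h.pin hj hjm).rev (h.img_disj hi hjm)
  refine p.congr rfl rfl rfl ?_
  exact Finset.union_subset (img_mono le_rfl (by omega)) (img_mono (by omega) hjm)

/-- a chord followed by a chord crossing the end `s` -/
theorem PSeq.over3 {m : ℕ} {x : ℕ → V} (h : PSeq G m x) {i0 i k j s : ℕ} (hi0 : i0 < i)
    (hik : i ≤ k) (hks : k < s) (hj : s ≤ j) (hjm : j ≤ m) (hc0 : G.Adj (x i0) (x k))
    (hc : G.Adj (x i) (x j)) :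
    PIn G (x 0) (x s) (i0 + 1 + (k - i) + 1 + (j - s)) (img x 0 m) := by
  have p := (h.pin (Nat.zero_le i0) (by omega)).join hc0 (h.pin hik (by omega)).rev
    (h.img_disj hi0 (by omega))
  have p2 := p.join hc (h.pin hj hjm).rev (by
    rw [Finset.disjoint_union_left]
    exact ⟨h.img_disj (by omega) hjm, h.img_disj hks hjm⟩)
  refine p2.congr rfl rfl rfl ?_
  exact Finset.union_subset (Finset.union_subset (img_mono le_rfl (by omega))
    (img_mono (by omega) (by omega))) (img_mono (by omega) hjm)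

/-- route 2 along a chord crossing the end `s`, using the closing edge of the cycle -/
theorem CSeq.over2 {l : ℕ} {x : ℕ → V} (h : CSeq G l x) {i j s : ℕ} (hi0 : 1 ≤ i) (hi : i ≤ s)
    (hj : s < j) (hjl : j < l) (hc : G.Adj (x i) (x j)) :
    PIn G (x 0) (x s) (1 + (l - 1 - j) + 1 + (s - i)) (img x 0 (l - 1)) := by
  have hps := h.pseq (show l - 1 < l by omega)
  have h0 : G.Adj (x 0) (x (l - 1)) := by
    have h1 := h.adj (l - 1)
    have h2 : x (l - 1 + 1) = x 0 := by
      have : l - 1 + 1 = 0 + l := by omega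
      rw [this, h.per]
    rw [h2] at h1
    exact h1.symm
  have p := (PIn.single (G := G) (x 0)).join h0 (hps.pin (show j ≤ l - 1 by omega) le_rfl).rev (by
    rw [← img_self]; exact hps.img_disj (by omega) le_rfl)
  have p2 := p.join hc.symm (hps.pin hi (by omega)) (by
    rw [Finset.disjoint_union_left, ← img_self]
    exact ⟨hps.img_disj (by omega) (by omega), (hps.img_disj (by omega) le_rfl).symm⟩)
  refine p2.congr rfl rfl (by omega) ?_
  refine Finset.union_subset (Finset.union_subset ?_ (img_mono (by omega) le_rfl))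
    (img_mono (by omega) (by omega))
  rw [← img_self]
  exact img_mono le_rfl (by omega)

/-- positions of `[0, s]` of parity `e` -/
def par (e s : ℕ) : Finset ℕ := (Finset.range (s + 1)).filter (fun j => j % 2 = e)

theorem mem_par {e s j : ℕ} : j ∈ par e s ↔ j ≤ s ∧ j % 2 = e := by
  rw [par, Finset.mem_filter, Finset.mem_range, Nat.lt_succ_iff]

theorem card_par (s : ℕ) : (par 0 s).card = s / 2 + 1 ∧ (par 1 s).card = (s + 1) / 2 := by
  induction s with
  | zero => decide
  | succ s ih =>
    have e : ∀ e, par e (s + 1) = if (s + 1) % 2 = e then insert (s + 1) (par e s) else par e s := by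
      intro e
      unfold par
      rw [Finset.range_add_one, Finset.filter_insert]
    have hn : ∀ e, s + 1 ∉ par e s := by
      intro e h; rw [mem_par] at h; omega
    rw [e 0, e 1]
    rcases Nat.mod_two_eq_zero_or_one (s + 1) with h | h
    · rw [if_pos h, if_neg (by omega), Finset.card_insert_of_notMem (hn 0)]
      omega
    · rw [if_neg (by omega), if_pos h, Finset.card_insert_of_notMem (hn 1)]
      omega

/-- typical vertices have many neighbours on the cycle -/
theorem Base.typ_deg [Fintype V] {l d z0 : ℕ} {x : ℕ → V} {R Z F : Finset V}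
    (h : Base G l d z0 x R Z F) {i : ℕ} (hi : x i ∉ F) :
    d ≤ (pos G (l - 1) x (x i)).card + z0 := by
  have hl := h.ctx.cs.three
  have h1 := h.ctx.split (x i)
  rw [(h.ctx.cs.pseq (show l - 1 < l by omega)).card_pos]
  have h2 : dg G R (x i) ≤ z0 := (Finset.card_le_card (h.typ i hi)).trans h.Zc
  omega

/-- among `z0 + 1` consecutive vertices there is a typical one -/
theorem Base.typ_ex [Fintype V] {l d z0 : ℕ} {x : ℕ → V} {R Z F : Finset V}
    (h : Base G l d z0 x R Z F) {i : ℕ} (hi : i + z0 < l) :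
    ∃ t, i ≤ t ∧ t ≤ i + z0 ∧ x t ∉ F := by
  by_contra hcon
  push Not at hcon
  have h1 : (Finset.Icc i (i + z0)).image x ⊆ F := by
    intro v hv
    obtain ⟨t, ht, rfl⟩ := Finset.mem_image.mp hv
    rw [Finset.mem_Icc] at ht
    exact hcon t ht.1 ht.2
  have h2 := Finset.card_le_card h1
  rw [Finset.card_image_of_injOn] at h2
  · rw [Nat.card_Icc] at h2
    have := h.Fc
    omega
  · intro a ha b hb hab
    rw [Finset.coe_Icc, Set.mem_Icc] at ha hb
    exact h.ctx.cs.inj a b (by omega) (by omega) hab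

/-- the number of atypical positions -/
theorem Base.atyp [Fintype V] {l d z0 : ℕ} {x : ℕ → V} {R Z F : Finset V}
    (h : Base G l d z0 x R Z F) :
    ((Finset.range l).filter (fun t => x t ∈ F)).card ≤ z0 := by
  refine le_trans ?_ h.Fc
  refine Finset.card_le_card_of_injOn x ?_ ?_
  · intro t ht
    exact (Finset.mem_filter.mp ht).2
  · intro a ha b hb hab
    have ha := (Finset.mem_filter.mp ha).1
    have hb := (Finset.mem_filter.mp hb).1
    rw [Finset.mem_range] at ha hb
    exact h.ctx.cs.inj a b ha hb hab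

/-- the pigeonhole step: in a set `S` of positions, each with an `R`-neighbour other than `w` in
`Z`, some `z ∈ Z`, `z ≠ w`, is adjacent to many -/
theorem pigeon {Z : Finset V} {x : ℕ → V} {z0 K : ℕ} {S : Finset ℕ} (hZ : Z.card ≤ z0)
    (hS : z0 * K < S.card) (P : V → Prop)
    (hP : ∀ a ∈ S, ∃ z ∈ Z, P z ∧ G.Adj (x a) z) :
    ∃ z ∈ Z, P z ∧ ∃ A ⊆ S, K < A.card ∧ ∀ a ∈ A, G.Adj (x a) z := by
  classical
  have hS0 : S.Nonempty := by rw [← Finset.card_pos]; omega
  obtain ⟨a0, ha0⟩ := hS0
  obtain ⟨z0', _, _, _⟩ := hP a0 ha0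
  have : Nonempty V := ⟨z0'⟩
  choose! f hf1 hf2 hf3 using hP
  obtain ⟨z, hz, hc⟩ := Finset.exists_lt_card_fiber_of_mul_lt_card_of_maps_to (s := S) (t := Z)
    (f := f) (n := K) (fun a ha => hf1 a ha) (lt_of_le_of_lt (Nat.mul_le_mul_right _ hZ) hS)
  have hne : (S.filter (fun a => f a = z)).Nonempty := by
    rw [← Finset.card_pos]; omega
  obtain ⟨a, ha⟩ := hne
  rw [Finset.mem_filter] at ha
  refine ⟨z, hz, ha.2 ▸ hf2 a ha.1, S.filter (fun a => f a = z), Finset.filter_subset _ _, hc, ?_⟩
  intro b hb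
  rw [Finset.mem_filter] at hb
  exact hb.2 ▸ hf3 b hb.1

/-- a set of typical positions in arithmetic progression -/
theorem Base.typ_set [Fintype V] {l d z0 : ℕ} {x : ℕ → V} {R Z F : Finset V}
    (h : Base G l d z0 x R Z F) (a0 c K r : ℕ) (hc : 1 ≤ c) (hl : a0 + c * K + r < l) :
    ∃ S : Finset ℕ, K ≤ S.card + (r + 1) * z0 ∧
      ∀ a ∈ S, (∃ k, k < K ∧ a = a0 + c * k) ∧ ∀ r' ≤ r, x (a + r') ∉ F := by
  classical
  set At := (Finset.range l).filter (fun t => x t ∈ F) with hAt
  set T := (Finset.range K).image (fun k => a0 + c * k) with hT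
  set B := (Finset.range (r + 1)).biUnion (fun r' => At.image (fun t => t - r')) with hB
  have hTc : T.card = K := by
    rw [hT, Finset.card_image_of_injective, Finset.card_range]
    intro a b hab
    simp only at hab
    exact Nat.eq_of_mul_eq_mul_left (by omega) (Nat.add_left_cancel hab)
  have hBc : B.card ≤ (r + 1) * z0 := by
    have h3 := Finset.card_biUnion_le_card_mul (Finset.range (r + 1))
      (fun r' => At.image (fun t => t - r')) z0 (fun r' _ => Finset.card_image_le.trans h.atyp)
    rwa [Finset.card_range] at h3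
  refine ⟨T \ B, ?_, ?_⟩
  · have := Finset.le_card_sdiff B T
    omega
  · intro a ha
    rw [Finset.mem_sdiff, hT, Finset.mem_image] at ha
    obtain ⟨⟨k, hk, rfl⟩, ha2⟩ := ha
    rw [Finset.mem_range] at hk
    refine ⟨⟨k, hk, rfl⟩, fun r' hr' hF => ha2 ?_⟩
    rw [hB, Finset.mem_biUnion]
    refine ⟨r', Finset.mem_range.mpr (by omega), Finset.mem_image.mpr ⟨a0 + c * k + r', ?_, by omega⟩⟩
    rw [hAt, Finset.mem_filter, Finset.mem_range]
    have : c * k ≤ c * K := Nat.mul_le_mul_left _ hk.le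
    exact ⟨by omega, hF⟩

end Pool.Agent.H34.OC
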