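import Pool.Agent.H34.OC.Ext

/-!
# Cyclic sequences
-/

set_option autoImplicit false

namespace Pool.Agent.H34.OC

variable {V : Type*} [DecidableEq V] {G : SimpleGraph V}

/-- A cyclic sequence describing a cycle with `l` vertices. -/
structure CSeq (G : SimpleGraph V) (l : ℕ) (x : ℕ → V) : Prop where
  three : 3 ≤ l
  per : ∀ i, x (i + l) = x i
  adj : ∀ i, G.Adj (x i) (x (i + 1))
  inj : ∀ i j, i < l → j < l → x i = x j → i = j

theorem HasCyc.cseq {l : ℕ} (h : HasCyc G l) : ∃ x, CSeq G l x := by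
  obtain ⟨hl, a, b, S, hp, hab⟩ := h
  obtain ⟨x, hx, h0, hm, _⟩ := hp.seq
  refine ⟨fun t => x (t % l), hl, fun i => by simp, ?_, ?_⟩
  · intro i
    have h1 : i % l < l := Nat.mod_lt _ (by omega)
    rcases Nat.lt_or_ge (i % l + 1) l with h2 | h2
    · have h3 : (i + 1) % l = i % l + 1 := by
        rw [Nat.add_mod, Nat.mod_eq_of_lt (show 1 < l by omega), Nat.mod_eq_of_lt h2]
      simp only [h3]
      exact hx.adj _ (by omega)
    · have h3 : i % l = l - 1 := by omega
      have h4 : (i + 1) % l = 0 := by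
        rw [Nat.add_mod, Nat.mod_eq_of_lt (show 1 < l by omega), h3]
        have : l - 1 + 1 = l := by omega
        rw [this, Nat.mod_self]
      simp only [h3, h4, h0, hm]
      exact hab
  · intro i j hi hj hij
    simp only [Nat.mod_eq_of_lt hi, Nat.mod_eq_of_lt hj] at hij
    exact hx.inj _ _ (by omega) (by omega) hij

theorem CSeq.mod {l : ℕ} {x : ℕ → V} (h : CSeq G l x) (t : ℕ) : x t = x (t % l) := by
  have h1 : ∀ k t, x (t + k * l) = x t := by
    intro k
    induction k with
    | zero => intro t; simp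
    | succ k ih => intro t; rw [Nat.succ_mul, ← Nat.add_assoc, h.per, ih]
  have h2 := h1 (t / l) (t % l)
  rwa [Nat.mul_comm, Nat.mod_add_div] at h2

theorem CSeq.eq_iff {l : ℕ} {x : ℕ → V} (h : CSeq G l x) {s t : ℕ} :
    x s = x t ↔ s % l = t % l := by
  have hl := h.three
  constructor
  · intro he
    rw [h.mod s, h.mod t] at he
    exact h.inj _ _ (Nat.mod_lt _ (by omega)) (Nat.mod_lt _ (by omega)) he
  · intro he
    rw [h.mod s, h.mod t, he]

theorem CSeq.shift {l : ℕ} {x : ℕ → V} (h : CSeq G l x) (r : ℕ) :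
    CSeq G l (fun t => x (t + r)) := by
  refine ⟨h.three, fun i => ?_, fun i => ?_, fun i j hi hj hij => ?_⟩
  · have := h.per (i + r)
    rw [← this]; congr 1; ring
  · have := h.adj (i + r)
    have e : i + 1 + r = i + r + 1 := by ring
    rw [e]; exact this
  · have h1 := h.eq_iff.mp hij
    have h2 : i % l = j % l := Nat.ModEq.add_right_cancel' r h1
    rwa [Nat.mod_eq_of_lt hi, Nat.mod_eq_of_lt hj] at h2

theorem CSeq.reflect {l : ℕ} {x : ℕ → V} (h : CSeq G l x) :
    CSeq G l (fun t => x ((l - 1) * t)) := by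
  have hl := h.three
  refine ⟨hl, fun i => ?_, fun i => ?_, fun i j hi hj hij => ?_⟩
  · rw [h.eq_iff, Nat.mul_add, Nat.add_mul_mod_self_right]
  · have h1 := h.adj ((l - 1) * (i + 1))
    have h2 : x ((l - 1) * (i + 1) + 1) = x ((l - 1) * i) := by
      rw [h.eq_iff]
      have : (l - 1) * (i + 1) + 1 = (l - 1) * i + l := by
        rw [Nat.mul_add, Nat.mul_one]; omega
      rw [this, Nat.add_mod_right]
    rw [h2] at h1
    exact h1.symm
  · rw [h.eq_iff] at hij
    have hco : Nat.gcd l (l - 1) = 1 := by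
      have : Nat.Coprime (l - 1) l := by
        have h3 : l = (l - 1) + 1 := by omega
        conv_rhs => rw [h3]
        exact Nat.coprime_self_add_right.mpr (Nat.coprime_one_right _) |>.symm.symm
      exact this.symm
    have h2 : i ≡ j [MOD l] := Nat.ModEq.cancel_left_of_coprime hco hij
    have h3 : i % l = j % l := h2
    rwa [Nat.mod_eq_of_lt hi, Nat.mod_eq_of_lt hj] at h3

theorem CSeq.pseq {l : ℕ} {x : ℕ → V} (h : CSeq G l x) {m : ℕ} (hm : m < l) : PSeq G m x :=
  ⟨fun i _ => h.adj i, fun i j hi hj hij => h.inj i j (by omega) (by omega) hij⟩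

theorem CSeq.mem_img_all {l : ℕ} {x : ℕ → V} (h : CSeq G l x) (t : ℕ) : x t ∈ img x 0 (l - 1) := by
  have hl := h.three
  rw [h.mod t]
  have := Nat.mod_lt t (by omega : 0 < l)
  exact mem_img_self (Nat.zero_le _) (by omega)

theorem CSeq.img_shift {l : ℕ} {x : ℕ → V} (h : CSeq G l x) (r : ℕ) :
    img (fun t => x (t + r)) 0 (l - 1) = img x 0 (l - 1) := by
  have hl := h.three
  apply Finset.Subset.antisymm
  · intro v hv
    obtain ⟨t, _, _, rfl⟩ := mem_img.mp hv
    exact h.mem_img_all _
  · intro v hv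
    obtain ⟨t, _, ht, rfl⟩ := mem_img.mp hv
    have h1 := (h.shift r).mem_img_all (t + (l - 1) * r)
    have h2 : x (t + (l - 1) * r + r) = x t := by
      rw [h.eq_iff]
      have : t + (l - 1) * r + r = t + l * r := by
        have h3 : l * r = (l - 1) * r + r := by
          conv_lhs => rw [show l = (l - 1) + 1 by omega]
          ring
        omega
      rw [this, Nat.add_mul_mod_self_left]
    rwa [h2] at h1

/-- replacing an arc of length `s` by a route outside the cycle -/
theorem CSeq.replace {l : ℕ} {x : ℕ → V} (h : CSeq G l x) {D : Finset V} (hD : ∀ t, x t ∉ D)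
    {r s p : ℕ} {w w' : V} (hs : s ≤ l) (hs1 : 1 ≤ s) (hroute : PIn G w w' p D)
    (h1 : G.Adj (x r) w) (h2 : G.Adj (x (r + s)) w') (h3 : 1 ≤ l - s + p) {N : ℕ}
    (hN : N = l - s + p + 2) : HasCyc G N := by
  have hl := h.three
  have hy := h.shift (r + s)
  have hp := (hy.pseq (show l - s < l by omega)).pin (Nat.zero_le (l - s)) le_rfl
  simp only [Nat.zero_add] at hp
  have e1 : x (l - s + (r + s)) = x r := by
    have : l - s + (r + s) = r + l := by omega
    rw [this, h.per]
  rw [e1] at hp
  have hj := hp.join h1 hroute (by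
    rw [Finset.disjoint_left]
    intro v hv hv'
    obtain ⟨t, _, _, rfl⟩ := mem_img.mp hv
    exact hD _ hv')
  exact hj.hasCyc h2.symm (by omega) (by omega)

/-- the crossing move on a cycle -/
theorem CSeq.cross {l : ℕ} {x : ℕ → V} (h : CSeq G l x) {r s : ℕ} {w w' : V} (hs1 : 1 ≤ s)
    (hs : s < l) (hw : ∀ t, x t ≠ w) (hw' : ∀ t, x t ≠ w') (hne : w ≠ w')
    (h1 : G.Adj (x r) w) (h2 : G.Adj (x (r + s)) w)
    (h3 : G.Adj (x (r + 1)) w') (h4 : G.Adj (x (r + s + 1)) w') : HasCyc G (l + 2) := by
  have hl := h.three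
  have hy := h.shift (r + 1)
  set y : ℕ → V := fun t => x (t + (r + 1)) with hydef
  have hps := hy.pseq (show l - 1 < l by omega)
  have a1 : G.Adj (y (s - 1)) w := by
    have : s - 1 + (r + 1) = r + s := by omega
    simp only [hydef, this]; exact h2
  have a2 : G.Adj w (y (l - 1)) := by
    have : l - 1 + (r + 1) = r + l := by omega
    simp only [hydef, this, h.per]; exact h1.symm
  have a3 : G.Adj (y s) w' := by
    have : s + (r + 1) = r + s + 1 := by omega
    simp only [hydef, this]; exact h4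
  have a4 : G.Adj w' (y 0) := by
    simp only [hydef, Nat.zero_add]; exact h3.symm
  have hwy : ∀ i j, w ∉ img y i j := by
    intro i j hv; obtain ⟨t, _, _, ht⟩ := mem_img.mp hv; exact hw _ ht
  have hwy' : ∀ i j, w' ∉ img y i j := by
    intro i j hv; obtain ⟨t, _, _, ht⟩ := mem_img.mp hv; exact hw' _ ht
  have p1 := (hps.pin (Nat.zero_le (s - 1)) (by omega)).join a1 (PIn.single w) (by
    rw [Finset.disjoint_singleton_right]; exact hwy _ _)
  have p2 := p1.join a2 (hps.pin (show s ≤ l - 1 by omega) le_rfl).rev (by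
    rw [Finset.disjoint_union_left, Finset.disjoint_singleton_left]
    exact ⟨hps.img_disj (by omega) le_rfl, hwy _ _⟩)
  have p3 := p2.join a3 (PIn.single w') (by
    rw [Finset.disjoint_singleton_right]
    simp only [Finset.mem_union, Finset.mem_singleton]
    rintro ((h5 | h5) | h5)
    · exact hwy' _ _ h5
    · exact hne h5.symm
    · exact hwy' _ _ h5)
  exact p3.hasCyc a4 (by omega) (by omega)

/-- no extension of the path `x 0, ..., x (l-1)` if there is no cycle of length `l+2` -/
theorem CSeq.no_ext {l : ℕ} {x : ℕ → V} (h : CSeq G l x) (hno : ¬ HasCyc G (l + 2))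
    (U : Finset V) : ¬ PIn G (x 0) (x (l - 1)) (l - 1 + 2) U := by
  intro hp
  apply hno
  have hl := h.three
  refine hp.hasCyc ?_ (by omega) (by omega)
  have h1 := h.adj (l - 1)
  have h2 : x (l - 1 + 1) = x 0 := by
    have : l - 1 + 1 = 0 + l := by omega
    rw [this, h.per]
  rwa [h2] at h1

end Pool.Agent.H34.OC
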