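import Pool.Agent.H34.OC.Menger

/-!
# Bounded connectivity from linear minimum degree
-/

set_option autoImplicit false

namespace Pool.Agent.H34.OC

variable {V : Type*} [DecidableEq V] {G : SimpleGraph V}

theorem exists_pth_avoid (hconn : ∀ v : V, (G.induce ({v}ᶜ : Set V)).Connected) {v a b : V}
    (ha : a ≠ v) (hb : b ≠ v) : ∃ m S, Pth G a b m S ∧ v ∉ S := by
  classical
  have hr : (G.induce ({v}ᶜ : Set V)).Reachable ⟨a, by simpa using ha⟩ ⟨b, by simpa using hb⟩ :=
    (hconn v).preconnected _ _
  obtain ⟨p⟩ := hr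
  let q := p.toPath
  have hq : q.1.IsPath := q.2
  let f := (SimpleGraph.Embedding.induce (G := G) ({v}ᶜ : Set V)).toHom
  have hinj : Function.Injective f := Subtype.val_injective
  have h1 := SimpleGraph.Walk.IsPath.map hinj hq
  have h2 := Pth.ofWalk _ h1
  refine ⟨_, _, h2, ?_⟩
  rw [List.mem_toFinset, SimpleGraph.Walk.support_map, List.mem_map]
  rintro ⟨u, _, hu⟩
  have : u.1 = v := hu
  exact u.2 this

theorem bconn_of [Fintype V] (hconn : ∀ v : V, (G.induce ({v}ᶜ : Set V)).Connected) {δ r : ℕ}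
    (hdeg : ∀ v, δ + 1 ≤ dg G Finset.univ v) (hr : Fintype.card V < (r + 1) * δ) :
    BConn G (3 * r + 2) := by
  classical
  intro v a b ha hb
  have hex : ∃ m, ∃ S, Pth G a b m S ∧ v ∉ S := by
    obtain ⟨m, S, h1, h2⟩ := exists_pth_avoid hconn ha hb
    exact ⟨m, S, h1, h2⟩
  obtain ⟨S, hp, hv⟩ := Nat.find_spec hex
  set m := Nat.find hex with hm
  have hmin : ∀ m' S', Pth G a b m' S' → v ∉ S' → m ≤ m' := fun m' S' h1 h2 =>
    Nat.find_min' hex ⟨S', h1, h2⟩
  refine ⟨m, S, ?_, hp, hv⟩
  obtain ⟨x, hx, hx0, hxm, hxS⟩ := hp.seq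
  have hvx : ∀ i j, j ≤ m → v ∉ img x i j := by
    intro i j hj h
    apply hv; rw [← hxS]; exact img_mono (Nat.zero_le _) hj h
  have hshort1 : ∀ i k, i ≤ m → k ≤ m → G.Adj (x i) (x k) → k ≤ i + 1 := by
    intro i k hi hk hik
    by_contra hcon
    push Not at hcon
    have h1 := (hx.seg (Nat.zero_le i) hi).join hik (hx.seg hk le_rfl) (hx.img_disj (by omega) le_rfl)
    have h2 := hmin _ _ (h1.congr hx0 hxm rfl rfl) (by
      rw [Finset.mem_union]; rintro (h | h)
      · exact hvx _ _ hi h
      · exact hvx _ _ le_rfl h)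
    omega
  have hdisj : ∀ i j, i ≤ m → j ≤ m → i + 3 ≤ j →
      Disjoint (nb G (Finset.univ.erase v) (x i)) (nb G (Finset.univ.erase v) (x j)) := by
    intro i j hi hj hij
    rw [Finset.disjoint_left]
    intro w hw1 hw2
    rw [mem_nb, Finset.mem_erase] at hw1 hw2
    by_cases hw : ∃ k, k ≤ m ∧ x k = w
    · obtain ⟨k, hk, rfl⟩ := hw
      have h1 := hshort1 i k hi hk hw1.2
      have h2 := hshort1 k j hk hj hw2.2.symm
      omega
    · push Not at hw
      have hwx : ∀ i j, j ≤ m → w ∉ img x i j := by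
        intro i j hj h
        obtain ⟨t, _, ht, h5⟩ := mem_img.mp h
        exact hw t (by omega) h5
      have h1 := ((hx.seg (Nat.zero_le i) hi).join hw1.2 (Pth.nil w) (by
        rw [Finset.disjoint_singleton_right]; exact hwx _ _ hi)).join hw2.2.symm
        (hx.seg hj le_rfl) (by
        rw [Finset.disjoint_union_left, Finset.disjoint_singleton_left]
        exact ⟨hx.img_disj (by omega) le_rfl, hwx _ _ le_rfl⟩)
      have h2 := hmin _ _ (h1.congr hx0 hxm rfl rfl) (by
        simp only [Finset.mem_union, Finset.mem_singleton]; rintro ((h | h) | h)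
        · exact hvx _ _ hi h
        · exact hw1.1.1 h.symm
        · exact hvx _ _ le_rfl h)
      omega
  have hsum : ∑ i ∈ Finset.range (m / 3 + 1), (nb G (Finset.univ.erase v) (x (3 * i))).card ≤
      Fintype.card V := by
    rw [← Finset.card_biUnion]
    · exact Finset.card_le_univ _
    · intro i hi j hj hij
      rw [Finset.mem_coe, Finset.mem_range] at hi hj
      rcases Nat.lt_or_ge i j with h | h
      · exact hdisj _ _ (by omega) (by omega) (by omega)
      · exact (hdisj _ _ (by omega) (by omega) (by omega)).symm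
  have hlow : ∀ u, δ ≤ (nb G (Finset.univ.erase v) u).card := by
    intro u
    have h1 := hdeg u
    have h2 := dg_sdiff_ge (G := G) Finset.univ {v} u
    have h3 : (Finset.univ : Finset V) \ {v} = Finset.univ.erase v := by
      ext w; simp
    rw [h3, Finset.card_singleton] at h2
    unfold dg at h1 h2
    omega
  have h1 : (m / 3 + 1) * δ ≤ Fintype.card V := by
    refine le_trans ?_ hsum
    have := Finset.card_nsmul_le_sum (Finset.range (m / 3 + 1))
      (fun i => (nb G (Finset.univ.erase v) (x (3 * i))).card) δ (fun i _ => hlow _)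
    simpa using this
  have h2 : m / 3 + 1 < r + 1 := by
    by_contra hcon
    push Not at hcon
    have := Nat.mul_le_mul_right δ hcon
    omega
  omega

end Pool.Agent.H34.OC
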