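import Pool.Agent.H34.OC.PX
import Pool.Agent.H34.OC.Fin0

/-!
# Final configuration: counting the neighbours of a typical vertex (case EA1)
-/

set_option autoImplicit false

namespace Pool.Agent.H34.OC

variable {V : Type*} [DecidableEq V] {G : SimpleGraph V}

/-- a typical vertex among `z0 + 1` consecutive ones -/
theorem Base.exists_typ [Fintype V] {l d z0 : ℕ} {x : ℕ → V} {R Z F : Finset V}
    (h : Base G l d z0 x R Z F) {a : ℕ} (ha : a + z0 < l) : ∃ i, a ≤ i ∧ i ≤ a + z0 ∧ x i ∉ F := by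
  by_contra hcon
  push Not at hcon
  have h1 : ((Finset.Icc a (a + z0)).image x) ⊆ F := by
    intro v hv
    obtain ⟨t, ht, rfl⟩ := Finset.mem_image.mp hv
    rw [Finset.mem_Icc] at ht
    exact hcon t ht.1 ht.2
  have h2 : ((Finset.Icc a (a + z0)).image x).card = z0 + 1 := by
    rw [Finset.card_image_of_injOn, Nat.card_Icc]
    · omega
    · intro s hs t ht hst
      simp only [Finset.coe_Icc, Set.mem_Icc] at hs ht
      exact h.ctx.cs.inj s t (by omega) (by omega) hst
  have h3 := Finset.card_le_card h1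
  have h4 := h.Fc
  omega

theorem Base.card_pos_ge [Fintype V] {l d z0 : ℕ} {x : ℕ → V} {R Z F : Finset V}
    (h : Base G l d z0 x R Z F) {i : ℕ} (hi : x i ∉ F) :
    d ≤ (pos G (l - 1) x (x i)).card + z0 := by
  have hl := h.ctx.cs.three
  have h1 := (h.ctx.cs.pseq (m := l - 1) (by omega)).card_pos (x i)
  have h2 := h.ctx.split (x i)
  have h3 : dg G R (x i) ≤ z0 := (Finset.card_le_card (h.typ i hi)).trans h.Zc
  omega

/-- shortcut through a chord -/
theorem PSeq.chordA {m : ℕ} {x : ℕ → V} (h : PSeq G m x) {i j : ℕ} (hij : i < j) (hj : j ≤ m)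
    (ha : G.Adj (x i) (x j)) : PIn G (x 0) (x m) (i + 1 + (m - j)) (img x 0 m) := by
  refine ((h.pin (Nat.zero_le i) (by omega)).join ha (h.pin hj le_rfl)
    (h.img_disj hij le_rfl)).congr rfl rfl (by omega) ?_
  intro v hv
  rcases Finset.mem_union.mp hv with hv | hv
  · exact img_mono le_rfl (by omega) hv
  · exact img_mono (Nat.zero_le _) le_rfl hv

/-- shortcut through two chords with a common end -/
theorem PSeq.chordB {m : ℕ} {x : ℕ → V} (h : PSeq G m x) {i j j' : ℕ} (hji : j < i)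
    (hij : i < j') (hj : j' ≤ m) (ha : G.Adj (x i) (x j)) (ha' : G.Adj (x i) (x j')) :
    PIn G (x 0) (x m) (j + 2 + (m - j')) (img x 0 m) := by
  have p1 := (h.pin (Nat.zero_le j) (by omega)).join ha.symm (PIn.single (x i)) (by
    rw [← img_self]; exact h.img_disj hji (by omega))
  have p2 := p1.join ha' (h.pin hj le_rfl) (by
    rw [Finset.disjoint_union_left]
    refine ⟨h.img_disj (by omega) le_rfl, ?_⟩
    rw [← img_self]; exact h.img_disj hij le_rfl)
  refine p2.congr rfl rfl (by omega) ?_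
  intro v hv
  simp only [Finset.mem_union, Finset.mem_singleton] at hv
  rcases hv with (hv | rfl) | hv
  · exact img_mono le_rfl (by omega) hv
  · exact mem_img_self (Nat.zero_le _) (by omega)
  · exact img_mono (Nat.zero_le _) le_rfl hv

theorem Base.ea1 [Fintype V] {l d z0 k Q0 E : ℕ} {x : ℕ → V} {R Z F : Finset V}
    (h : Base G l d z0 x R Z F) (h1 : k < l) (h2 : l < k + Q0) (hE : 10 * (z0 + Q0 + 10) ≤ E)
    (hd : 100 * E ≤ d)
    (hno : ∀ p, p % 2 = k % 2 → E ≤ p → p + Q0 ≤ l → ¬ PIn G (x 0) (x k) p (img x 0 (l - 1))) :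
    False := by
  have hll := h.ll
  have hle := h.ctx.le
  obtain ⟨i, hi1, hi2, hiF⟩ := h.exists_typ (a := k / 2) (by omega)
  have hcard := h.card_pos_ge hiF
  have hxk : PSeq G k x := h.ctx.cs.pseq h1
  have hsub : img x 0 k ⊆ img x 0 (l - 1) := img_mono le_rfl (by omega)
  -- odd chords
  have hodd1 : ∀ t, t < i → (i - t) % 2 = 1 → Q0 + 1 ≤ i - t → i - t + E ≤ k / 2 →
      ¬ G.Adj (x i) (x t) := by
    intro t ht h3 h4 h5 ha
    have hp := (hxk.chordA ht (by omega) ha.symm).mono hsub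
    exact hno _ (by omega) (by omega) (by omega) hp
  have hodd2 : ∀ t, i < t → t ≤ k → (t - i) % 2 = 1 → Q0 + 1 ≤ t - i → t - i + E ≤ k / 2 →
      ¬ G.Adj (x i) (x t) := by
    intro t ht htk h3 h4 h5 ha
    have hp := (hxk.chordA ht htk ha).mono hsub
    exact hno _ (by omega) (by omega) (by omega) hp
  have heven : ∀ t t', t < i → i < t' → t' ≤ k → (i - t) % 2 = 0 → (t' - i) % 2 = 0 →
      Q0 + 1 ≤ i - t → Q0 + 1 ≤ t' - i → i - t + E ≤ k / 2 → t' - i + E ≤ k / 2 →
      G.Adj (x i) (x t) → ¬ G.Adj (x i) (x t') := by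
    intro t t' ht ht' htk h3 h4 h5 h6 h7 h8 ha ha'
    have hp := (hxk.chordB ht ht' htk ha ha').mono hsub
    exact hno _ (by omega) (by omega) (by omega) hp
  -- the common part of the cover
  set A1 : Finset ℕ := Finset.Icc (i - Q0) (i + Q0) with hA1
  set A2 : Finset ℕ := Finset.range (i + E - k / 2) with hA2
  set A3 : Finset ℕ := Finset.Icc (i + (k / 2 - E) + 1) k with hA3
  set A4 : Finset ℕ := Finset.Ioo k l with hA4
  have c1 : A1.card ≤ 2 * Q0 + 1 := by rw [hA1, Nat.card_Icc]; omega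
  have c2 : A2.card ≤ E + z0 := by rw [hA2, Finset.card_range]; omega
  have c3 : A3.card ≤ E + 1 := by rw [hA3, Nat.card_Icc]; omega
  have c4 : A4.card ≤ Q0 := by rw [hA4, Nat.card_Ioo]; omega
  have fin : ∀ A5 : Finset ℕ, A5.card ≤ k / 4 + 1 →
      pos G (l - 1) x (x i) ⊆ A1 ∪ A2 ∪ A3 ∪ A4 ∪ A5 → False := by
    intro A5 c5 hs
    have h3 := Finset.card_le_card hs
    have h4 := Finset.card_union_le (A1 ∪ A2 ∪ A3 ∪ A4) A5
    have h5 := Finset.card_union_le (A1 ∪ A2 ∪ A3) A4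
    have h6 := Finset.card_union_le (A1 ∪ A2) A3
    have h7 := Finset.card_union_le A1 A2
    omega
  have hmem : ∀ t, t ∈ pos G (l - 1) x (x i) → t ∉ A1 → t ∉ A2 → t ∉ A3 → t ∉ A4 →
      (t < i ∧ (i - t) % 2 = 0 ∧ Q0 + 1 ≤ i - t ∧ i - t + E ≤ k / 2) ∨
      (i < t ∧ t ≤ k ∧ (t - i) % 2 = 0 ∧ Q0 + 1 ≤ t - i ∧ t - i + E ≤ k / 2) := by
    intro t ht n1 n2 n3 n4
    rw [mem_pos] at ht
    rw [hA1, Finset.mem_Icc] at n1
    rw [hA2, Finset.mem_range] at n2
    rw [hA3, Finset.mem_Icc] at n3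
    rw [hA4, Finset.mem_Ioo] at n4
    rcases Nat.lt_or_ge t i with hti | hti
    · left
      refine ⟨hti, ?_, by omega, by omega⟩
      by_contra hodd
      exact hodd1 t hti (by omega) (by omega) (by omega) ht.2.symm
    · right
      refine ⟨by omega, by omega, ?_, by omega, by omega⟩
      by_contra hodd
      exact hodd2 t (by omega) (by omega) (by omega) (by omega) (by omega) ht.2.symm
  by_cases hex : ∃ t, t < i ∧ (i - t) % 2 = 0 ∧ Q0 + 1 ≤ i - t ∧ i - t + E ≤ k / 2 ∧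
      G.Adj (x i) (x t)
  · obtain ⟨t0, e1, e2, e3, e4, e5⟩ := hex
    refine fin ((Finset.range (k / 4 + 1)).image (fun s => i - 2 * s))
      (Finset.card_image_le.trans (by rw [Finset.card_range])) ?_
    intro t ht
    by_cases n1 : t ∈ A1; · simp [n1]
    by_cases n2 : t ∈ A2; · simp [n2]
    by_cases n3 : t ∈ A3; · simp [n3]
    by_cases n4 : t ∈ A4; · simp [n4]
    rcases hmem t ht n1 n2 n3 n4 with ⟨f1, f2, f3, f4⟩ | ⟨f1, f2, f3, f4, f5⟩
    · refine Finset.mem_union_right _ (Finset.mem_image.mpr ⟨(i - t) / 2, ?_, by omega⟩)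
      rw [Finset.mem_range]; omega
    · exact absurd (mem_pos.mp ht).2.symm (heven t0 t e1 f1 f2 e2 f3 e3 f4 e4 f5 e5)
  · push Not at hex
    refine fin ((Finset.range (k / 4 + 1)).image (fun s => i + 2 * s))
      (Finset.card_image_le.trans (by rw [Finset.card_range])) ?_
    intro t ht
    by_cases n1 : t ∈ A1; · simp [n1]
    by_cases n2 : t ∈ A2; · simp [n2]
    by_cases n3 : t ∈ A3; · simp [n3]
    by_cases n4 : t ∈ A4; · simp [n4]
    rcases hmem t ht n1 n2 n3 n4 with ⟨f1, f2, f3, f4⟩ | ⟨f1, f2, f3, f4, f5⟩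
    · exact absurd (mem_pos.mp ht).2.symm (hex t f1 f2 f3 f4)
    · refine Finset.mem_union_right _ (Finset.mem_image.mpr ⟨(t - i) / 2, ?_, by omega⟩)
      rw [Finset.mem_range]; omega

end Pool.Agent.H34.OC
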