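import Pool.Agent.H34.OC.PX
import Pool.Agent.H34.OC.Fin0

/-!
# Final configuration: two swaps and a crossing
-/

set_option autoImplicit false

namespace Pool.Agent.H34.OC

variable {V : Type*} [DecidableEq V] {G : SimpleGraph V}

/-- exchange of the entries at positions `i` and `j` -/
def swp (x : ℕ → V) (i j : ℕ) : ℕ → V := fun t => if t = i then x j else if t = j then x i else x t

omit [DecidableEq V] in
theorem swp_left (x : ℕ → V) (i j : ℕ) : swp x i j i = x j := by simp [swp]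

omit [DecidableEq V] in
theorem swp_right (x : ℕ → V) (i j : ℕ) : swp x i j j = x i := by
  by_cases h : j = i
  · simp [swp, h]
  · simp [swp, h]

omit [DecidableEq V] in
theorem swp_ne (x : ℕ → V) {i j t : ℕ} (h1 : t ≠ i) (h2 : t ≠ j) : swp x i j t = x t := by
  simp [swp, h1, h2]

omit [DecidableEq V] in
theorem PSeq.swap {m : ℕ} {x : ℕ → V} (h : PSeq G m x) {i j : ℕ} (hi : 1 ≤ i) (him : i < m)
    (hj : 1 ≤ j) (hjm : j < m) (hij : i + 3 ≤ j ∨ j + 3 ≤ i)
    (h1 : G.Adj (x j) (x (i - 1))) (h2 : G.Adj (x j) (x (i + 1)))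
    (h3 : G.Adj (x i) (x (j - 1))) (h4 : G.Adj (x i) (x (j + 1))) :
    PSeq G m (swp x i j) := by
  refine ⟨?_, ?_⟩
  · intro t ht
    by_cases e1 : t = i
    · subst e1
      rw [swp_left, swp_ne x (by omega) (by omega)]
      exact h2
    by_cases e2 : t = j
    · subst e2
      rw [swp_right, swp_ne x (by omega) (by omega)]
      exact h4
    by_cases e3 : t + 1 = i
    · rw [e3, swp_left, swp_ne x e1 e2]
      have : t = i - 1 := by omega
      rw [this]
      exact h1.symm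
    by_cases e4 : t + 1 = j
    · rw [e4, swp_right, swp_ne x e1 e2]
      have : t = j - 1 := by omega
      rw [this]
      exact h3.symm
    rw [swp_ne x e1 e2, swp_ne x e3 e4]
    exact h.adj t ht
  · intro s t hs ht hst
    have key : ∀ s, s ≤ m → ∃ s', s' ≤ m ∧ swp x i j s = x s' ∧
        ((s = i ∧ s' = j) ∨ (s = j ∧ s' = i) ∨ (s ≠ i ∧ s ≠ j ∧ s' = s)) := by
      intro s hs
      by_cases e1 : s = i
      · exact ⟨j, by omega, by rw [e1, swp_left], Or.inl ⟨e1, rfl⟩⟩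
      by_cases e2 : s = j
      · exact ⟨i, by omega, by rw [e2, swp_right], Or.inr (Or.inl ⟨e2, rfl⟩)⟩
      exact ⟨s, hs, swp_ne x e1 e2, Or.inr (Or.inr ⟨e1, e2, rfl⟩)⟩
    obtain ⟨s', hs', es, cs⟩ := key s hs
    obtain ⟨t', ht', et, ct⟩ := key t ht
    have := h.inj s' t' hs' ht' (by rw [← es, ← et, hst])
    omega

theorem exists_far {C : Finset ℕ} {B : Finset ℕ} {L : List ℕ}
    (h : B.card + 9 * L.length < C.card) :
    ∃ c ∈ C, c ∉ B ∧ ∀ a ∈ L, c + 5 ≤ a ∨ a + 5 ≤ c := by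
  classical
  induction L generalizing B with
  | nil =>
    simp only [List.length_nil, Nat.mul_zero, Nat.add_zero] at h
    obtain ⟨c, hc, hcB⟩ := Finset.exists_mem_notMem_of_card_lt_card h
    exact ⟨c, hc, hcB, by simp⟩
  | cons a L ih =>
    have h1 : (Finset.Icc (a - 4) (a + 4)).card ≤ 9 := by
      rw [Nat.card_Icc]; omega
    have h2 : (B ∪ Finset.Icc (a - 4) (a + 4)).card ≤ B.card + 9 :=
      (Finset.card_union_le _ _).trans (by omega)
    obtain ⟨c, hc, hcB, hL⟩ := ih (B := B ∪ Finset.Icc (a - 4) (a + 4)) (by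
      rw [List.length_cons] at h; omega)
    rw [Finset.mem_union, not_or, Finset.mem_Icc] at hcB
    refine ⟨c, hc, hcB.1, ?_⟩
    intro b hb
    rcases List.mem_cons.mp hb with rfl | hb
    · have := hcB.2; omega
    · exact hL b hb

theorem Ctx.fin_aux [Fintype V] {l d N0 : ℕ} {x : ℕ → V} {R : Finset V} (h : Ctx G l d x R)
    {z z' : V} (hz : z ∈ R) (hz' : z' ∈ R) (hne : z ≠ z') {A C : Finset ℕ}
    (hA : ∀ a ∈ A, 2 ≤ a ∧ a + 5 ≤ l ∧ G.Adj (x a) z)
    (hC : ∀ c ∈ C, 2 ≤ c ∧ c + 5 ≤ l ∧ G.Adj (x c) z')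
    (hCc : N0 + 40 ≤ C.card)
    (hgood : ∀ a ∈ A, ∃ B : Finset ℕ, B.card ≤ N0 ∧ ∀ c ∈ C, c ∉ B →
      G.Adj (x c) (x a) ∧ G.Adj (x c) (x (a + 2)) ∧ G.Adj (x (a + 1)) (x (c - 1)) ∧
      G.Adj (x (a + 1)) (x (c + 1)))
    {a b : ℕ} (ha : a ∈ A) (hb : b ∈ A) (hab : a + 5 ≤ b) : False := by
  obtain ⟨a2, al, aadj⟩ := hA a ha
  obtain ⟨b2, bl, badj⟩ := hA b hb
  obtain ⟨Ba, hBa, ga⟩ := hgood a ha
  obtain ⟨Bb, hBb, gb⟩ := hgood b hb
  obtain ⟨c, hc, hcB, hcL⟩ := exists_far (C := C) (B := Ba) (L := [a, b]) (by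
    simp only [List.length_cons, List.length_nil]; omega)
  have hca := hcL a (by simp)
  have hcb := hcL b (by simp)
  obtain ⟨c', hc', hcB', hcL'⟩ := exists_far (C := C) (B := Bb) (L := [a, b, c]) (by
    simp only [List.length_cons, List.length_nil]; omega)
  have hca' := hcL' a (by simp)
  have hcb' := hcL' b (by simp)
  have hcc' := hcL' c (by simp)
  obtain ⟨c2, cl, cadj⟩ := hC c hc
  obtain ⟨c2', cl', cadj'⟩ := hC c' hc'
  obtain ⟨g1, g2, g3, g4⟩ := ga c hc hcB
  obtain ⟨k1, k2, k3, k4⟩ := gb c' hc' hcB'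
  have hx : PSeq G (l - 1) x := h.cs.pseq (by omega)
  have hy : PSeq G (l - 1) (swp x (a + 1) c) := by
    refine hx.swap (by omega) (by omega) (by omega) (by omega) (by omega) ?_ ?_ g3 g4
    · rw [show a + 1 - 1 = a by omega]; exact g1
    · exact g2
  set y := swp x (a + 1) c with hyd
  have hw : PSeq G (l - 1) (swp y (b + 1) c') := by
    refine hy.swap (by omega) (by omega) (by omega) (by omega) (by omega) ?_ ?_ ?_ ?_
    · rw [hyd, swp_ne x (t := c') (by omega) (by omega),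
        swp_ne x (t := b + 1 - 1) (by omega) (by omega), show b + 1 - 1 = b by omega]
      exact k1
    · rw [hyd, swp_ne x (t := c') (by omega) (by omega),
        swp_ne x (t := b + 1 + 1) (by omega) (by omega)]
      exact k2
    · rw [hyd, swp_ne x (t := b + 1) (by omega) (by omega),
        swp_ne x (t := c' - 1) (by omega) (by omega)]
      exact k3
    · rw [hyd, swp_ne x (t := b + 1) (by omega) (by omega),
        swp_ne x (t := c' + 1) (by omega) (by omega)]
      exact k4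
  set w := swp y (b + 1) c' with hwd
  have hxR : ∀ t, x t ∉ R := fun t ht => (h.hR _).mp ht t rfl
  have hyR : ∀ t, y t ∉ R := by
    intro t
    simp only [hyd, swp]
    split_ifs <;> exact hxR _
  have hwR : ∀ t, w t ∉ R := by
    intro t
    simp only [hwd, swp]
    split_ifs <;> exact hyR _
  have e1 : w a = x a := by
    rw [hwd, swp_ne y (by omega) (by omega), hyd, swp_ne x (by omega) (by omega)]
  have e2 : w b = x b := by
    rw [hwd, swp_ne y (by omega) (by omega), hyd, swp_ne x (by omega) (by omega)]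
  have e3 : w (a + 1) = x c := by
    rw [hwd, swp_ne y (by omega) (by omega), hyd, swp_left]
  have e4 : w (b + 1) = x c' := by
    rw [hwd, swp_left, hyd, swp_ne x (by omega) (by omega)]
  have e5 : w 0 = x 0 := by
    rw [hwd, swp_ne y (by omega) (by omega), hyd, swp_ne x (by omega) (by omega)]
  have e6 : w (l - 1) = x (l - 1) := by
    rw [hwd, swp_ne y (by omega) (by omega), hyd, swp_ne x (by omega) (by omega)]
  have hfin := hw.cross (i := a) (j := b) (w := z) (w' := z') (D := R) (by omega) (by omega)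
    (fun t _ => hwR t) hz hz' hne (by rw [e1]; exact aadj) (by rw [e2]; exact badj)
    (by rw [e3]; exact cadj) (by rw [e4]; exact cadj')
  rw [e5, e6] at hfin
  exact h.cs.no_ext h.no _ hfin

theorem Ctx.fin [Fintype V] {l d N0 : ℕ} {x : ℕ → V} {R : Finset V} (h : Ctx G l d x R)
    {z z' : V} (hz : z ∈ R) (hz' : z' ∈ R) (hne : z ≠ z') {A C : Finset ℕ}
    (hA : ∀ a ∈ A, 2 ≤ a ∧ a + 5 ≤ l ∧ G.Adj (x a) z)
    (hC : ∀ c ∈ C, 2 ≤ c ∧ c + 5 ≤ l ∧ G.Adj (x c) z')
    (hAc : 12 ≤ A.card) (hCc : N0 + 40 ≤ C.card)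
    (hgood : ∀ a ∈ A, ∃ B : Finset ℕ, B.card ≤ N0 ∧ ∀ c ∈ C, c ∉ B →
      G.Adj (x c) (x a) ∧ G.Adj (x c) (x (a + 2)) ∧ G.Adj (x (a + 1)) (x (c - 1)) ∧
      G.Adj (x (a + 1)) (x (c + 1))) : False := by
  obtain ⟨a, ha⟩ : A.Nonempty := Finset.card_pos.mp (by omega)
  obtain ⟨b, hb, _, hL⟩ := exists_far (C := A) (B := ∅) (L := [a]) (by
    simp only [Finset.card_empty, List.length_cons, List.length_nil]; omega)
  rcases hL a (by simp) with h1 | h1
  · exact h.fin_aux hz hz' hne hA hC hCc hgood hb ha h1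
  · exact h.fin_aux hz hz' hne hA hC hCc hgood ha hb h1

end Pool.Agent.H34.OC
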