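import Pool.Agent.H34.OC.Chords
import Pool.Agent.H34.OC.FIN

/-!
# Case A2: the closing route is short and no path of the wrong parity exists
-/

set_option autoImplicit false

namespace Pool.Agent.H34.OC

variable {V : Type*} [DecidableEq V] {G : SimpleGraph V}

theorem Base.ea2 [Fintype V] {l d z0 s Q0 E : ℕ} {x : ℕ → V} {R Z F : Finset V}
    (h : Base G l d z0 x R Z F) (h1 : s < l) (h2 : l < s + E)
    (hE : 100 * (z0 + Q0 + 100) ≤ E) (hz0 : 1 ≤ z0) (hd : 100 * z0 * E ≤ d)
    (hno : ∀ p, p % 2 ≠ s % 2 → E ≤ p → p + Q0 ≤ l →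
      ¬ PIn G (x 0) (x s) p (img x 0 (l - 1))) : False := by
  classical
  have hl := h.ctx.cs.three
  have hodd := h.ctx.odd
  have hle := h.ctx.le
  have hll := h.ll
  have hps := h.ctx.cs.pseq (show l - 1 < l by omega)
  -- numerical facts
  have hd1 : 100 * E ≤ d := by nlinarith
  obtain ⟨P, hP⟩ : ∃ P, P = z0 * E := ⟨_, rfl⟩
  obtain ⟨Q, hQ⟩ : ∃ Q, Q = z0 * z0 := ⟨_, rfl⟩
  have hP1 : E ≤ P := by rw [hP]; nlinarith
  have hP2 : 100 * Q + 10000 * z0 ≤ P := by rw [hP, hQ]; nlinarith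
  have hP3 : 100 * P ≤ d := by rw [hP]; nlinarith
  -- (i)
  have H1 : ∀ i j, i < j → j ≤ s → (j - i) % 2 = 0 → Q0 ≤ j - i → j - i + E ≤ s + 1 →
      ¬ G.Adj (x i) (x j) := by
    intro i j hij hj hpar hq he hc
    exact hno _ (by omega) (by omega) (by omega) (hps.chord hij hj (by omega) hc)
  -- (ii)
  have H2 : ∀ i j, E ≤ i → i + E ≤ s → s < j → j < l → ¬ G.Adj (x i) (x j) := by
    intro i j hi1 hi2 hj1 hj2 hc
    have r1 := hps.over1 (s := s) (show i < s by omega) (by omega) (show j ≤ l - 1 by omega) hc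
    have r2 := h.ctx.cs.over2 (s := s) (by omega) (by omega) hj1 hj2 hc
    by_cases hp : (i + 1 + (j - s)) % 2 = s % 2
    · exact hno _ (by omega) (by omega) (by omega) r2
    · exact hno _ hp (by omega) (by omega) r1
  have hcp := card_par s
  have hOd : ∀ i, (par ((i + 1) % 2) s).card + 1 ≤ d ∧
      (i % 2 = 0 → (par ((i + 1) % 2) s).card + 2 ≤ d) := by
    intro i
    rcases Nat.mod_two_eq_zero_or_one i with hi | hi
    · have : (i + 1) % 2 = 1 := by omega
      rw [this]
      constructor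
      · omega
      · intro _; omega
    · have : (i + 1) % 2 = 0 := by omega
      rw [this]
      constructor
      · omega
      · intro h0; omega
  have hposle : ∀ i, E ≤ i → i + E ≤ s → ∀ j ∈ pos G (l - 1) x (x i), j ≤ s := by
    intro i hi1 hi2 j hj
    rw [mem_pos] at hj
    by_contra hc
    exact H2 i j hi1 hi2 (by omega) (by omega) hj.2.symm
  -- (iii)
  have H3 : ∀ i, 2 * E ≤ i → i + 2 * E ≤ s → x i ∉ F →
      (par ((i + 1) % 2) s \ pos G (l - 1) x (x i)).card ≤ z0 + 2 * Q0 := by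
    intro i hi1 hi2 hi
    have hsub : pos G (l - 1) x (x i) ⊆
        (par ((i + 1) % 2) s ∩ pos G (l - 1) x (x i)) ∪ Finset.Icc (i - Q0) (i + Q0) := by
      intro j hj
      have hjs := hposle i (by omega) (by omega) j hj
      rw [Finset.mem_union, Finset.mem_inter, mem_par, Finset.mem_Icc]
      by_cases hpar : j % 2 = (i + 1) % 2
      · exact Or.inl ⟨⟨hjs, hpar⟩, hj⟩
      · right
        rw [mem_pos] at hj
        rcases Nat.lt_trichotomy i j with hlt | heq | hgt
        · have := fun h5 h6 h7 => H1 i j hlt hjs h5 h6 h7 hj.2.symm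
          by_contra hcon
          exact this (by omega) (by omega) (by omega)
        · omega
        · have := fun h5 h6 h7 => H1 j i hgt (by omega) h5 h6 h7 hj.2
          by_contra hcon
          exact this (by omega) (by omega) (by omega)
    have h3 := (Finset.card_le_card hsub).trans (Finset.card_union_le _ _)
    rw [Nat.card_Icc] at h3
    have h4 := h.typ_deg hi
    have h5 := Finset.card_sdiff_add_card_inter (par ((i + 1) % 2) s) (pos G (l - 1) x (x i))
    have h6 := (hOd i).1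
    omega
  -- (iv)
  have H4 : ∀ i j, i < j → 3 * E ≤ i → j + 3 * E ≤ s → (j - i) % 2 = 0 →
      ¬ G.Adj (x i) (x j) := by
    intro i j hij hi hj hpar hc
    rcases Nat.lt_or_ge (j - i) Q0 with hq | hq
    · obtain ⟨t, ht1, ht2, ht3⟩ := h.typ_ex (i := j) (by omega)
      have hm := H3 t (by omega) (by omega) ht3
      have hex : ∃ k, k ≤ z0 + 2 * Q0 ∧
          G.Adj (x (t + (Q0 + 1 + Q0 % 2) + 2 * k)) (x t) := by
        by_contra hcon
        push Not at hcon
        have hsub : (Finset.range (z0 + 2 * Q0 + 1)).image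
            (fun k => t + (Q0 + 1 + Q0 % 2) + 2 * k) ⊆
            par ((t + 1) % 2) s \ pos G (l - 1) x (x t) := by
          intro u hu
          obtain ⟨k, hk, rfl⟩ := Finset.mem_image.mp hu
          rw [Finset.mem_range] at hk
          rw [Finset.mem_sdiff, mem_par, mem_pos]
          refine ⟨⟨by omega, by omega⟩, fun h7 => hcon k (by omega) h7.2⟩
        have h8 := Finset.card_le_card hsub
        rw [Finset.card_image_of_injective, Finset.card_range] at h8
        · omega
        · intro a b hab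
          simp only at hab
          omega
      obtain ⟨k, hk, hadj⟩ := hex
      have r := hps.chord2 (s := s) hij ht1 (show t < t + (Q0 + 1 + Q0 % 2) + 2 * k by omega)
        (by omega) (by omega) hc hadj.symm
      exact hno _ (by omega) (by omega) (by omega) r
    · exact H1 i j hij (by omega) hpar hq (by omega) hc
  -- (v)
  have H5 : ∀ a, 4 * E ≤ a → a + 4 * E ≤ s →
      pos G (l - 1) x (x a) ⊆ par ((a + 1) % 2) s := by
    intro a ha1 ha2 j hj
    have hjs := hposle a (by omega) (by omega) j hj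
    rw [mem_pos] at hj
    rw [mem_par]
    refine ⟨hjs, ?_⟩
    by_contra hpar
    rcases Nat.lt_trichotomy a j with hlt | heq | hgt
    · rcases Nat.lt_or_ge (j - a) Q0 with hq | hq
      · exact H4 a j hlt (by omega) (by omega) (by omega) hj.2.symm
      · exact H1 a j hlt hjs (by omega) hq (by omega) hj.2.symm
    · rw [← heq] at hj; exact hj.2.ne rfl
    · rcases Nat.lt_or_ge (a - j) Q0 with hq | hq
      · exact H4 j a hgt (by omega) (by omega) (by omega) hj.2
      · exact H1 j a hgt (by omega) (by omega) hq (by omega) hj.2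
  have H6 : ∀ a, 4 * E ≤ a → a + 4 * E ≤ s → x a ∉ F →
      (par ((a + 1) % 2) s \ pos G (l - 1) x (x a)).card ≤ z0 := by
    intro a ha1 ha2 ha3
    have h3 := Finset.card_sdiff_add_card_inter (par ((a + 1) % 2) s) (pos G (l - 1) x (x a))
    rw [Finset.inter_eq_right.mpr (H5 a ha1 ha2)] at h3
    have h4 := h.typ_deg ha3
    have h5 := (hOd a).1
    omega
  have H7 : ∀ a, 4 * E ≤ a → a + 4 * E ≤ s →
      1 ≤ dg G R (x a) ∧ (a % 2 = 0 → 2 ≤ dg G R (x a)) := by
    intro a ha1 ha2
    have h3 := h.ctx.split (x a)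
    rw [← hps.card_pos] at h3
    have h4 := Finset.card_le_card (H5 a ha1 ha2)
    have h5 := hOd a
    exact ⟨by omega, fun h0 => by have := h5.2 h0; omega⟩
  -- (vi)
  obtain ⟨S1, hS1c, hS1⟩ := h.typ_set (4 * E + 1) 2 (15 * z0) 2 (by omega) (by omega)
  obtain ⟨z, hzZ, hzR, A, hAS, hAc, hA⟩ := pigeon (x := x) (K := 11) (S := S1) h.Zc (by omega)
    (fun v => v ∈ R) (by
      intro a ha
      obtain ⟨⟨k, hk, rfl⟩, hF⟩ := hS1 a ha
      have h3 := (H7 (4 * E + 1 + 2 * k) (by omega) (by omega)).1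
      obtain ⟨v, hv⟩ := Finset.card_pos.mp (show 0 < (nb G R (x (4 * E + 1 + 2 * k))).card from h3)
      exact ⟨v, h.typ _ (hF 0 (by omega)) hv, (mem_nb.mp hv).1, (mem_nb.mp hv).2⟩)
  have hK2 : 2 * (z0 * (4 * z0 + 60)) = 8 * Q + 120 * z0 := by rw [hQ]; ring
  obtain ⟨S2, hS2c, hS2⟩ := h.typ_set (4 * E + 4 * E % 2) 2 (z0 * (4 * z0 + 60)) 0 (by omega) (by omega)
  have hK3 : z0 * (4 * z0 + 4 + 39) + 17 * z0 = z0 * (4 * z0 + 60) := by ring
  obtain ⟨z', hzZ', ⟨hzR', hzz'⟩, C, hCS, hCc, hC⟩ := pigeon (x := x) (K := 4 * z0 + 4 + 39)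
    (S := S2) h.Zc (by omega)
    (fun v => v ∈ R ∧ v ≠ z) (by
      intro a ha
      obtain ⟨⟨k, hk, rfl⟩, hF⟩ := hS2 a ha
      have h3 := (H7 (4 * E + 4 * E % 2 + 2 * k) (by omega) (by omega)).2 (by omega)
      obtain ⟨v, hv, hvz⟩ := Finset.exists_mem_ne
        (show 1 < (nb G R (x (4 * E + 4 * E % 2 + 2 * k))).card from h3) z
      exact ⟨v, h.typ _ (hF 0 (by omega)) hv, ⟨(mem_nb.mp hv).1, hvz⟩, (mem_nb.mp hv).2⟩)
  refine h.ctx.fin (N0 := 4 * z0 + 4) hzR hzR' hzz'.symm (A := A) (C := C) ?_ ?_ (by omega)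
    (by omega) ?_
  · intro a ha
    obtain ⟨⟨k, hk, he⟩, _⟩ := hS1 a (hAS ha)
    exact ⟨by omega, by omega, hA a ha⟩
  · intro c hc
    obtain ⟨⟨k, hk, he⟩, _⟩ := hS2 c (hCS hc)
    exact ⟨by omega, by omega, hC c hc⟩
  · intro a ha
    obtain ⟨⟨k, hk, he⟩, hF⟩ := hS1 a (hAS ha)
    have hMi0 := H6 a (by omega) (by omega) (hF 0 (by omega))
    have hMi1 := H6 (a + 1) (by omega) (by omega) (hF 1 (by omega))
    have hMi2 := H6 (a + 2) (by omega) (by omega) (hF 2 (by omega))
    have e0 : (a + 1) % 2 = 0 := by omega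
    have e1 : (a + 1 + 1) % 2 = 1 := by omega
    have e2 : (a + 2 + 1) % 2 = 0 := by omega
    rw [e0] at hMi0
    rw [e1] at hMi1
    rw [e2] at hMi2
    refine ⟨(par 0 s \ pos G (l - 1) x (x a)) ∪ (par 0 s \ pos G (l - 1) x (x (a + 2))) ∪
      ((par 1 s \ pos G (l - 1) x (x (a + 1))).image (· + 1)) ∪
      ((par 1 s \ pos G (l - 1) x (x (a + 1))).image (· - 1)), ?_, ?_⟩
    · have c1 := Finset.card_union_le ((par 0 s \ pos G (l - 1) x (x a)) ∪
        (par 0 s \ pos G (l - 1) x (x (a + 2))) ∪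
        ((par 1 s \ pos G (l - 1) x (x (a + 1))).image (· + 1)))
        ((par 1 s \ pos G (l - 1) x (x (a + 1))).image (· - 1))
      have c2 := Finset.card_union_le ((par 0 s \ pos G (l - 1) x (x a)) ∪
        (par 0 s \ pos G (l - 1) x (x (a + 2))))
        ((par 1 s \ pos G (l - 1) x (x (a + 1))).image (· + 1))
      have c3 := Finset.card_union_le (par 0 s \ pos G (l - 1) x (x a))
        (par 0 s \ pos G (l - 1) x (x (a + 2)))
      have c4 := Finset.card_image_le (s := par 1 s \ pos G (l - 1) x (x (a + 1))) (f := (· + 1))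
      have c5 := Finset.card_image_le (s := par 1 s \ pos G (l - 1) x (x (a + 1))) (f := (· - 1))
      omega
    · intro c hc hcB
      obtain ⟨⟨k', hk', he'⟩, _⟩ := hS2 c (hCS hc)
      simp only [Finset.mem_union, not_or] at hcB
      obtain ⟨⟨⟨hb1, hb2⟩, hb3⟩, hb4⟩ := hcB
      refine ⟨?_, ?_, ?_, ?_⟩
      · by_contra hcon
        apply hb1
        rw [Finset.mem_sdiff, mem_par, mem_pos]
        exact ⟨⟨by omega, by omega⟩, fun h7 => hcon h7.2⟩
      · by_contra hcon
        apply hb2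
        rw [Finset.mem_sdiff, mem_par, mem_pos]
        exact ⟨⟨by omega, by omega⟩, fun h7 => hcon h7.2⟩
      · by_contra hcon
        apply hb3
        rw [Finset.mem_image]
        refine ⟨c - 1, ?_, by omega⟩
        rw [Finset.mem_sdiff, mem_par, mem_pos]
        exact ⟨⟨by omega, by omega⟩, fun h7 => hcon h7.2.symm⟩
      · by_contra hcon
        apply hb4
        rw [Finset.mem_image]
        refine ⟨c + 1, ?_, by omega⟩
        rw [Finset.mem_sdiff, mem_par, mem_pos]
        exact ⟨⟨by omega, by omega⟩, fun h7 => hcon h7.2.symm⟩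

end Pool.Agent.H34.OC
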