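import Pool.Agent.H34.OC.PX

/-!
# Two disjoint paths of bounded length
-/

set_option autoImplicit false

namespace Pool.Agent.H34.OC

variable {V : Type*} [DecidableEq V] {G : SimpleGraph V}

/-- concatenation at a common vertex -/
theorem Pth.append {a b c : V} {m m' : ℕ} {S S' : Finset V} (h : Pth G a b m S)
    (h' : Pth G b c m' S') (hd : ∀ v ∈ S, v ∈ S' → v = b) : Pth G a c (m + m') (S ∪ S') := by
  induction h with
  | nil a =>
    refine h'.congr rfl rfl (by omega) ?_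
    have := h'.left_mem
    ext v; simp only [Finset.mem_union, Finset.mem_singleton]
    constructor
    · intro hv; exact Or.inr hv
    · rintro (rfl | hv)
      · exact this
      · exact hv
  | @cons a b' c' m S h p ha ih =>
    have h1 := ih h' (fun v hv hv' => hd v (Finset.mem_insert_of_mem hv) hv')
    have ha' : a ∉ S ∪ S' := by
      rw [Finset.mem_union]; rintro (h2 | h2)
      · exact ha h2
      · have := hd a (Finset.mem_insert_self _ _) h2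
        subst this
        exact ha p.right_mem
    have h2 := Pth.cons h h1 ha'
    refine h2.congr rfl rfl (by omega) ?_
    ext v; simp

/-- the first vertex of a path in a given set -/
theorem Pth.firstHit {a b : V} {m : ℕ} {S : Finset V} (h : Pth G a b m S) (F : Set V)
    (hF : ∃ v ∈ S, v ∈ F) :
    ∃ y ∈ F, ∃ m1 S1, m1 ≤ m ∧ S1 ⊆ S ∧ Pth G a y m1 S1 ∧ (∀ v ∈ S1, v ∈ F → v = y) ∧
      (y ≠ b → b ∉ S1) := by
  induction h with
  | nil a =>
    obtain ⟨v, hv, hvF⟩ := hF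
    rw [Finset.mem_singleton] at hv
    subst hv
    exact ⟨v, hvF, 0, {v}, le_rfl, subset_rfl, Pth.nil v, by simp, by simp⟩
  | @cons a b' c' m S h p ha ih =>
    by_cases haF : a ∈ F
    · refine ⟨a, haF, 0, {a}, by omega, by simp, Pth.nil a, by simp, ?_⟩
      intro hne; rw [Finset.mem_singleton]; exact fun h => hne h.symm
    · obtain ⟨v, hv, hvF⟩ := hF
      rw [Finset.mem_insert] at hv
      rcases hv with rfl | hv
      · exact absurd hvF haF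
      · obtain ⟨y, hy, m1, S1, h1, h2, h3, h4, h5⟩ := ih ⟨v, hv, hvF⟩
        refine ⟨y, hy, m1 + 1, insert a S1, by omega, Finset.insert_subset_insert _ h2,
          Pth.cons h h3 (fun h6 => ha (h2 h6)), ?_, ?_⟩
        · intro u hu huF
          rw [Finset.mem_insert] at hu
          rcases hu with rfl | hu
          · exact absurd huF haF
          · exact h4 u hu huF
        · intro hne
          rw [Finset.mem_insert]
          rintro (h6 | h6)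
          · exact ha (h6 ▸ p.right_mem)
          · exact h5 hne h6

/-- two paths from `a` and `b` to `p`, meeting only in `p` -/
def Fan (G : SimpleGraph V) (a b p : V) (L : ℕ) : Prop :=
  ∃ mA mB SA SB, Pth G a p mA SA ∧ Pth G b p mB SB ∧ (∀ v ∈ SA, v ∈ SB → v = p) ∧ mA + mB ≤ L

/-- bounded connectivity after deleting one vertex -/
def BConn (G : SimpleGraph V) (L : ℕ) : Prop :=
  ∀ v a b, a ≠ v → b ≠ v → ∃ m S, m ≤ L ∧ Pth G a b m S ∧ v ∉ S

theorem Fan.swap {a b p : V} {L : ℕ} (h : Fan G a b p L) : Fan G b a p L := by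
  obtain ⟨mA, mB, SA, SB, h1, h2, h3, h4⟩ := h
  exact ⟨mB, mA, SB, SA, h2, h1, fun v hv hv' => h3 v hv' hv, by omega⟩

theorem Fan.step {a b p q : V} {L Λ : ℕ} (h : Fan G a b p L) (hab : a ≠ b) (hpq : G.Adj p q)
    (hc : BConn G Λ) : Fan G a b q (L + Λ + 1) := by
  obtain ⟨mA, mB, SA, SB, hA, hB, hAB, hL⟩ := h
  obtain ⟨s, hs, hsp⟩ : ∃ s, (s ∈ SA ∨ s ∈ SB) ∧ s ≠ p := by
    by_cases hap : a = p
    · refine ⟨b, Or.inr hB.left_mem, ?_⟩
      rintro rfl; exact hab hap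
    · exact ⟨a, Or.inl hA.left_mem, hap⟩
  obtain ⟨mD, SD, hmD, hD, hpD⟩ := hc p q s hpq.ne' hsp
  obtain ⟨y, hy, m1, S1, hm1, hS1, hD1, hD2, _⟩ := hD.firstHit {v | v ∈ SA ∨ v ∈ SB}
    ⟨s, hD.right_mem, hs⟩
  have hpS1 : p ∉ S1 := fun h => hpD (hS1 h)
  have hyp : y ≠ p := by rintro rfl; exact hpS1 hD1.right_mem
  -- the main construction, for `y` on the first path
  have key : ∀ (a b : V) (mA mB : ℕ) (SA SB : Finset V), Pth G a p mA SA → Pth G b p mB SB →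
      (∀ v ∈ SA, v ∈ SB → v = p) → mA + mB ≤ L → y ∈ SA → (∀ v ∈ S1, v ∈ SA ∨ v ∈ SB → v = y) →
      Fan G a b q (L + Λ + 1) := by
    intro a b mA mB SA SB hA hB hAB hL hyA hD2
    obtain ⟨y', hy', m2, S2, hm2, hS2, hA1, hA2, hA3⟩ := hA.firstHit {v | v = y} ⟨y, hyA, rfl⟩
    have hy'' : y' = y := hy'
    subst hy''
    have hpS2 : p ∉ S2 := hA3 hyp
    have hqB : q ∉ SB := by
      intro hq
      have := hD2 q hD1.left_mem (Or.inr hq)
      subst this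
      exact hyp (hAB q hyA hq)
    have hA' := hA1.append hD1.rev (by
      intro v hv hv'
      exact hD2 v hv' (Or.inl (hS2 hv)))
    have hB' := hB.join hpq (Pth.nil q) (by
      rw [Finset.disjoint_singleton_right]; exact hqB)
    refine ⟨_, _, _, _, hA', hB', ?_, by omega⟩
    intro v hv hv'
    simp only [Finset.mem_union, Finset.mem_singleton] at hv hv'
    rcases hv' with hv' | rfl
    · exfalso
      rcases hv with hv | hv
      · have := hAB v (hS2 hv) hv'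
        subst this; exact hpS2 hv
      · have := hD2 v hv (Or.inr hv')
        subst this
        exact hyp (hAB _ hyA hv')
    · rfl
  rcases hy with hyA | hyB
  · exact key a b mA mB SA SB hA hB hAB hL hyA hD2
  · exact (key b a mB mA SB SA hB hA (fun v hv hv' => hAB v hv' hv) (by omega) hyB
      (fun v hv hv' => hD2 v hv (Or.symm hv'))).swap

theorem Fan.along {a b p t : V} {L Λ m : ℕ} {S : Finset V} (hP : Pth G p t m S)
    (h : Fan G a b p L) (hab : a ≠ b) (hc : BConn G Λ) : Fan G a b t (L + m * (Λ + 1)) := by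
  induction hP generalizing L with
  | nil p =>
    obtain ⟨mA, mB, SA, SB, h1, h2, h3, h4⟩ := h
    exact ⟨mA, mB, SA, SB, h1, h2, h3, by omega⟩
  | @cons p q t m S hpq hp hS ih =>
    obtain ⟨mA, mB, SA, SB, h1, h2, h3, h4⟩ := ih (h.step hab hpq hc)
    refine ⟨mA, mB, SA, SB, h1, h2, h3, ?_⟩
    have : (m + 1) * (Λ + 1) = m * (Λ + 1) + Λ + 1 := by ring
    omega

/-- at least three vertices -/
def Three (V : Type*) : Prop := ∀ a b : V, ∃ v, v ≠ a ∧ v ≠ b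

theorem BConn.path {Λ : ℕ} (hc : BConn G Λ) (h3 : Three V) (a b : V) :
    ∃ m S, m ≤ Λ ∧ Pth G a b m S := by
  obtain ⟨v, h1, h2⟩ := h3 a b
  obtain ⟨m, S, hm, hp, _⟩ := hc v a b h1.symm h2.symm
  exact ⟨m, S, hm, hp⟩

/-- Two disjoint paths between two pairs of vertices. -/
theorem two_paths {Λ : ℕ} (hc : BConn G Λ) (h3 : Three V) {a b t t' : V} (hab : a ≠ b)
    (htt : t ≠ t') :
    ∃ m1 m2 S1 S2, ((Pth G a t' m1 S1 ∧ Pth G b t m2 S2) ∨ (Pth G b t' m1 S1 ∧ Pth G a t m2 S2)) ∧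
      Disjoint S1 S2 ∧ m1 + m2 ≤ (Λ + 2) ^ 2 := by
  obtain ⟨m, S, hm, hP⟩ := hc.path h3 a t
  -- initial fan at a
  have hfan : Fan G a b a Λ := by
    obtain ⟨m', S', hm', hP'⟩ := hc.path h3 b a
    refine ⟨0, m', {a}, S', Pth.nil a, hP', ?_, by omega⟩
    intro v hv _; simpa using hv
  obtain ⟨mA, mB, SA, SB, hA, hB, hAB, hL⟩ := Fan.along hP hfan hab hc
  have hL' : mA + mB + Λ ≤ (Λ + 2) ^ 2 := by
    have h1 : m * (Λ + 1) ≤ Λ * (Λ + 1) := Nat.mul_le_mul_right _ hm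
    nlinarith
  obtain ⟨s, hs, hsp⟩ : ∃ s, (s ∈ SA ∨ s ∈ SB) ∧ s ≠ t := by
    by_cases hap : a = t
    · refine ⟨b, Or.inr hB.left_mem, ?_⟩
      rintro rfl; exact hab hap
    · exact ⟨a, Or.inl hA.left_mem, hap⟩
  obtain ⟨mD, SD, hmD, hD, hpD⟩ := hc t t' s htt.symm hsp
  obtain ⟨y, hy, m1, S1, hm1, hS1, hD1, hD2, _⟩ := hD.firstHit {v | v ∈ SA ∨ v ∈ SB}
    ⟨s, hD.right_mem, hs⟩
  have hpS1 : t ∉ S1 := fun h => hpD (hS1 h)
  have hyp : y ≠ t := by rintro rfl; exact hpS1 hD1.right_mem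
  have key : ∀ (a b : V) (mA mB : ℕ) (SA SB : Finset V), Pth G a t mA SA → Pth G b t mB SB →
      (∀ v ∈ SA, v ∈ SB → v = t) → mA + mB + Λ ≤ (Λ + 2) ^ 2 → y ∈ SA →
      (∀ v ∈ S1, v ∈ SA ∨ v ∈ SB → v = y) →
      ∃ m1 m2 S1 S2, (Pth G a t' m1 S1 ∧ Pth G b t m2 S2) ∧
      Disjoint S1 S2 ∧ m1 + m2 ≤ (Λ + 2) ^ 2 := by
    intro a b mA mB SA SB hA hB hAB hL hyA hD2
    obtain ⟨y', hy', m2, S2, hm2, hS2, hA1, hA2, hA3⟩ := hA.firstHit {v | v = y} ⟨y, hyA, rfl⟩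
    have hy'' : y' = y := hy'
    subst hy''
    have hpS2 : t ∉ S2 := hA3 hyp
    have hA' := hA1.append hD1.rev (by
      intro v hv hv'
      exact hD2 v hv' (Or.inl (hS2 hv)))
    refine ⟨_, _, _, _, ⟨hA', hB⟩, ?_, by omega⟩
    rw [Finset.disjoint_left]
    intro v hv hv'
    rw [Finset.mem_union] at hv
    rcases hv with hv | hv
    · have := hAB v (hS2 hv) hv'
      subst this; exact hpS2 hv
    · have := hD2 v hv (Or.inr hv')
      subst this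
      exact hyp (hAB _ hyA hv')
  rcases hy with hyA | hyB
  · obtain ⟨m1, m2, S1, S2, h1, h2, h3⟩ := key a b mA mB SA SB hA hB hAB hL' hyA hD2
    exact ⟨m1, m2, S1, S2, Or.inl h1, h2, h3⟩
  · obtain ⟨m1, m2, S1, S2, h1, h2, h3⟩ := key b a mB mA SB SA hB hA
      (fun v hv hv' => hAB v hv' hv) (by omega) hyB (fun v hv hv' => hD2 v hv (Or.symm hv'))
    exact ⟨m1, m2, S1, S2, Or.inr h1, h2, h3⟩

/-- trimming a path from `S` to `T` -/
theorem Pth.trim {a b : V} {m : ℕ} {P S T : Finset V} (h : Pth G a b m P) (ha : a ∈ S)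
    (hb : b ∈ T) : ∃ s ∈ S, ∃ t ∈ T, ∃ m' P', m' ≤ m ∧ P' ⊆ P ∧ Pth G s t m' P' ∧
      (∀ v ∈ P', v ∈ S → v = s) ∧ (∀ v ∈ P', v ∈ T → v = t) := by
  obtain ⟨t, ht, m1, P1, hm1, hP1, h1, h2, _⟩ := h.firstHit {v | v ∈ T} ⟨b, h.right_mem, hb⟩
  obtain ⟨s, hs, m2, P2, hm2, hP2, h3, h4, _⟩ := h1.rev.firstHit {v | v ∈ S} ⟨a, h1.left_mem, ha⟩
  exact ⟨s, hs, t, ht, m2, P2, by omega, hP2.trans hP1, h3.rev, fun v hv hvS => h4 v hv hvS,
    fun v hv hvT => h2 v (hP2 hv) hvT⟩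

/-- Two disjoint trimmed paths between two sets with at least two elements. -/
theorem two_paths_sets {Λ : ℕ} (hc : BConn G Λ) (h3 : Three V) {S T : Finset V} {a b t t' : V}
    (ha : a ∈ S) (hb : b ∈ S) (ht : t ∈ T) (ht' : t' ∈ T) (hab : a ≠ b) (htt : t ≠ t') :
    ∃ s1 ∈ S, ∃ s2 ∈ S, ∃ t1 ∈ T, ∃ t2 ∈ T, ∃ m1 m2 P1 P2, Pth G s1 t1 m1 P1 ∧
      Pth G s2 t2 m2 P2 ∧ Disjoint P1 P2 ∧ m1 + m2 ≤ (Λ + 2) ^ 2 ∧
      (∀ v ∈ P1, v ∈ S → v = s1) ∧ (∀ v ∈ P1, v ∈ T → v = t1) ∧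
      (∀ v ∈ P2, v ∈ S → v = s2) ∧ (∀ v ∈ P2, v ∈ T → v = t2) := by
  obtain ⟨m1, m2, S1, S2, h1, h2, h3⟩ := two_paths hc h3 hab htt
  obtain ⟨a1, b1, u1, u2, ha1, hb1, hu1, hu2, hp1, hp2⟩ : ∃ a1 b1 u1 u2, a1 ∈ S ∧ b1 ∈ S ∧
      u1 ∈ T ∧ u2 ∈ T ∧ Pth G a1 u1 m1 S1 ∧ Pth G b1 u2 m2 S2 := by
    rcases h1 with h1 | h1
    · exact ⟨a, b, t', t, ha, hb, ht', ht, h1.1, h1.2⟩
    · exact ⟨b, a, t', t, hb, ha, ht', ht, h1.1, h1.2⟩
  obtain ⟨s1, hs1, t1, ht1, m1', P1, e1, e2, e3, e4, e5⟩ := hp1.trim ha1 hu1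
  obtain ⟨s2, hs2, t2, ht2, m2', P2, f1, f2, f3, f4, f5⟩ := hp2.trim hb1 hu2
  exact ⟨s1, hs1, s2, hs2, t1, ht1, t2, ht2, m1', m2', P1, P2, e3, f3,
    Finset.disjoint_of_subset_left e2 (Finset.disjoint_of_subset_right f2 h2), by omega,
    e4, e5, f4, f5⟩

end Pool.Agent.H34.OC
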