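import Pool.Agent.H34.OC.LE
import Pool.Agent.H34.OC.Menger

/-!
# The ear lemma
-/

set_option autoImplicit false

namespace Pool.Agent.H34.OC

variable {V : Type*} [DecidableEq V] {G : SimpleGraph V}

theorem Pth.last {a b : V} {m : ℕ} {S : Finset V} (h : Pth G a b m S) (hab : a ≠ b) :
    ∃ c k S', m = k + 1 ∧ Pth G a c k S' ∧ G.Adj b c ∧ b ∉ S' ∧ S' ⊆ S := by
  have h' := h.rev
  cases h' with
  | nil => exact absurd rfl hab
  | @cons _ c _ k S' hadj p hb =>
    exact ⟨c, k, S', rfl, p.rev, hadj, hb, Finset.subset_insert _ _⟩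

/-- all lengths between two vertices of a set in which any two vertices have many common
neighbours -/
theorem all_paths {N d e r J m1 b μ0 : ℕ} (hn : Num N d e r J m1 b μ0) {U : Finset V} {δ : ℕ}
    (hUN : U.card ≤ N) (hU : ∀ v ∈ U, δ ≤ dg G U v) (hδ : d ≤ 2 * (δ - 1))
    (hcom : ∀ v ∈ U, ∀ v' ∈ U, v ≠ v' → Bd r J + 1 ≤ (nb G U v ∩ nb G U v').card)
    {a c : V} (hac : a ≠ c) (ha : a ∈ U) (hc : c ∈ U) {m : ℕ} (hm : 2 ≤ m) (hmδ : m + e ≤ δ) :
    PIn G a c m U := by
  classical
  have hb := hn.big'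
  have he := hn.epos
  rcases Nat.mod_two_eq_zero_or_one m with hp | hp
  · have := even_paths hn hUN hU (by omega) hac ha hc (by
      have := hcom a ha c hc hac; omega) (m / 2) (by omega) (by omega)
    exact this.congr rfl rfl (by omega) subset_rfl
  · obtain ⟨w, hw, hwc⟩ : ∃ w ∈ nb G U a, w ≠ c := by
      by_contra hcon
      push Not at hcon
      have h1 : nb G U a ⊆ {c} := fun v hv => by
        rw [Finset.mem_singleton]; exact hcon v hv
      have h2 := Finset.card_le_card h1
      rw [Finset.card_singleton] at h2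
      have h3 := hU a ha
      unfold dg at h3
      omega
    rw [mem_nb] at hw
    have hsub : U \ {a} ⊆ U := Finset.sdiff_subset
    have h1 := even_paths (G := G) hn (U := U \ {a}) (δ := δ - 1)
      ((Finset.card_le_card hsub).trans hUN) (by
        intro v hv
        have h2 := hU v (hsub hv)
        have h3 := dg_sdiff_ge (G := G) U {a} v
        rw [Finset.card_singleton] at h3
        omega) hδ hwc (by
        rw [Finset.mem_sdiff, Finset.mem_singleton]; exact ⟨hw.1, hw.2.ne.symm⟩) (by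
        rw [Finset.mem_sdiff, Finset.mem_singleton]; exact ⟨hc, hac.symm⟩) (by
        have h2 := hcom w hw.1 c hc hwc
        have h3 : (nb G U w ∩ nb G U c) \ {a} ⊆ nb G (U \ {a}) w ∩ nb G (U \ {a}) c := by
          intro v hv
          rw [Finset.mem_sdiff, Finset.mem_inter, mem_nb, mem_nb, Finset.mem_singleton] at hv
          rw [Finset.mem_inter, mem_nb, mem_nb, Finset.mem_sdiff, Finset.mem_singleton]
          exact ⟨⟨⟨hv.1.1.1, hv.2⟩, hv.1.1.2⟩, ⟨⟨hv.1.1.1, hv.2⟩, hv.1.2.2⟩⟩
        have h4 := Finset.card_le_card h3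
        have h5 := Finset.le_card_sdiff {a} (nb G U w ∩ nb G U c)
        rw [Finset.card_singleton] at h5
        omega) (m / 2) (by omega) (by omega)
    have h2 := (PIn.single a).join hw.2 h1 (by
      rw [Finset.disjoint_singleton_left, Finset.mem_sdiff]; simp)
    refine h2.congr rfl rfl (by omega) ?_
    intro v hv
    rw [Finset.mem_union, Finset.mem_singleton] at hv
    rcases hv with rfl | hv
    · exact ha
    · exact hsub hv

/-- paths of all lengths in a nearly closed small set -/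
theorem closed_paths {N d e r J m1 b μ0 : ℕ} (hn : Num N d e r J m1 b μ0) {U : Finset V} {δ : ℕ}
    (hUN : U.card ≤ N) (hU : ∀ v ∈ U, δ ≤ dg G U v) (hδ : d + 8 * e ≤ 2 * δ) {M : ℕ} {y : ℕ → V}
    (hy : PSeq G M y) (hyU : ∀ t, t ≤ M → y t ∈ U) (hMδ : δ ≤ M + e) (hM : M + 2 + 8 * e ≤ 2 * δ)
    (hsum : ∑ i ∈ Finset.range (M + 1), dg G (U \ img y 0 M) (y i) ≤ e ^ 2) :
    ∃ c0, c0 ≤ 2 * e ∧ ∀ m, 2 ≤ m → m + 3 * e ≤ δ → PIn G (y 0) (y M) (c0 + m) U := by
  classical
  have hb := hn.big'
  have he := hn.epos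
  have hBd : Bd r J + 2 < e := by
    by_contra hcon
    push Not at hcon
    have h5 := hn.w5
    have h6 : r * e ≤ r ^ 2 * (Bd r J + 2) := by
      rcases Nat.eq_zero_or_pos r with h0 | h0
      · subst h0; simp
      · calc r * e ≤ r * (Bd r J + 2) := Nat.mul_le_mul_left _ hcon
          _ ≤ r * (r * (Bd r J + 2)) := Nat.mul_le_mul_left _ (Nat.le_mul_of_pos_left _ h0)
          _ = r ^ 2 * (Bd r J + 2) := by ring
    omega
  set Q := img y 0 M with hQ
  have hQc : Q.card = M + 1 := by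
    have := (hy.seg (Nat.zero_le M) le_rfl).card
    simpa using this
  have hQU : Q ⊆ U := by
    intro v hv; obtain ⟨t, _, ht, rfl⟩ := mem_img.mp hv; exact hyU t ht
  set Ty := Q.filter (fun v => dg G (U \ Q) v ≤ e) with hTy
  have hTyQ : Ty ⊆ Q := Finset.filter_subset _ _
  have hTyU : Ty ⊆ U := hTyQ.trans hQU
  have hbad : (Q \ Ty).card ≤ e := by
    have h3 : ∑ _w ∈ Q \ Ty, (e + 1) ≤ ∑ w ∈ Q \ Ty, dg G (U \ Q) w := by
      refine Finset.sum_le_sum ?_
      intro w hw
      rw [Finset.mem_sdiff, hTy, Finset.mem_filter] at hw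
      push Not at hw
      exact hw.2 hw.1
    have h4 : ∑ w ∈ Q \ Ty, dg G (U \ Q) w ≤ ∑ w ∈ Q, dg G (U \ Q) w :=
      Finset.sum_le_sum_of_subset Finset.sdiff_subset
    have h7 : ∑ v ∈ Q, dg G (U \ Q) v = ∑ i ∈ Finset.range (M + 1), dg G (U \ Q) (y i) := by
      conv_lhs => rw [hQ]
      unfold img
      rw [Finset.sum_image]
      · refine Finset.sum_congr ?_ (fun _ _ => rfl)
        ext t; simp only [Finset.mem_Icc, Finset.mem_range]; omega
      · intro i hi j hj hij
        rw [Finset.mem_coe, Finset.mem_Icc] at hi hj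
        exact hy.inj i j hi.2 hj.2 hij
    rw [Finset.sum_const, smul_eq_mul] at h3
    by_contra hcon
    push Not at hcon
    have h5 : (e + 1) * (e + 1) ≤ (Q \ Ty).card * (e + 1) :=
      Nat.mul_le_mul_right _ hcon
    have h6 : (e + 1) * (e + 1) = e ^ 2 + 2 * e + 1 := by ring
    omega
  have hTyc : M + 1 ≤ Ty.card + e := by
    have := Finset.card_sdiff_add_card_eq_card hTyQ
    omega
  have hTydeg : ∀ v ∈ Ty, δ - 2 * e ≤ dg G Ty v := by
    intro v hv
    have h1 := hU v (hTyU hv)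
    have h2 : dg G (U \ Q) v ≤ e := (Finset.mem_filter.mp hv).2
    have h3 : dg G U v ≤ dg G Q v + dg G (U \ Q) v := by
      have := dg_union_le (G := G) Q (U \ Q) v
      rwa [Finset.union_sdiff_of_subset hQU] at this
    have h4 : dg G Q v ≤ dg G Ty v + dg G (Q \ Ty) v := by
      have := dg_union_le (G := G) Ty (Q \ Ty) v
      rwa [Finset.union_sdiff_of_subset hTyQ] at this
    have h5 := dg_le (G := G) (Q \ Ty) v
    omega
  have hTyM : Ty.card ≤ M + 1 := by rw [← hQc]; exact Finset.card_le_card hTyQ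
  have hcom : ∀ v ∈ Ty, ∀ v' ∈ Ty, v ≠ v' →
      Bd r J + 1 ≤ (nb G Ty v ∩ nb G Ty v').card := by
    intro v hv v' hv' _
    have h1 := hTydeg v hv
    have h2 := hTydeg v' hv'
    have h3 := Finset.card_union_add_card_inter (nb G Ty v) (nb G Ty v')
    have h4 : (nb G Ty v ∪ nb G Ty v').card ≤ Ty.card :=
      Finset.card_le_card (Finset.union_subset (nb_subset _ _) (nb_subset _ _))
    unfold dg at h1 h2
    omega
  -- first and last typical positions
  have hex : ∃ i, i ≤ M ∧ y i ∈ Ty := by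
    obtain ⟨v, hv⟩ : Ty.Nonempty := by rw [← Finset.card_pos]; omega
    obtain ⟨t, _, ht, rfl⟩ := mem_img.mp (hTyQ hv)
    exact ⟨t, ht, hv⟩
  have hex2 : ∃ i, i ≤ M ∧ y (M - i) ∈ Ty := by
    obtain ⟨i, hi, hiT⟩ := hex
    refine ⟨M - i, by omega, ?_⟩
    have : M - (M - i) = i := by omega
    rw [this]; exact hiT
  set i0 := Nat.find hex with hi0
  set i1 := Nat.find hex2 with hi1
  obtain ⟨hi0M, hi0T⟩ := Nat.find_spec hex
  obtain ⟨hi1M, hi1T⟩ := Nat.find_spec hex2
  rw [← hi0] at hi0M hi0T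
  rw [← hi1] at hi1M hi1T
  have hbefore : ∀ i, i < i0 → y i ∉ Ty := by
    intro i hi h
    exact Nat.find_min hex hi ⟨by omega, h⟩
  have hafter : ∀ i, M - i1 < i → i ≤ M → y i ∉ Ty := by
    intro i hi hiM h
    refine Nat.find_min hex2 (m := M - i) (by omega) ⟨by omega, ?_⟩
    have : M - (M - i) = i := by omega
    rw [this]; exact h
  have hi0e : i0 ≤ e := by
    have h1 : (Finset.range i0).image y ⊆ Q \ Ty := by
      intro v hv
      obtain ⟨i, hi, rfl⟩ := Finset.mem_image.mp hv
      rw [Finset.mem_range] at hi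
      rw [Finset.mem_sdiff]
      exact ⟨mem_img_self (Nat.zero_le _) (by omega), hbefore i hi⟩
    have h2 := Finset.card_le_card h1
    rw [Finset.card_image_of_injOn, Finset.card_range] at h2
    · omega
    · intro i hi j hj hij
      rw [Finset.mem_coe, Finset.mem_range] at hi hj
      exact hy.inj i j (by omega) (by omega) hij
  have hi1e : i1 ≤ e := by
    have h1 : (Finset.Ioc (M - i1) M).image y ⊆ Q \ Ty := by
      intro v hv
      obtain ⟨i, hi, rfl⟩ := Finset.mem_image.mp hv
      rw [Finset.mem_Ioc] at hi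
      rw [Finset.mem_sdiff]
      exact ⟨mem_img_self (Nat.zero_le _) hi.2, hafter i hi.1 hi.2⟩
    have h2 := Finset.card_le_card h1
    rw [Finset.card_image_of_injOn, Nat.card_Ioc] at h2
    · omega
    · intro i hi j hj hij
      rw [Finset.mem_coe, Finset.mem_Ioc] at hi hj
      exact hy.inj i j hi.2 hj.2 hij
  refine ⟨i0 + i1, by omega, ?_⟩
  intro m hm hmδ
  have hne : y i0 ≠ y (M - i1) := by
    intro h
    have := hy.inj _ _ hi0M (by omega) h
    omega
  obtain ⟨S, hS, hp⟩ := all_paths (G := G) hn (U := Ty) (δ := δ - 2 * e)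
    ((Finset.card_le_card hTyU).trans hUN) hTydeg (by omega) hcom hne hi0T hi1T hm (by omega)
  have p1 := (hy.seg (Nat.zero_le i0) hi0M).append hp (by
    intro v hv hvS
    obtain ⟨t, _, ht, rfl⟩ := mem_img.mp hv
    rcases Nat.lt_or_ge t i0 with h | h
    · exact absurd (hS hvS) (hbefore t h)
    · have : t = i0 := by omega
      rw [this])
  have p2 := p1.append (hy.seg (show M - i1 ≤ M by omega) le_rfl) (by
    intro v hv hvS
    obtain ⟨t, ht1, ht2, rfl⟩ := mem_img.mp hvS
    rcases Nat.eq_or_lt_of_le ht1 with h | h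
    · rw [h]
    · exfalso
      rcases Finset.mem_union.mp hv with h1 | h1
      · obtain ⟨t', _, ht', he'⟩ := mem_img.mp h1
        have := hy.inj _ _ (by omega) ht2 he'
        omega
      · exact hafter t h ht2 (hS h1))
  refine ⟨_, ?_, p2.congr rfl rfl (by omega) rfl⟩
  intro v hv
  rw [Finset.mem_union, Finset.mem_union] at hv
  rcases hv with (hv | hv) | hv
  · obtain ⟨t, _, ht, rfl⟩ := mem_img.mp hv
    exact hyU t (by omega)
  · exact hTyU (hS hv)
  · obtain ⟨t, _, ht, rfl⟩ := mem_img.mp hv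
    exact hyU t (by omega)

end Pool.Agent.H34.OC
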