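import Pool.Agent.H34.OC.EAR

/-!
# The ear lemma (conclusion)
-/

set_option autoImplicit false

namespace Pool.Agent.H34.OC

variable {V : Type*} [DecidableEq V] {G : SimpleGraph V}

theorem Ctx.ear [Fintype V] {l d N e r J m1 b μ0 Λ L1 : ℕ} {x : ℕ → V} {R : Finset V}
    (h : Ctx G l d x R) (hn : Num N d e r J m1 b μ0) (hN : Fintype.card V ≤ N) (hl5 : 5 ≤ l)
    (hc : BConn G Λ) (h3 : Three V) (hL1 : L1 = (Λ + 2) ^ 2) (hL1e : L1 + 2 ≤ e)
    (hbig : N + r ^ 2 * (Bd r J + L1 + 2) < r * e) (hRc : e + 1 ≤ R.card) :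
    ∃ u v, u ∈ img x 0 (l - 1) ∧ v ∈ img x 0 (l - 1) ∧ u ≠ v ∧
      ((∃ q0, q0 ≤ L1 + 2 * J ∧ ∀ q, q % 2 = q0 % 2 → q0 ≤ q → q + 14 * e ≤ 2 * d →
          Ear G R u v q) ∨
        (∀ q, 14 * e ≤ q → q + 14 * e ≤ d → Ear G R u v q)) := by
  classical
  obtain ⟨hRe, hcore⟩ := h.core hn hN hl5
  have hb := hn.big'
  have he := hn.epos
  have hl := h.cs.three
  set C := Rc G l x R e with hC
  have hCR : C ⊆ R := Rc_sub
  have hCcard : C.card ≤ N := (Finset.card_le_univ C).trans hN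
  obtain ⟨v0, hv0⟩ : C.Nonempty := by
    rw [← Finset.card_pos]
    have := Finset.card_sdiff_add_card_eq_card hCR
    omega
  have hCbig : d ≤ C.card + 2 * e := by
    have h1 := hcore v0 hv0
    have h2 := dg_le (G := G) C v0
    omega
  have hre : r ≤ e := by
    by_contra hcon
    push Not at hcon
    have h1 : r * e ≤ r ^ 2 * (Bd r J + L1 + 2) := by
      calc r * e ≤ r * r := Nat.mul_le_mul_left _ hcon.le
        _ = r ^ 2 * 1 := by ring
        _ ≤ r ^ 2 * (Bd r J + L1 + 2) := Nat.mul_le_mul_left _ (by omega)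
    omega
  obtain ⟨W, hW, hWc⟩ := Finset.exists_subset_card_eq (s := C) (n := r) (by omega)
  obtain ⟨u0, hu0, w0, hw0, huw, hcom0⟩ := codeg_pigeon (W := W) (f := fun v => nb G C v)
    (D := C) (μ := e) (M := Bd r J + L1 + 2) (fun _ _ => nb_subset _ _)
    (fun v hv => by
      have := hcore v (hW hv)
      show e ≤ dg G C v
      omega) (by rw [hWc]; omega)
  set X := img x 0 (l - 1) with hX
  have hXR : Disjoint X R := by
    rw [Finset.disjoint_left]
    intro v hv hvR
    obtain ⟨t, _, _, rfl⟩ := mem_img.mp hv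
    exact ((h.hR _).mp hvR) t rfl
  have hXR' : ∀ v, v ∉ X → v ∈ R := by
    intro v hv
    rw [h.hR]
    intro t ht
    apply hv
    rw [← ht]; exact h.cs.mem_img_all t
  have hx01 : x 0 ≠ x 1 := (h.cs.adj 0).ne
  obtain ⟨s1, hs1, s2, hs2, t1, ht1, t2, ht2, k1, k2, P1, P2, hP1, hP2, hdis, hlen, e1, e2, e3, e4⟩ :=
    two_paths_sets hc h3 (S := {u0, w0}) (T := X) (a := u0) (b := w0) (t := x 0) (t' := x 1)
      (by simp) (by simp) (h.cs.mem_img_all _) (h.cs.mem_img_all _) huw hx01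
  rw [← hL1] at hlen
  have hs12 : s1 ≠ s2 := by
    rintro rfl
    exact Finset.disjoint_left.mp hdis hP1.left_mem hP2.left_mem
  have ht12 : t1 ≠ t2 := by
    rintro rfl
    exact Finset.disjoint_left.mp hdis hP1.right_mem hP2.right_mem
  have hsC : s1 ∈ C ∧ s2 ∈ C ∧ Bd r J + L1 + 2 ≤ (nb G C s1 ∩ nb G C s2).card := by
    simp only [Finset.mem_insert, Finset.mem_singleton] at hs1 hs2
    rcases hs1 with rfl | rfl <;> rcases hs2 with rfl | rfl
    · exact absurd rfl hs12
    · exact ⟨hW hu0, hW hw0, hcom0⟩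
    · exact ⟨hW hw0, hW hu0, by rw [Finset.inter_comm]; exact hcom0⟩
    · exact absurd rfl hs12
  obtain ⟨hs1C, hs2C, hcom⟩ := hsC
  have hs1t : s1 ≠ t1 := by
    rintro rfl; exact Finset.disjoint_left.mp hXR ht1 (hCR hs1C)
  have hs2t : s2 ≠ t2 := by
    rintro rfl; exact Finset.disjoint_left.mp hXR ht2 (hCR hs2C)
  obtain ⟨w1, j1, Q1, hk1, hQ1, hadj1, ht1Q, hQ1P⟩ := hP1.last hs1t
  obtain ⟨w2, j2, Q2, hk2, hQ2, hadj2, ht2Q, hQ2P⟩ := hP2.last hs2t
  have hQ1R : Q1 ⊆ R := by
    intro v hv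
    apply hXR'
    intro hvX
    have := e2 v (hQ1P hv) hvX
    subst this
    exact ht1Q hv
  have hQ2R : Q2 ⊆ R := by
    intro v hv
    apply hXR'
    intro hvX
    have := e4 v (hQ2P hv) hvX
    subst this
    exact ht2Q hv
  have hQdis : Disjoint Q1 Q2 :=
    Finset.disjoint_of_subset_left hQ1P (Finset.disjoint_of_subset_right hQ2P hdis)
  -- the set U
  set U := (C \ (Q1 ∪ Q2)) ∪ {s1, s2} with hU
  have hUC : U ⊆ C := by
    intro v hv
    rw [hU, Finset.mem_union, Finset.mem_sdiff, Finset.mem_insert, Finset.mem_singleton] at hv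
    rcases hv with hv | rfl | rfl
    · exact hv.1
    · exact hs1C
    · exact hs2C
  have hs1U : s1 ∈ U := by rw [hU]; simp
  have hs2U : s2 ∈ U := by rw [hU]; simp
  have hCU : (C \ U).card ≤ L1 := by
    have h4 : C \ U ⊆ Q1 ∪ Q2 := by
      intro v hv
      rw [Finset.mem_sdiff, hU, Finset.mem_union, Finset.mem_sdiff] at hv
      by_contra hcon
      exact hv.2 (Or.inl ⟨hv.1, hcon⟩)
    have h5 := Finset.card_le_card h4
    have h6 := Finset.card_union_le Q1 Q2
    rw [hQ1.card, hQ2.card] at h6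
    omega
  have hUdeg' : ∀ v, dg G C v ≤ dg G U v + L1 := by
    intro v
    have h4 := dg_union_le (G := G) U (C \ U) v
    rw [Finset.union_sdiff_of_subset hUC] at h4
    have h5 := dg_le (G := G) (C \ U) v
    omega
  set δ := d - 2 * e - L1 with hδ
  have hUdeg : ∀ v ∈ U, δ ≤ dg G U v := by
    intro v hv
    have h4 := hcore v (hUC hv)
    have h5 := hUdeg' v
    omega
  have hUN : U.card ≤ N := (Finset.card_le_card hUC).trans hCcard
  have hcomU : Bd r J ≤ (nb G U s1 ∩ nb G U s2).card := by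
    have h4 : nb G C s1 ∩ nb G C s2 ⊆ (nb G U s1 ∩ nb G U s2) ∪ (C \ U) := by
      intro v hv
      rw [Finset.mem_inter, mem_nb, mem_nb] at hv
      rw [Finset.mem_union, Finset.mem_inter, mem_nb, mem_nb, Finset.mem_sdiff]
      by_cases hvU : v ∈ U
      · exact Or.inl ⟨⟨hvU, hv.1.2⟩, ⟨hvU, hv.2.2⟩⟩
      · exact Or.inr ⟨hv.1.1, hvU⟩
    have h5 := (Finset.card_le_card h4).trans (Finset.card_union_le _ _)
    omega
  -- assembling ears
  have hass : ∀ m, PIn G s1 s2 m U → Ear G R t1 t2 (j1 + m + j2) := by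
    rintro m ⟨S, hS, hp⟩
    refine ⟨w1, w2, hadj1, hadj2, ?_⟩
    have hUQ : ∀ v, v ∈ U → v ∈ Q1 ∪ Q2 → v = s1 ∨ v = s2 := by
      intro v hv hvQ
      rw [hU, Finset.mem_union, Finset.mem_sdiff, Finset.mem_insert, Finset.mem_singleton] at hv
      rcases hv with hv | hv
      · exact absurd hvQ hv.2
      · exact hv
    have a1 := hQ1.rev.append hp (by
      intro v hv hvS
      rcases hUQ v (hS hvS) (Finset.mem_union_left _ hv) with h6 | h6
      · exact h6
      · exfalso; subst h6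
        exact Finset.disjoint_left.mp hQdis hv hQ2.left_mem)
    have a2 := a1.append hQ2 (by
      intro v hv hvQ
      rw [Finset.mem_union] at hv
      rcases hv with hv | hv
      · exact absurd hvQ (Finset.disjoint_left.mp hQdis hv)
      · rcases hUQ v (hS hv) (Finset.mem_union_right _ hvQ) with h6 | h6
        · exfalso; subst h6
          exact Finset.disjoint_left.mp hQdis hQ1.left_mem hvQ
        · exact h6)
    refine ⟨_, ?_, a2⟩
    intro v hv
    rw [Finset.mem_union, Finset.mem_union] at hv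
    rcases hv with (hv | hv) | hv
    · exact hQ1R hv
    · exact hCR (hUC (hS hv))
    · exact hQ2R hv
  have hδd : d + 8 * e ≤ 2 * δ := by omega
  have hstart := even_paths hn hUN hUdeg (by omega) hs12 hs1U hs2U hcomU J hn.J1 (by
    have := hn.cT; omega)
  have hm1J := hn.m1J
  obtain ⟨M, hM0, hMp, hall, hMδ, hcase⟩ := px (hn.toPX (by omega)) hUN hUdeg (by omega) (by omega)
    (m0 := 2 * J) (by omega) hstart
  refine ⟨t1, t2, ht1, ht2, ht12, ?_⟩
  rcases hcase with hA | ⟨hM2, y, hy, hyU, hy0, hyM, hsum⟩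
  · left
    refine ⟨j1 + 2 * J + j2, by omega, ?_⟩
    intro q hq1 hq2 hq3
    have h4 := hass (q - j1 - j2) (hall _ (by omega) (by omega) (by omega))
    have : j1 + (q - j1 - j2) + j2 = q := by omega
    rwa [this] at h4
  · right
    obtain ⟨c0, hc0, hcl⟩ := closed_paths hn hUN hUdeg hδd hy hyU hMδ (by omega) hsum
    intro q hq1 hq2
    have h4 := hcl (q - j1 - j2 - c0) (by omega) (by omega)
    rw [hy0, hyM] at h4
    have h5 := hass _ h4
    have : j1 + (c0 + (q - j1 - j2 - c0)) + j2 = q := by omega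
    rwa [this] at h5

end Pool.Agent.H34.OC
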