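import Pool.Agent.H34.OC.PX
import Pool.Agent.H34.OC.Fin0

/-!
# Final configuration: almost closed paths
-/

set_option autoImplicit false

namespace Pool.Agent.H34.OC

variable {V : Type*} [DecidableEq V] {G : SimpleGraph V}

/-- a typical position in a window of length `z0 + 1` -/
theorem Base.eb1_typ [Fintype V] {l d z0 : ℕ} {x : ℕ → V} {R Z F : Finset V}
    (h : Base G l d z0 x R Z F) {a : ℕ} (ha : a + z0 < l) :
    ∃ i, a ≤ i ∧ i ≤ a + z0 ∧ x i ∉ F := by
  by_contra hcon
  push Not at hcon
  have h1 : (Finset.Icc a (a + z0)).image x ⊆ F := by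
    intro v hv
    rw [Finset.mem_image] at hv
    obtain ⟨i, hi, rfl⟩ := hv
    rw [Finset.mem_Icc] at hi
    exact hcon i hi.1 hi.2
  have h2 := Finset.card_le_card h1
  rw [Finset.card_image_of_injOn, Nat.card_Icc] at h2
  · have := h.Fc
    omega
  · intro i hi j hj hij
    rw [Finset.mem_coe, Finset.mem_Icc] at hi hj
    exact h.ctx.cs.inj i j (by omega) (by omega) hij

theorem Base.eb1 [Fintype V] {l d z0 s E : ℕ} {x : ℕ → V} {R Z F : Finset V}
    (h : Base G l d z0 x R Z F) (h1 : s < l) (h2 : l < s + E) (hE : 100 * (z0 + 100) ≤ E)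
    (hd : 100 * E ≤ d)
    (hno : ∀ p, p + E ≤ l → l + E ≤ p + d → ¬ PIn G (x 0) (x s) p (img x 0 (l - 1))) : False := by
  have hll := h.ll
  have hle := h.ctx.le
  obtain ⟨i, hi1, hi2, hiF⟩ := h.eb1_typ (a := s / 2) (by omega)
  have hps := h.ctx.cs.pseq (show l - 1 < l by omega)
  -- the cycle neighbours of `x i`
  have hdeg := h.ctx.split (x i)
  have hR : dg G R (x i) ≤ z0 := (Finset.card_le_card (h.typ i hiF)).trans h.Zc
  rw [← hps.card_pos] at hdeg
  have hsub : pos G (l - 1) x (x i) ⊆ Finset.Icc (i - E) (i + E) ∪ (Finset.range (i - (d - 2 * E)) ∪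
      (Finset.Icc (i + (d - 2 * E) + 1) s ∪ Finset.Icc (s + 1) (l - 1))) := by
    intro j hj
    rw [mem_pos] at hj
    obtain ⟨hjl, hadj⟩ := hj
    simp only [Finset.mem_union, Finset.mem_Icc, Finset.mem_range]
    by_contra hcon
    push Not at hcon
    obtain ⟨c1, c2, c3, c4⟩ := hcon
    have hjs : j ≤ s := by
      by_contra hc; push Not at hc
      have := c4 (by omega); omega
    rcases Nat.lt_or_ge i j with hij | hij
    · have hp := (hps.pin (Nat.zero_le i) (by omega)).join hadj.symm
        (hps.pin hjs (by omega)) (hps.img_disj hij (by omega))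
      have hc1 := c1 (by omega)
      have hc3 : j ≤ i + (d - 2 * E) := by
        by_contra hc; push Not at hc
        have := c3 (by omega); omega
      refine hno (i - 0 + 1 + (s - j)) (by omega) (by omega) (hp.mono ?_)
      exact Finset.union_subset (img_mono (by omega) (by omega)) (img_mono (by omega) (by omega))
    · have hne : i ≠ j := by rintro rfl; exact hadj.ne rfl
      have hji : j < i := by omega
      have hp := (hps.pin (Nat.zero_le j) (by omega)).join hadj
        (hps.pin (show i ≤ s by omega) (by omega)) (hps.img_disj hji (by omega))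
      have hc1 : j < i - E := by
        by_contra hc; push Not at hc
        have := c1 hc; omega
      refine hno (j - 0 + 1 + (s - i)) (by omega) (by omega) (hp.mono ?_)
      exact Finset.union_subset (img_mono (by omega) (by omega)) (img_mono (by omega) (by omega))
  have hc := Finset.card_le_card hsub
  have hu1 := Finset.card_union_le (Finset.Icc (i - E) (i + E)) (Finset.range (i - (d - 2 * E)) ∪
      (Finset.Icc (i + (d - 2 * E) + 1) s ∪ Finset.Icc (s + 1) (l - 1)))
  have hu2 := Finset.card_union_le (Finset.range (i - (d - 2 * E)))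
      (Finset.Icc (i + (d - 2 * E) + 1) s ∪ Finset.Icc (s + 1) (l - 1))
  have hu3 := Finset.card_union_le (Finset.Icc (i + (d - 2 * E) + 1) s)
      (Finset.Icc (s + 1) (l - 1))
  rw [Nat.card_Icc] at hu1 hu3
  rw [Nat.card_Icc] at hu3
  rw [Finset.card_range] at hu2
  omega

end Pool.Agent.H34.OC
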