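import Pool.Agent.H34.OC.Chords
import Pool.Agent.H34.OC.FIN

/-!
# Case B2: one side of the cycle almost contains `d` vertices
-/

set_option autoImplicit false

namespace Pool.Agent.H34.OC

variable {V : Type*} [DecidableEq V] {G : SimpleGraph V}

theorem Base.eb2 [Fintype V] {l d z0 s E : ℕ} {x : ℕ → V} {R Z F : Finset V}
    (h : Base G l d z0 x R Z F) (h1 : s + 2 ≤ d) (h2 : d ≤ s + E) (h3 : s < l)
    (hE : 100 * (z0 + 100) ≤ E) (hz0 : 1 ≤ z0) (hd : 100 * z0 * E ≤ d)
    (hno : ∀ p, p + E ≤ l → l + E ≤ p + d → ¬ PIn G (x 0) (x s) p (img x 0 (l - 1))) :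
    False := by
  classical
  have hl := h.ctx.cs.three
  have hle := h.ctx.le
  have hll := h.ll
  have hps := h.ctx.cs.pseq (show l - 1 < l by omega)
  -- numerical facts
  have hd1 : 100 * E ≤ d := by nlinarith
  obtain ⟨P, hP⟩ : ∃ P, P = z0 * E := ⟨_, rfl⟩
  obtain ⟨Q, hQ⟩ : ∃ Q, Q = z0 * z0 := ⟨_, rfl⟩
  have hP1 : E ≤ P := by rw [hP]; nlinarith
  have hP2 : 100 * Q + 10000 * z0 ≤ P := by rw [hP, hQ]; nlinarith
  have hP3 : 100 * P ≤ d := by rw [hP]; nlinarith
  -- (i) crossing chords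
  have H1 : ∀ i j, E + 1 ≤ i → i + E + 1 ≤ s → s < j → j < l → G.Adj (x i) (x j) →
      d + 2 < i + 1 + (j - s) + E ∧ i + 1 + (j - s) + d < l + E := by
    intro i j hi1 hi2 hj1 hj2 hc
    have r1 := hps.over1 (s := s) (show i < s by omega) (by omega) (show j ≤ l - 1 by omega) hc
    have r2 := h.ctx.cs.over2 (s := s) (by omega) (by omega) hj1 hj2 hc
    constructor
    · by_contra hcon
      exact hno _ (by omega) (by omega) r2
    · by_contra hcon
      exact hno _ (by omega) (by omega) r1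
  have H3 : ∀ i, E + 1 ≤ i → i + E + 1 ≤ s → x i ∉ F →
      (Finset.range (s + 1) \ pos G (l - 1) x (x i)).card ≤ z0 + 2 * E := by
    intro i hi1 hi2 hi
    have hsub : pos G (l - 1) x (x i) ⊆
        (Finset.range (s + 1) ∩ pos G (l - 1) x (x i)) ∪
          Finset.Icc (d + 2 + s - i - E) (l + E + s - i - d - 2) := by
      intro j hj
      rw [Finset.mem_union, Finset.mem_inter, Finset.mem_range, Finset.mem_Icc]
      rcases Nat.lt_or_ge s j with hjs | hjs
      · right
        rw [mem_pos] at hj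
        have := H1 i j hi1 hi2 hjs (by omega) hj.2.symm
        omega
      · exact Or.inl ⟨by omega, hj⟩
    have h3 := (Finset.card_le_card hsub).trans (Finset.card_union_le _ _)
    rw [Nat.card_Icc] at h3
    have h4 := h.typ_deg hi
    have h5 := Finset.card_sdiff_add_card_inter (Finset.range (s + 1)) (pos G (l - 1) x (x i))
    rw [Finset.card_range] at h5
    omega
  -- (ii)
  have H4 : ∀ i j, 10 * E ≤ i → i + 10 * E ≤ s → s < j → j < l → ¬ G.Adj (x i) (x j) := by
    intro i j hi1 hi2 hj1 hj2 hc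
    have hL := H1 i j (by omega) (by omega) hj1 hj2 hc
    obtain ⟨t, ht1, ht2, ht3⟩ := h.typ_ex (i := i - z0 - 1) (by omega)
    have hm := H3 t (by omega) (by omega) ht3
    have hex : ∃ k, k ≤ z0 + 2 * E ∧ G.Adj (x (i + 3 * E + k)) (x t) := by
      by_contra hcon
      push Not at hcon
      have hsub : (Finset.range (z0 + 2 * E + 1)).image (fun k => i + 3 * E + k) ⊆
          Finset.range (s + 1) \ pos G (l - 1) x (x t) := by
        intro u hu
        obtain ⟨k, hk, rfl⟩ := Finset.mem_image.mp hu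
        rw [Finset.mem_range] at hk
        rw [Finset.mem_sdiff, Finset.mem_range, mem_pos]
        refine ⟨by omega, fun h7 => hcon k (by omega) h7.2⟩
      have h8 := Finset.card_le_card hsub
      rw [Finset.card_image_of_injective, Finset.card_range] at h8
      · omega
      · intro a b hab
        simp only at hab
        omega
    obtain ⟨k, hk, hadj⟩ := hex
    have r := hps.over3 (s := s) (i0 := t) (i := i) (k := i + 3 * E + k) (j := j) (by omega)
      (by omega) (by omega) (by omega) (by omega) hadj.symm hc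
    exact hno _ (by omega) (by omega) r
  -- (iii)
  have H5 : ∀ a, 10 * E ≤ a → a + 10 * E ≤ s →
      pos G (l - 1) x (x a) ⊆ (Finset.range (s + 1)).erase a := by
    intro a ha1 ha2 j hj
    rw [mem_pos] at hj
    rw [Finset.mem_erase, Finset.mem_range]
    refine ⟨?_, ?_⟩
    · rintro rfl; exact hj.2.ne rfl
    · by_contra hcon
      exact H4 a j ha1 ha2 (by omega) (by omega) hj.2.symm
  have H6 : ∀ a, 10 * E ≤ a → a + 10 * E ≤ s → x a ∉ F →
      (Finset.range (s + 1) \ pos G (l - 1) x (x a)).card ≤ z0 := by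
    intro a ha1 ha2 ha3
    have h3 := Finset.card_sdiff_add_card_inter (Finset.range (s + 1)) (pos G (l - 1) x (x a))
    rw [Finset.inter_eq_right.mpr ((H5 a ha1 ha2).trans (Finset.erase_subset _ _)),
      Finset.card_range] at h3
    have h4 := h.typ_deg ha3
    omega
  have H7 : ∀ a, 10 * E ≤ a → a + 10 * E ≤ s → 2 ≤ dg G R (x a) := by
    intro a ha1 ha2
    have h3 := h.ctx.split (x a)
    rw [← hps.card_pos] at h3
    have h4 := Finset.card_le_card (H5 a ha1 ha2)
    rw [Finset.card_erase_of_mem (by rw [Finset.mem_range]; omega), Finset.card_range] at h4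
    omega
  -- (iv)
  obtain ⟨S1, hS1c, hS1⟩ := h.typ_set (10 * E) 1 (15 * z0) 2 (by omega) (by omega)
  obtain ⟨z, hzZ, hzR, A, hAS, hAc, hA⟩ := pigeon (x := x) (K := 11) (S := S1) h.Zc (by omega)
    (fun v => v ∈ R) (by
      intro a ha
      obtain ⟨⟨k, hk, rfl⟩, hF⟩ := hS1 a ha
      have h3 := H7 (10 * E + 1 * k) (by omega) (by omega)
      obtain ⟨v, hv⟩ := Finset.card_pos.mp
        (show 0 < (nb G R (x (10 * E + 1 * k))).card from lt_of_lt_of_le (by omega) h3)
      exact ⟨v, h.typ _ (hF 0 (by omega)) hv, (mem_nb.mp hv).1, (mem_nb.mp hv).2⟩)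
  have hK2 : z0 * (4 * z0 + 60) = 4 * Q + 60 * z0 := by rw [hQ]; ring
  obtain ⟨S2, hS2c, hS2⟩ := h.typ_set (10 * E) 1 (z0 * (4 * z0 + 60)) 0 (by omega) (by omega)
  have hK3 : z0 * (4 * z0 + 4 + 39) + 17 * z0 = z0 * (4 * z0 + 60) := by ring
  obtain ⟨z', hzZ', ⟨hzR', hzz'⟩, C, hCS, hCc, hC⟩ := pigeon (x := x) (K := 4 * z0 + 4 + 39)
    (S := S2) h.Zc (by omega)
    (fun v => v ∈ R ∧ v ≠ z) (by
      intro a ha
      obtain ⟨⟨k, hk, rfl⟩, hF⟩ := hS2 a ha
      have h3 := H7 (10 * E + 1 * k) (by omega) (by omega)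
      obtain ⟨v, hv, hvz⟩ := Finset.exists_mem_ne
        (show 1 < (nb G R (x (10 * E + 1 * k))).card from h3) z
      exact ⟨v, h.typ _ (hF 0 (by omega)) hv, ⟨(mem_nb.mp hv).1, hvz⟩, (mem_nb.mp hv).2⟩)
  refine h.ctx.fin (N0 := 4 * z0 + 4) hzR hzR' hzz'.symm (A := A) (C := C) ?_ ?_ (by omega)
    (by omega) ?_
  · intro a ha
    obtain ⟨⟨k, hk, he⟩, _⟩ := hS1 a (hAS ha)
    exact ⟨by omega, by omega, hA a ha⟩
  · intro c hc
    obtain ⟨⟨k, hk, he⟩, _⟩ := hS2 c (hCS hc)
    exact ⟨by omega, by omega, hC c hc⟩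
  · intro a ha
    obtain ⟨⟨k, hk, he⟩, hF⟩ := hS1 a (hAS ha)
    have hMi0 := H6 a (by omega) (by omega) (hF 0 (by omega))
    have hMi1 := H6 (a + 1) (by omega) (by omega) (hF 1 (by omega))
    have hMi2 := H6 (a + 2) (by omega) (by omega) (hF 2 (by omega))
    set I := Finset.range (s + 1) with hI
    refine ⟨(I \ pos G (l - 1) x (x a)) ∪ (I \ pos G (l - 1) x (x (a + 2))) ∪
      ((I \ pos G (l - 1) x (x (a + 1))).image (· + 1)) ∪
      ((I \ pos G (l - 1) x (x (a + 1))).image (· - 1)), ?_, ?_⟩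
    · have c1 := Finset.card_union_le ((I \ pos G (l - 1) x (x a)) ∪
        (I \ pos G (l - 1) x (x (a + 2))) ∪
        ((I \ pos G (l - 1) x (x (a + 1))).image (· + 1)))
        ((I \ pos G (l - 1) x (x (a + 1))).image (· - 1))
      have c2 := Finset.card_union_le ((I \ pos G (l - 1) x (x a)) ∪
        (I \ pos G (l - 1) x (x (a + 2))))
        ((I \ pos G (l - 1) x (x (a + 1))).image (· + 1))
      have c3 := Finset.card_union_le (I \ pos G (l - 1) x (x a))
        (I \ pos G (l - 1) x (x (a + 2)))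
      have c4 := Finset.card_image_le (s := I \ pos G (l - 1) x (x (a + 1))) (f := (· + 1))
      have c5 := Finset.card_image_le (s := I \ pos G (l - 1) x (x (a + 1))) (f := (· - 1))
      omega
    · intro c hc hcB
      obtain ⟨⟨k', hk', he'⟩, _⟩ := hS2 c (hCS hc)
      simp only [Finset.mem_union, not_or] at hcB
      obtain ⟨⟨⟨hb1, hb2⟩, hb3⟩, hb4⟩ := hcB
      refine ⟨?_, ?_, ?_, ?_⟩
      · by_contra hcon
        apply hb1
        rw [Finset.mem_sdiff, hI, Finset.mem_range, mem_pos]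
        exact ⟨by omega, fun h7 => hcon h7.2⟩
      · by_contra hcon
        apply hb2
        rw [Finset.mem_sdiff, hI, Finset.mem_range, mem_pos]
        exact ⟨by omega, fun h7 => hcon h7.2⟩
      · by_contra hcon
        apply hb3
        rw [Finset.mem_image]
        refine ⟨c - 1, ?_, by omega⟩
        rw [Finset.mem_sdiff, hI, Finset.mem_range, mem_pos]
        exact ⟨by omega, fun h7 => hcon h7.2.symm⟩
      · by_contra hcon
        apply hb4
        rw [Finset.mem_image]
        refine ⟨c + 1, ?_, by omega⟩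
        rw [Finset.mem_sdiff, hI, Finset.mem_range, mem_pos]
        exact ⟨by omega, fun h7 => hcon h7.2.symm⟩

end Pool.Agent.H34.OC
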