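import Pool.Agent.H34.OC.Link

/-!
# Extending a path by exactly two edges
-/

set_option autoImplicit false

namespace Pool.Agent.H34.OC

variable {V : Type*} [DecidableEq V] {G : SimpleGraph V}

/-- distinct representatives from large sets -/
theorem sdr {ι α : Type*} [DecidableEq ι] [DecidableEq α] [Nonempty α] (I : Finset ι)
    (A : ι → Finset α) (h : ∀ i ∈ I, I.card ≤ (A i).card) :
    ∃ f : ι → α, (∀ i ∈ I, f i ∈ A i) ∧ ∀ i ∈ I, ∀ j ∈ I, f i = f j → i = j := by
  suffices H : ∀ I' ⊆ I, ∃ f : ι → α, (∀ i ∈ I', f i ∈ A i) ∧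
      ∀ i ∈ I', ∀ j ∈ I', f i = f j → i = j from H I subset_rfl
  intro I'
  induction I' using Finset.induction_on with
  | empty =>
    intro _
    obtain ⟨a⟩ := ‹Nonempty α›
    exact ⟨fun _ => a, by simp, by simp⟩
  | @insert a I' ha ih =>
    intro hI
    obtain ⟨f, h1, h2⟩ := ih ((Finset.subset_insert _ _).trans hI)
    have h3 : ∃ c ∈ A a, c ∉ I'.image f := by
      by_contra hcon
      push Not at hcon
      have h4 := Finset.card_le_card (show A a ⊆ I'.image f from hcon)
      have h5 := Finset.card_image_le (s := I') (f := f)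
      have h6 := h a (hI (Finset.mem_insert_self _ _))
      have h7 := Finset.card_le_card hI
      rw [Finset.card_insert_of_notMem ha] at h7
      omega
    obtain ⟨c, hc, hc'⟩ := h3
    refine ⟨Function.update f a c, ?_, ?_⟩
    · intro i hi
      rcases Finset.mem_insert.mp hi with rfl | hi'
      · simpa using hc
      · have : i ≠ a := by rintro rfl; exact ha hi'
        simp [this, h1 i hi']
    · intro i hi j hj hij
      have hne : ∀ k ∈ I', k ≠ a := by rintro k hk rfl; exact ha hk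
      rcases Finset.mem_insert.mp hi with rfl | hi' <;> rcases Finset.mem_insert.mp hj with rfl | hj'
      · rfl
      · exfalso
        rw [Function.update_self, Function.update_of_ne (hne j hj')] at hij
        exact hc' (Finset.mem_image.mpr ⟨j, hj', hij.symm⟩)
      · exfalso
        rw [Function.update_self, Function.update_of_ne (hne i hi')] at hij
        exact hc' (Finset.mem_image.mpr ⟨i, hi', hij⟩)
      · rw [Function.update_of_ne (hne i hi'), Function.update_of_ne (hne j hj')] at hij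
        exact h2 i hi' j hj' hij

open Classical in
/-- the vertices of `D` with at least `T` neighbours in `D` -/
noncomputable def Dp (G : SimpleGraph V) (D : Finset V) (T : ℕ) : Finset V :=
  D.filter (fun w => T ≤ dg G D w)

open Classical in
/-- the vertices of `D` with fewer than `T` neighbours in `D` -/
noncomputable def Dm (G : SimpleGraph V) (D : Finset V) (T : ℕ) : Finset V :=
  D.filter (fun w => dg G D w < T)

theorem mem_Dp {D : Finset V} {T : ℕ} {w : V} : w ∈ Dp G D T ↔ w ∈ D ∧ T ≤ dg G D w := by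
  simp [Dp]

theorem mem_Dm {D : Finset V} {T : ℕ} {w : V} : w ∈ Dm G D T ↔ w ∈ D ∧ dg G D w < T := by
  simp [Dm]

theorem Dp_union_Dm (D : Finset V) (T : ℕ) : Dp G D T ∪ Dm G D T = D := by
  ext w
  rw [Finset.mem_union, mem_Dp, mem_Dm]
  constructor
  · rintro (h | h) <;> exact h.1
  · intro h
    rcases Nat.lt_or_ge (dg G D w) T with h' | h'
    · exact Or.inr ⟨h, h'⟩
    · exact Or.inl ⟨h, h'⟩

/-- extension by two edges, using a link between two outside vertices -/
theorem ext_link {m : ℕ} {x : ℕ → V} (hx : PSeq G m x) {D : Finset V} (hD : ∀ t, t ≤ m → x t ∉ D)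
    {μ r J : ℕ} (hμ : 0 < μ) (hDc : D.card ≤ r * μ) {i j t : ℕ} (hj : j ≤ m) (hij : j = i + 2 * t)
    (ht : 1 ≤ t) (htJ : t ≤ J) {w w' : V} (hw : w ∈ D) (hw' : w' ∈ D) (hne : w ≠ w')
    (h1 : G.Adj (x i) w) (h2 : G.Adj (x j) w') {W : Finset V} (hWD : W ⊆ D)
    (hW : Bd r J ≤ W.card) (hadj : ∀ y ∈ W, G.Adj w y ∧ G.Adj w' y)
    (hdeg : ∀ y ∈ W, μ + J + 2 ≤ dg G D y) :
    PIn G (x 0) (x m) (m + 2) (img x 0 m ∪ D) := by
  have hl := link hμ hDc hne hWD hW hadj hdeg ht htJ
  have hl' : PIn G w w' (2 * t) D := hl.mono (by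
    intro v hv
    simp only [Finset.mem_insert] at hv
    rcases hv with rfl | rfl | h
    · exact hw
    · exact hw'
    · exact h)
  have := hx.detour (by omega : i < j) hj hD hl' h1 h2
  refine this.congr rfl rfl (by omega) ?_
  intro v hv
  simp only [Finset.mem_union] at hv ⊢
  rcases hv with (hv | hv) | hv
  · exact Or.inl (img_mono le_rfl (by omega) hv)
  · exact Or.inr hv
  · exact Or.inl (img_mono (by omega) le_rfl hv)

/-- extension by two edges, using a window of positions of the same parity -/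
theorem window_ext {m : ℕ} {x : ℕ → V} (hx : PSeq G m x) {D : Finset V}
    (hD : ∀ t, t ≤ m → x t ∉ D)
    {μ r J T b : ℕ} (hμ : 0 < μ) (hDc : D.card ≤ r * μ) (hT : μ + J + 2 ≤ T)
    (hb : (Dm G D T).card ≤ b) (I : Finset ℕ)
    (hI : ∀ i ∈ I, i ≤ m) (hpar : ∀ i ∈ I, ∀ j ∈ I, i % 2 = j % 2 ∧ j ≤ i + 2 * J)
    (hrep : ∀ i ∈ I, I.card ≤ dg G (Dp G D T) (x i))
    (hcount : D.card + I.card ^ 2 * (Bd r J + b) < I.card * T) :
    PIn G (x 0) (x m) (m + 2) (img x 0 m ∪ D) := by
  obtain ⟨f, hf1, hf2⟩ : ∃ f : ℕ → V, (∀ i ∈ I, f i ∈ nb G (Dp G D T) (x i)) ∧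
      ∀ i ∈ I, ∀ j ∈ I, f i = f j → i = j := by
    haveI : Nonempty V := ⟨x 0⟩
    exact sdr I (fun i => nb G (Dp G D T) (x i)) hrep
  have hf1' : ∀ i ∈ I, f i ∈ D ∧ T ≤ dg G D (f i) ∧ G.Adj (x i) (f i) := by
    intro i hi
    have := mem_nb.mp (hf1 i hi)
    have h2 := mem_Dp.mp this.1
    exact ⟨h2.1, h2.2, this.2⟩
  obtain ⟨i, hi, j, hj, hij, hc⟩ := codeg_pigeon (W := I) (f := fun i => nb G D (f i)) (D := D)
    (μ := T) (M := Bd r J + b) (fun i _ => nb_subset _ _) (fun i hi => (hf1' i hi).2.1) hcount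
  -- wlog i < j
  have key : ∀ i ∈ I, ∀ j ∈ I, i < j → Bd r J + b ≤ (nb G D (f i) ∩ nb G D (f j)).card →
      PIn G (x 0) (x m) (m + 2) (img x 0 m ∪ D) := by
    intro i hi j hj hlt hc
    obtain ⟨hp1, hp2⟩ := hpar i hi j hj
    obtain ⟨t, ht⟩ : ∃ t, j = i + 2 * t := ⟨(j - i) / 2, by omega⟩
    obtain ⟨h1, h2, h3⟩ := hf1' i hi
    obtain ⟨h4, h5, h6⟩ := hf1' j hj
    refine ext_link hx hD hμ hDc (hI j hj) ht (by omega) (by omega) h1 h4
      (fun h => by have := hf2 i hi j hj h; omega) h3 h6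
      (W := (nb G D (f i) ∩ nb G D (f j)) \ Dm G D T) ?_ ?_ ?_ ?_ (J := J) (r := r) (μ := μ)
    · intro v hv
      exact nb_subset _ _ (Finset.mem_inter.mp (Finset.mem_sdiff.mp hv).1).1
    · have := Finset.le_card_sdiff (Dm G D T) (nb G D (f i) ∩ nb G D (f j))
      omega
    · intro y hy
      have h7 := Finset.mem_inter.mp (Finset.mem_sdiff.mp hy).1
      exact ⟨(mem_nb.mp h7.1).2, (mem_nb.mp h7.2).2⟩
    · intro y hy
      have h7 := Finset.mem_sdiff.mp hy
      have h8 : y ∈ D := nb_subset _ _ (Finset.mem_inter.mp h7.1).1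
      by_contra h9
      apply h7.2
      rw [mem_Dm]
      exact ⟨h8, by omega⟩
  rcases Nat.lt_or_ge i j with h | h
  · exact key i hi j hj h hc
  · refine key j hj i hi (by omega) ?_
    rw [Finset.inter_comm]; exact hc

/-- If a path cannot be extended by two edges inside `D`, there are few edges to `D`. -/
theorem pxcore {m : ℕ} {x : ℕ → V} (hx : PSeq G m x) {D : Finset V}
    (hD : ∀ t, t ≤ m → x t ∉ D)
    {μ r J T b h : ℕ} (hμ : 0 < μ) (hDc : D.card ≤ r * μ) (hT : μ + J + 2 ≤ T) (hJ : 1 ≤ J)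
    (hb : (Dm G D T).card ≤ b)
    (hcount : D.card + h ^ 2 * (Bd r J + b) < h * T)
    (hno : ¬ PIn G (x 0) (x m) (m + 2) (img x 0 m ∪ D)) :
    ∑ i ∈ Finset.range (m + 1), dg G D (x i) ≤
      (m / (2 * J) + 1) * (2 * h) * D.card + (m + 1) * (h + b) := by
  classical
  set B := (Finset.range (m + 1)).filter (fun i => h ≤ dg G (Dp G D T) (x i)) with hB
  have hBc : B.card ≤ (m / (2 * J) + 1) * (2 * h) := by
    have hmaps : ∀ i ∈ B, (i / (2 * J), i % 2) ∈
        (Finset.range (m / (2 * J) + 1)) ×ˢ (Finset.range 2) := by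
      intro i hi
      rw [hB, Finset.mem_filter, Finset.mem_range] at hi
      rw [Finset.mem_product, Finset.mem_range, Finset.mem_range]
      refine ⟨?_, Nat.mod_lt _ (by norm_num)⟩
      exact Nat.lt_succ_of_le (Nat.div_le_div_right (by omega))
    have hfib : ∀ p ∈ (Finset.range (m / (2 * J) + 1)) ×ˢ (Finset.range 2),
        (B.filter (fun i => (i / (2 * J), i % 2) = p)).card ≤ h := by
      intro p hp
      by_contra hcon
      push Not at hcon
      obtain ⟨I, hI1, hI2⟩ := Finset.exists_subset_card_eq hcon.le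
      apply hno
      have hI3 : ∀ i ∈ I, i ≤ m ∧ h ≤ dg G (Dp G D T) (x i) ∧ i / (2 * J) = p.1 ∧ i % 2 = p.2 := by
        intro i hi
        have h1 := hI1 hi
        rw [Finset.mem_filter, hB, Finset.mem_filter, Finset.mem_range] at h1
        refine ⟨by omega, h1.1.2, ?_, ?_⟩
        · rw [← h1.2]
        · rw [← h1.2]
      refine window_ext hx hD hμ hDc hT hb I (fun i hi => (hI3 i hi).1) ?_ ?_ ?_ (J := J)
      · intro i hi j hj
        have h1 := hI3 i hi
        have h2 := hI3 j hj
        refine ⟨by omega, ?_⟩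
        have h3 := Nat.div_add_mod i (2 * J)
        have h4 := Nat.div_add_mod j (2 * J)
        have h5 := Nat.mod_lt j (by omega : 0 < 2 * J)
        rw [h1.2.2.1] at h3
        rw [h2.2.2.1] at h4
        omega
      · intro i hi; rw [hI2]; exact (hI3 i hi).2.1
      · rw [hI2]; exact hcount
    have h1 := Finset.card_le_mul_card_image_of_maps_to hmaps h hfib
    rw [Finset.card_product, Finset.card_range, Finset.card_range] at h1
    calc B.card ≤ h * ((m / (2 * J) + 1) * 2) := h1
      _ = (m / (2 * J) + 1) * (2 * h) := by ring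
  have h1 : ∀ i ∈ Finset.range (m + 1), dg G D (x i) ≤ (if i ∈ B then D.card else 0) + (h + b) := by
    intro i hi
    by_cases hiB : i ∈ B
    · rw [if_pos hiB]
      have := dg_le (G := G) D (x i)
      omega
    · rw [if_neg hiB]
      have h2 : dg G (Dp G D T) (x i) < h := by
        by_contra h3
        apply hiB
        rw [hB, Finset.mem_filter]
        exact ⟨hi, by omega⟩
      have h3 : dg G D (x i) ≤ dg G (Dp G D T) (x i) + dg G (Dm G D T) (x i) := by
        have := dg_union_le (G := G) (Dp G D T) (Dm G D T) (x i)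
        rwa [Dp_union_Dm] at this
      have h4 := dg_le (G := G) (Dm G D T) (x i)
      omega
  refine (Finset.sum_le_sum h1).trans ?_
  rw [Finset.sum_add_distrib, Finset.sum_const, Finset.card_range, smul_eq_mul]
  have h2 : ∑ i ∈ Finset.range (m + 1), (if i ∈ B then D.card else 0) = B.card * D.card := by
    rw [← Finset.sum_filter, Finset.sum_const, smul_eq_mul]
    congr 2
    ext i
    rw [Finset.mem_filter]
    constructor
    · exact fun h => h.2
    · intro h; exact ⟨(Finset.mem_filter.mp h).1, h⟩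
  rw [h2]
  have := Nat.mul_le_mul_right D.card hBc
  omega

end Pool.Agent.H34.OC
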