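import Pool.Agent.H34.OC.MAIN

/-!
# The frozen statement
-/

set_option autoImplicit false

namespace Pool.Agent.H34.OC

theorem dg_eq_ncard {V : Type} [Fintype V] [DecidableEq V] (G : SimpleGraph V) (v : V) :
    dg G Finset.univ v = (G.neighborSet v).ncard := by
  classical
  have : G.neighborSet v = ((nb G Finset.univ v : Finset V) : Set V) := by
    ext w; simp [mem_nb]
  rw [this, Set.ncard_coe_finset]
  rfl

theorem final :
    ∀ k : ℕ, 3 ≤ k → Odd k → ∃ N : ℕ, ∀ (V : Type) [Fintype V], N ≤ Fintype.card V →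
      ∀ G : SimpleGraph V,
        3 ≤ Fintype.card V →
        (∀ v : V, (G.induce ({v}ᶜ : Set V)).Connected) →
        ¬ G.Colorable 2 →
        (∀ v : V, (2 * (Fintype.card V : ℝ)) / ((k : ℝ) + 2) ≤ ((G.neighborSet v).ncard : ℝ)) →
        (∀ s : ℕ, IsEmpty (G ≃g (SimpleGraph.cycleGraph (k + 2)).comap
            (Prod.fst : Fin (k + 2) × Fin s → Fin (k + 2)))) →
        ∀ t : ℕ, k ≤ 2 * t + 1 →
          ((2 * t + 1 : ℕ) : ℤ) ≤ 2 * ⌈(2 * (Fintype.card V : ℝ)) / ((k : ℝ) + 2)⌉ - 1 →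
          ∃ (u : V) (p : G.Walk u u), p.IsCycle ∧ p.length = 2 * t + 1 := by
  intro k hk hodd
  obtain ⟨d0, hd0⟩ := main_oc k hk (Nat.odd_iff.mp hodd)
  refine ⟨(k + 2) * d0, ?_⟩
  intro V _ hN G _ hconn hcol hdeg hiso t hkt ht
  classical
  have hk2 : (0 : ℝ) < (k : ℝ) + 2 := by positivity
  obtain ⟨q, hq⟩ : ∃ q : ℝ, q = (2 * (Fintype.card V : ℝ)) / ((k : ℝ) + 2) := ⟨_, rfl⟩
  rw [← hq] at ht
  have hq0 : 0 ≤ q := by rw [hq]; positivity
  have hqe : q * ((k : ℝ) + 2) = 2 * (Fintype.card V : ℝ) := by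
    rw [hq]; field_simp
  obtain ⟨d, hd⟩ : ∃ d : ℕ, (d : ℤ) = ⌈q⌉ := ⟨⌈q⌉.toNat, by
    rw [Int.toNat_of_nonneg]; exact Int.ceil_nonneg hq0⟩
  have h1 : q ≤ (d : ℝ) := by
    have := Int.le_ceil q
    rw [← hd] at this
    exact_mod_cast this
  have h2 : (d : ℝ) < q + 1 := by
    have := Int.ceil_lt_add_one q
    rw [← hd] at this
    exact_mod_cast this
  have hdd : d0 ≤ d := by
    have h3 : ((k : ℝ) + 2) * d0 ≤ (Fintype.card V : ℝ) := by exact_mod_cast hN
    have h4 : (d0 : ℝ) ≤ q := by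
      have : ((k : ℝ) + 2) * d0 ≤ ((k : ℝ) + 2) * q := by
        have h5 : ((k : ℝ) + 2) * q = 2 * (Fintype.card V : ℝ) := by rw [← hqe]; ring
        rw [h5]
        have : (0 : ℝ) ≤ (Fintype.card V : ℝ) := by positivity
        linarith
      exact le_of_mul_le_mul_left this hk2
    have : (d0 : ℝ) ≤ d := h4.trans h1
    exact_mod_cast this
  have h := hd0 V G d hdd hconn hcol ?_ ?_ ?_ hiso (2 * t + 1) (by omega) hkt (by
    rw [← hd] at ht; omega)
  · exact h.toWalk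
  · intro v
    rw [dg_eq_ncard]
    have h3 := hdeg v
    rw [← hq] at h3
    have h4 : ⌈q⌉ ≤ (((G.neighborSet v).ncard : ℕ) : ℤ) := by
      rw [Int.ceil_le]
      exact_mod_cast h3
    rw [← hd] at h4
    exact_mod_cast h4
  · have h3 : 2 * (Fintype.card V : ℝ) ≤ ((k : ℝ) + 2) * d := by
      rw [← hqe, mul_comm]
      exact mul_le_mul_of_nonneg_left h1 hk2.le
    exact_mod_cast h3
  · have h3 : ((k : ℝ) + 2) * d < 2 * (Fintype.card V : ℝ) + ((k : ℝ) + 2) := by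
      have := mul_lt_mul_of_pos_left h2 hk2
      rw [← hqe]
      linarith
    exact_mod_cast h3

end Pool.Agent.H34.OC
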