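import Pool.Agent.H34.OC.NC

/-!
# Lemma E: outside a bounded set of vertices, all outside neighbours lie in a bounded set
-/

set_option autoImplicit false

namespace Pool.Agent.H34.OC

variable {V : Type*} [DecidableEq V] {G : SimpleGraph V}

/-- greedy matching -/
theorem greedy (x : ℕ → V) (I0 : Finset ℕ) (D : Finset V) (k : ℕ) :
    (∃ I, I ⊆ I0 ∧ I.card = k ∧ ∃ f : ℕ → V, (∀ i ∈ I, f i ∈ nb G D (x i)) ∧
      ∀ i ∈ I, ∀ j ∈ I, f i = f j → i = j) ∨
    (∃ I Z, I ⊆ I0 ∧ Z ⊆ D ∧ I.card < k ∧ Z.card < k ∧ ∀ i ∈ I0, i ∉ I → nb G D (x i) ⊆ Z) := by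
  classical
  induction k with
  | zero => exact Or.inl ⟨∅, Finset.empty_subset _, rfl, x, by simp, by simp⟩
  | succ k ih =>
    rcases ih with ⟨I, hI, hIc, f, hf, hinj⟩ | ⟨I, Z, h1, h2, h3, h4, h5⟩
    · by_cases hex : ∃ i ∈ I0, i ∉ I ∧ ∃ v ∈ nb G D (x i), v ∉ I.image f
      · left
        obtain ⟨i, hi, hiI, v, hv, hvf⟩ := hex
        refine ⟨insert i I, ?_, ?_, Function.update f i v, ?_, ?_⟩
        · intro j hj
          rcases Finset.mem_insert.mp hj with rfl | hj
          · exact hi
          · exact hI hj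
        · rw [Finset.card_insert_of_notMem hiI, hIc]
        · intro j hj
          by_cases hji : j = i
          · subst hji; rw [Function.update_self]; exact hv
          · rw [Function.update_of_ne hji]
            exact hf j (Finset.mem_of_mem_insert_of_ne hj hji)
        · intro j hj j' hj' hjj
          by_cases h1 : j = i <;> by_cases h2 : j' = i
          · rw [h1, h2]
          · rw [h1, Function.update_self, Function.update_of_ne h2] at hjj
            exact absurd (Finset.mem_image.mpr ⟨j', Finset.mem_of_mem_insert_of_ne hj' h2,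
              hjj.symm⟩) hvf
          · rw [h2, Function.update_self, Function.update_of_ne h1] at hjj
            exact absurd (Finset.mem_image.mpr ⟨j, Finset.mem_of_mem_insert_of_ne hj h1,
              hjj⟩) hvf
          · rw [Function.update_of_ne h1, Function.update_of_ne h2] at hjj
            exact hinj j (Finset.mem_of_mem_insert_of_ne hj h1) j'
              (Finset.mem_of_mem_insert_of_ne hj' h2) hjj
      · right
        push Not at hex
        refine ⟨I, I.image f, hI, ?_, by omega, ?_, fun i hi hiI v hv => hex i hi hiI v hv⟩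
        · intro v hv
          obtain ⟨i, hi, rfl⟩ := Finset.mem_image.mp hv
          exact nb_subset _ _ (hf i hi)
        · have := Finset.card_image_le (s := I) (f := f)
          omega
    · exact Or.inr ⟨I, Z, h1, h2, by omega, by omega, h5⟩

/-- even routes in `R` between two vertices with common neighbours in the core -/
theorem Ctx.route [Fintype V] {l d N e r J m1 b μ0 : ℕ} {x : ℕ → V} {R : Finset V}
    (h : Ctx G l d x R) (hn : Num N d e r J m1 b μ0) (hN : Fintype.card V ≤ N) (hl5 : 5 ≤ l)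
    {w w' : V} (hw : w ∈ R) (hw' : w' ∈ R) (hne : w ≠ w')
    (hcom : r + 2 ≤ (nb G (Rc G l x R e) w ∩ nb G (Rc G l x R e) w').card) {t : ℕ}
    (ht1 : 1 ≤ t) (ht : 2 * t + 4 * e ≤ d) : PIn G w w' (2 * t) R := by
  classical
  obtain ⟨_, hcore⟩ := h.core hn hN hl5
  set C := Rc G l x R e with hC
  set Nn := nb G C w ∩ nb G C w' with hNn
  have hNn' : ∀ v ∈ Nn, v ∈ C ∧ G.Adj w v ∧ G.Adj w' v := by
    intro v hv
    rw [hNn, Finset.mem_inter, mem_nb, mem_nb] at hv
    exact ⟨hv.1.1, hv.1.2, hv.2.2⟩
  have hb := hn.big'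
  have he := hn.epos
  have hr : 1 ≤ r := by
    by_contra hcon
    have : r = 0 := by omega
    have h5 := hn.w5
    rw [this] at h5
    simp at h5
  rcases Nat.lt_or_ge t 2 with ht2 | ht2
  · have : t = 1 := by omega
    subst this
    obtain ⟨v, hv⟩ : Nn.Nonempty := by
      rw [← Finset.card_pos]; omega
    obtain ⟨h1, h2, h3⟩ := hNn' v hv
    have p1 := (PIn.single w).join h2 (PIn.single v) (by
      rw [Finset.disjoint_singleton]; exact h2.ne)
    have p2 := p1.join h3.symm (PIn.single w') (by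
      rw [Finset.disjoint_union_left, Finset.disjoint_singleton, Finset.disjoint_singleton]
      exact ⟨hne, h3.ne.symm⟩)
    refine p2.congr rfl rfl (by norm_num) ?_
    intro u hu
    simp only [Finset.mem_union, Finset.mem_singleton] at hu
    rcases hu with (rfl | rfl) | rfl
    · exact hw
    · exact Rc_sub h1
    · exact hw'
  · set U := C \ {w, w'} with hU
    have hUdeg : ∀ v ∈ U, d - 2 * e - 2 ≤ dg G U v := by
      intro v hv
      rw [hU, Finset.mem_sdiff] at hv
      have h1 := hcore v hv.1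
      have h2 : dg G C v ≤ dg G U v + _ := dg_sdiff_ge (G := G) C {w, w'} v
      have h3 : ({w, w'} : Finset V).card ≤ 2 := Finset.card_le_two
      omega
    have hUN : U.card ≤ N := (Finset.card_le_univ U).trans hN
    have hNU : Nn ⊆ U := by
      intro v hv
      obtain ⟨h1, h2, h3⟩ := hNn' v hv
      rw [hU, Finset.mem_sdiff, Finset.mem_insert, Finset.mem_singleton]
      refine ⟨h1, ?_⟩
      rintro (rfl | rfl)
      · exact h2.ne rfl
      · exact h3.ne rfl
    obtain ⟨W, hW, hWc⟩ := Finset.exists_subset_card_eq (s := Nn) (n := r) (by omega)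
    obtain ⟨a, ha, c, hc, hac, hcc⟩ := codeg_pigeon (W := W) (f := fun v => nb G U v) (D := U)
      (μ := e) (M := Bd r J) (fun _ _ => nb_subset _ _)
      (fun v hv => by
        have := hUdeg v (hNU (hW hv))
        show e ≤ dg G U v
        omega) (by
        rw [hWc]
        have h5 := hn.w5
        have h6 : r ^ 2 * Bd r J ≤ r ^ 2 * (Bd r J + 2) := Nat.mul_le_mul_left _ (by omega)
        omega)
    have haN := hW ha
    have hcN := hW hc
    have hp := even_paths hn hUN hUdeg (by omega) hac (hNU haN) (hNU hcN) hcc (t - 1) (by omega)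
      (by omega)
    have h1 := (PIn.single w).join (hNn' a haN).2.1 hp (by
      rw [Finset.disjoint_singleton_left, hU, Finset.mem_sdiff]
      simp)
    have h2 := h1.join (hNn' c hcN).2.2.symm (PIn.single w') (by
      rw [Finset.disjoint_singleton_right, Finset.mem_union, Finset.mem_singleton, hU,
        Finset.mem_sdiff]
      rintro (h3 | h3)
      · exact hne h3.symm
      · exact h3.2 (by simp))
    refine h2.congr rfl rfl (by omega) ?_
    intro u hu
    simp only [Finset.mem_union, Finset.mem_singleton] at hu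
    rcases hu with (rfl | hu) | rfl
    · exact hw
    · rw [hU, Finset.mem_sdiff] at hu; exact Rc_sub hu.1
    · exact hw'

/-- no large matching from positions of one parity in a window -/
theorem Ctx.no_sdr [Fintype V] {l d N e r J m1 b μ0 : ℕ} {x : ℕ → V} {R : Finset V}
    (h : Ctx G l d x R) (hn : Num N d e r J m1 b μ0) (hN : Fintype.card V ≤ N) (hl5 : 5 ≤ l)
    {I : Finset ℕ} (hIc : I.card = b) {f : ℕ → V} (hf : ∀ i ∈ I, f i ∈ nb G (Dp G R μ0) (x i))
    (hinj : ∀ i ∈ I, ∀ j ∈ I, f i = f j → i = j) (hIl : ∀ i ∈ I, i < l)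
    (hpar : ∀ i ∈ I, ∀ j ∈ I, i % 2 = j % 2 ∧ j + 4 * e ≤ i + d) : False := by
  classical
  obtain ⟨hRc, hcore⟩ := h.core hn hN hl5
  set C := Rc G l x R e with hC
  have hf' : ∀ i ∈ I, f i ∈ R ∧ μ0 ≤ dg G R (f i) ∧ G.Adj (x i) (f i) := by
    intro i hi
    have h1 := mem_nb.mp (hf i hi)
    have h2 := mem_Dp.mp h1.1
    exact ⟨h2.1, h2.2, h1.2⟩
  obtain ⟨i, hi, j, hj, hij, hcom⟩ := codeg_pigeon (W := I) (f := fun i => nb G C (f i)) (D := C)
    (μ := μ0 - e) (M := r + 2) (fun _ _ => nb_subset _ _)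
    (fun i hi => by
      obtain ⟨h1, h2, h3⟩ := hf' i hi
      have h4 : dg G R (f i) ≤ dg G C (f i) + dg G (R \ C) (f i) := by
        have := dg_union_le (G := G) C (R \ C) (f i)
        rwa [Finset.union_sdiff_of_subset Rc_sub] at this
      have h5 := dg_le (G := G) (R \ C) (f i)
      show μ0 - e ≤ dg G C (f i)
      omega) (by
      rw [hIc]
      have h1 := hn.w4
      have h2 : C.card ≤ N := (Finset.card_le_univ C).trans hN
      omega)
  have key : ∀ i ∈ I, ∀ j ∈ I, i < j →
      r + 2 ≤ (nb G C (f i) ∩ nb G C (f j)).card → False := by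
    intro i hi j hj hlt hc
    obtain ⟨h1, h2, h3⟩ := hf' i hi
    obtain ⟨h4, h5, h6⟩ := hf' j hj
    obtain ⟨hp1, hp2⟩ := hpar i hi j hj
    have hr := h.route hn hN hl5 h1 h4 (fun he => by
      have := hinj i hi j hj he; omega) hc (t := (j - i) / 2) (by omega) (by omega)
    have hjl := hIl j hj
    have hd := (h.cs.pseq (show l - 1 < l by omega)).detour hlt (by omega)
      (fun t _ ht => ((h.hR _).mp ht) t rfl) hr h3 h6
    refine h.cs.no_ext h.no _ (hd.congr rfl rfl ?_ subset_rfl)
    omega
  rcases Nat.lt_or_ge i j with hlt | hge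
  · exact key i hi j hj hlt hcom
  · refine key j hj i hi (by omega) ?_
    rw [Finset.inter_comm]; exact hcom

/-- Lemma E -/
theorem Ctx.base [Fintype V] {l d N e r J m1 b μ0 : ℕ} {x : ℕ → V} {R : Finset V}
    (h : Ctx G l d x R) (hn : Num N d e r J m1 b μ0) (hN : Fintype.card V ≤ N) (hl5 : 5 ≤ l)
    (hm1 : m1 + 1 ≤ l) : ∃ Z F, Base G l d (7 * b) x R Z F := by
  classical
  have hb := hn.big'
  have hle := h.le
  set L := d - 4 * e with hL
  -- one window
  have hwin : ∀ q p : ℕ, ∃ I Z : Finset ℕ × Finset V, I.1.card ≤ b ∧ I.2.card ≤ b ∧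
      ∀ i, i < l → q * (L + 1) ≤ i → i ≤ q * (L + 1) + L → i % 2 = p → i ∉ I.1 →
        nb G (Dp G R μ0) (x i) ⊆ I.2 := by
    intro q p
    rcases greedy (G := G) x ((Finset.range l).filter (fun i => q * (L + 1) ≤ i ∧
      i ≤ q * (L + 1) + L ∧ i % 2 = p)) (Dp G R μ0) b with
      ⟨I, hI, hIc, f, hf, hinj⟩ | ⟨I, Z, h1, h2, h3, h4, h5⟩
    · exfalso
      have hI' : ∀ i ∈ I, i < l ∧ q * (L + 1) ≤ i ∧ i ≤ q * (L + 1) + L ∧ i % 2 = p := by
        intro i hi
        have := hI hi
        rwa [Finset.mem_filter, Finset.mem_range] at this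
      refine h.no_sdr hn hN hl5 hIc hf hinj (fun i hi => (hI' i hi).1) ?_
      intro i hi j hj
      have h1 := hI' i hi
      have h2 := hI' j hj
      constructor
      · omega
      · omega
    · refine ⟨(I, Z), (I, Z), h3.le, h4.le, ?_⟩
      intro i hil hq1 hq2 hp hiI
      refine h5 i ?_ hiI
      rw [Finset.mem_filter, Finset.mem_range]
      exact ⟨hil, hq1, hq2, hp⟩
  choose I _ hI1 hI2 hI3 using hwin
  set P : Finset (ℕ × ℕ) := Finset.range 3 ×ˢ Finset.range 2 with hP
  have hPc : P.card = 6 := by simp [hP]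
  refine ⟨P.biUnion (fun p => (I p.1 p.2).2) ∪ Dm G R μ0,
    P.biUnion (fun p => (I p.1 p.2).1.image x), h, ?_, ?_, ?_, ?_⟩
  · have := h.not_small hn hN hl5 hm1
    omega
  · refine (Finset.card_union_le _ _).trans ?_
    have h1 := h.Dm_card hn hN hl5
    have h2 : (P.biUnion (fun p => (I p.1 p.2).2)).card ≤ P.card * b :=
      Finset.card_biUnion_le_card_mul _ _ _ (fun p _ => hI2 p.1 p.2)
    rw [hPc] at h2
    omega
  · have h2 : (P.biUnion (fun p => (I p.1 p.2).1.image x)).card ≤ P.card * b :=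
      Finset.card_biUnion_le_card_mul _ _ _ (fun p _ =>
        (Finset.card_image_le).trans (hI1 p.1 p.2))
    rw [hPc] at h2
    omega
  · intro t ht v hv
    rw [mem_nb] at hv
    rw [Finset.mem_union]
    by_cases hvm : v ∈ Dm G R μ0
    · exact Or.inr hvm
    · left
      have hvp : v ∈ Dp G R μ0 := by
        have := hv.1
        rw [← Dp_union_Dm (G := G) R μ0, Finset.mem_union] at this
        tauto
      have hl3 := h.cs.three
      have htl : t % l < l := Nat.mod_lt _ (by omega)
      have hxt : x t = x (t % l) := h.cs.mod t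
      rw [hxt] at ht hv
      have hq : (t % l) / (L + 1) < 3 := by
        rw [Nat.div_lt_iff_lt_mul (by omega)]
        omega
      have hmem : ((t % l) / (L + 1), (t % l) % 2) ∈ P := by
        rw [hP, Finset.mem_product, Finset.mem_range, Finset.mem_range]
        exact ⟨hq, Nat.mod_lt _ (by norm_num)⟩
      rw [Finset.mem_biUnion]
      refine ⟨_, hmem, ?_⟩
      have h1 := Nat.div_add_mod (t % l) (L + 1)
      have h2 := Nat.mod_lt (t % l) (show 0 < L + 1 by omega)
      have h3 : (t % l) / (L + 1) * (L + 1) = (L + 1) * ((t % l) / (L + 1)) := by ring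
      refine hI3 ((t % l) / (L + 1)) ((t % l) % 2) (t % l) htl (by omega) (by omega) rfl ?_
        (mem_nb.mpr ⟨hvp, hv.2⟩)
      intro hin
      apply ht
      rw [Finset.mem_biUnion]
      exact ⟨_, hmem, Finset.mem_image_of_mem x hin⟩

end Pool.Agent.H34.OC
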