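import Pool.Agent.H34.OC.Basic

/-!
# Links: two vertices with many common neighbours are joined by paths of all small even lengths
-/

set_option autoImplicit false

namespace Pool.Agent.H34.OC

variable {V : Type*} [DecidableEq V]

open Classical in
/-- the neighbours of `v` inside `U` -/
noncomputable def nb (G : SimpleGraph V) (U : Finset V) (v : V) : Finset V :=
  U.filter (fun w => G.Adj v w)

/-- the number of neighbours of `v` inside `U` -/
noncomputable def dg (G : SimpleGraph V) (U : Finset V) (v : V) : ℕ := (nb G U v).card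

variable {G : SimpleGraph V}

theorem mem_nb {U : Finset V} {v w : V} : w ∈ nb G U v ↔ w ∈ U ∧ G.Adj v w := by
  simp [nb]

theorem nb_subset (U : Finset V) (v : V) : nb G U v ⊆ U := fun w hw => (mem_nb.mp hw).1

theorem dg_le (U : Finset V) (v : V) : dg G U v ≤ U.card := Finset.card_le_card (nb_subset U v)

theorem nb_mono {U U' : Finset V} (h : U ⊆ U') (v : V) : nb G U v ⊆ nb G U' v := by
  intro w hw; rw [mem_nb] at *; exact ⟨h hw.1, hw.2⟩

theorem dg_mono {U U' : Finset V} (h : U ⊆ U') (v : V) : dg G U v ≤ dg G U' v :=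
  Finset.card_le_card (nb_mono h v)

theorem dg_union_le (U U' : Finset V) (v : V) : dg G (U ∪ U') v ≤ dg G U v + dg G U' v := by
  unfold dg
  refine le_trans (Finset.card_le_card ?_) (Finset.card_union_le _ _)
  intro w hw
  rw [mem_nb] at hw
  rw [Finset.mem_union, mem_nb, mem_nb]
  rcases Finset.mem_union.mp hw.1 with h | h
  · exact Or.inl ⟨h, hw.2⟩
  · exact Or.inr ⟨h, hw.2⟩

theorem dg_sdiff_ge (U F : Finset V) (v : V) : dg G U v ≤ dg G (U \ F) v + F.card := by
  have h1 : dg G U v ≤ dg G ((U \ F) ∪ F) v := dg_mono (by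
    intro w hw; by_cases h : w ∈ F <;> simp [h, hw]) v
  have h2 := dg_union_le (G := G) (U \ F) F v
  have h3 := dg_le (G := G) F v
  omega

/-- double counting of edges between two sets -/
theorem sum_dg_comm (A B : Finset V) : ∑ a ∈ A, dg G B a = ∑ b ∈ B, dg G A b := by
  classical
  have h1 : ∀ a ∈ A, dg G B a = ∑ b ∈ B, if G.Adj a b then 1 else 0 := by
    intro a _
    rw [dg, nb, Finset.card_filter]
  have h2 : ∀ b ∈ B, dg G A b = ∑ a ∈ A, if G.Adj a b then 1 else 0 := by
    intro b _
    rw [dg, nb, Finset.card_filter]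
    refine Finset.sum_congr rfl ?_
    intro a _
    simp [G.adj_comm]
  rw [Finset.sum_congr rfl h1, Finset.sum_congr rfl h2, Finset.sum_comm]

/-- among many large subsets of `D`, two have a large intersection -/
theorem codeg_pigeon {ι : Type*} [DecidableEq ι] {W : Finset ι} {f : ι → Finset V} {D : Finset V}
    {μ M : ℕ} (hf : ∀ w ∈ W, f w ⊆ D) (hμ : ∀ w ∈ W, μ ≤ (f w).card)
    (h : D.card + W.card ^ 2 * M < W.card * μ) :
    ∃ w ∈ W, ∃ w' ∈ W, w ≠ w' ∧ M ≤ (f w ∩ f w').card := by
  by_contra hcon
  push Not at hcon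
  have key : ∀ W' : Finset ι, W' ⊆ W →
      ∑ w ∈ W', (f w).card ≤ (W'.biUnion f).card + W'.card ^ 2 * M := by
    intro W'
    induction W' using Finset.induction_on with
    | empty => intro _; simp
    | @insert a W' ha ih =>
      intro hW
      have ih' := ih ((Finset.subset_insert _ _).trans hW)
      rw [Finset.sum_insert ha, Finset.biUnion_insert, Finset.card_insert_of_notMem ha]
      have h1 : (f a ∩ W'.biUnion f).card ≤ W'.card * M := by
        have h2 : f a ∩ W'.biUnion f ⊆ W'.biUnion (fun w => f a ∩ f w) := by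
          intro v hv
          rw [Finset.mem_inter, Finset.mem_biUnion] at hv
          obtain ⟨h3, w, hw, h4⟩ := hv
          rw [Finset.mem_biUnion]
          exact ⟨w, hw, Finset.mem_inter.mpr ⟨h3, h4⟩⟩
        refine (Finset.card_le_card h2).trans (Finset.card_biUnion_le.trans ?_)
        have : ∑ w ∈ W', (f a ∩ f w).card ≤ ∑ _w ∈ W', M := by
          refine Finset.sum_le_sum ?_
          intro w hw
          have haw : a ≠ w := by rintro rfl; exact ha hw
          exact (hcon a (hW (Finset.mem_insert_self _ _)) w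
            (hW (Finset.mem_insert_of_mem hw)) haw).le
        simpa using this
      have h3 := Finset.card_union_add_card_inter (f a) (W'.biUnion f)
      have h4 : (W'.card + 1) ^ 2 * M = W'.card ^ 2 * M + W'.card * M + (W'.card * M + M) := by ring
      omega
  have h1 := key W subset_rfl
  have h2 : W.card * μ ≤ ∑ w ∈ W, (f w).card := by
    have := Finset.card_nsmul_le_sum W (fun w => (f w).card) μ hμ
    simpa using this
  have h3 : (W.biUnion f).card ≤ D.card := by
    refine Finset.card_le_card ?_
    intro v hv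
    obtain ⟨w, hw, h4⟩ := Finset.mem_biUnion.mp hv
    exact hf w hw h4
  omega

/-- the constant in the link lemma -/
def Bd (r : ℕ) : ℕ → ℕ
  | 0 => 1
  | (j + 1) => (r + 1) * (Bd r j + 2 * j + 2)

theorem Bd_mono (r : ℕ) {i j : ℕ} (h : i ≤ j) : Bd r i ≤ Bd r j := by
  induction h with
  | refl => exact le_rfl
  | @step m _ ih =>
    refine ih.trans ?_
    show Bd r m ≤ (r + 1) * (Bd r m + 2 * m + 2)
    nlinarith [Nat.zero_le (r * (Bd r m + 2 * m + 2))]

theorem altpath {D : Finset V} {μ r : ℕ} (hμ : 0 < μ) (hD : D.card ≤ r * μ) (j : ℕ) :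
    ∀ W F : Finset V, Bd r j ≤ W.card → (∀ y ∈ W, μ + j ≤ dg G (D \ F) y) →
      ∃ a ∈ W, ∃ b ∈ W, ∃ S, S ⊆ W ∪ (D \ F) ∧ Pth G a b (2 * j) S := by
  induction j with
  | zero =>
    intro W F hW _
    have : 0 < W.card := lt_of_lt_of_le (by simp [Bd]) hW
    obtain ⟨a, ha⟩ := Finset.card_pos.mp this
    exact ⟨a, ha, a, ha, {a}, by intro v hv; simp at hv; subst hv; simp [ha], Pth.nil a⟩
  | succ j ih =>
    intro W F hW hdeg
    -- find x
    have hx : ∃ x ∈ D \ F, W.card * μ ≤ D.card * dg G W x := by
      by_contra hcon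
      push Not at hcon
      have h1 : W.card * μ ≤ ∑ y ∈ W, dg G (D \ F) y := by
        have := Finset.card_nsmul_le_sum W (fun y => dg G (D \ F) y) μ
          (fun y hy => by have := hdeg y hy; omega)
        simpa using this
      rw [sum_dg_comm] at h1
      have h0 : 0 < W.card := by
        refine lt_of_lt_of_le ?_ hW
        show 0 < (r + 1) * (Bd r j + 2 * j + 2)
        positivity
      have h2 : (D \ F).Nonempty := by
        by_contra h3
        rw [Finset.not_nonempty_iff_eq_empty] at h3
        rw [h3, Finset.sum_empty] at h1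
        have : 0 < W.card * μ := by positivity
        omega
      have h4 : ∑ x ∈ D \ F, D.card * dg G W x < ∑ x ∈ D \ F, W.card * μ :=
        Finset.sum_lt_sum_of_nonempty h2 hcon
      rw [← Finset.mul_sum, Finset.sum_const, smul_eq_mul] at h4
      have h5 : (D \ F).card ≤ D.card := Finset.card_le_card Finset.sdiff_subset
      have h6 : D.card * (W.card * μ) ≤ D.card * ∑ x ∈ D \ F, dg G W x :=
        Nat.mul_le_mul_left _ h1
      have h7 : (D \ F).card * (W.card * μ) ≤ D.card * (W.card * μ) :=
        Nat.mul_le_mul_right _ h5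
      omega
    obtain ⟨x, hxD, hx⟩ := hx
    set W1 := nb G W x with hW1
    have hW1c : Bd r j + 2 * j + 2 ≤ W1.card := by
      have h1 : W.card * μ ≤ r * μ * dg G W x := hx.trans (Nat.mul_le_mul_right _ hD)
      have h2 : W.card ≤ r * dg G W x := by
        have h3 : μ * W.card ≤ μ * (r * dg G W x) := by
          calc μ * W.card = W.card * μ := by ring
            _ ≤ r * μ * dg G W x := h1
            _ = μ * (r * dg G W x) := by ring
        exact Nat.le_of_mul_le_mul_left h3 hμ
      by_contra h4
      push Not at h4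
      have h5 : dg G W x = W1.card := rfl
      have h6 : r * dg G W x ≤ r * (Bd r j + 2 * j + 2) := by
        rw [h5]; exact Nat.mul_le_mul_left _ h4.le
      have h7 : (r + 1) * (Bd r j + 2 * j + 2) ≤ W.card := hW
      have h8 : (r + 1) * (Bd r j + 2 * j + 2) = r * (Bd r j + 2 * j + 2) +
        (Bd r j + 2 * j + 2) := by ring
      omega
    have hxW1 : x ∉ W1 := by
      intro h; exact (mem_nb.mp h).2.ne rfl
    obtain ⟨a, ha, b, hb, S, hS, hp⟩ := ih W1 (insert x F) (by omega) (by
      intro y hy
      have h1 := hdeg y (nb_subset _ _ hy)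
      have h2 := dg_sdiff_ge (G := G) (D \ F) {x} y
      have h3 : (D \ F) \ {x} = D \ insert x F := by
        ext v; simp only [Finset.mem_sdiff, Finset.mem_insert, Finset.mem_singleton]; tauto
      rw [h3] at h2
      simp only [Finset.card_singleton] at h2
      omega)
    have hxS : x ∉ S := by
      intro h
      rcases Finset.mem_union.mp (hS h) with h1 | h1
      · exact hxW1 h1
      · simp at h1
    have hSc : S.card = 2 * j + 1 := hp.card
    obtain ⟨c, hc, hcS⟩ : ∃ c ∈ W1, c ∉ S := by
      by_contra hcon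
      push Not at hcon
      have := Finset.card_le_card (show W1 ⊆ S from hcon)
      omega
    have hcx : G.Adj x c := (mem_nb.mp hc).2
    have hbx : G.Adj x b := (mem_nb.mp hb).2
    have p1 := hp.join hbx.symm (Pth.nil x) (by
      rw [Finset.disjoint_singleton_right]; exact hxS)
    have p2 := p1.join hcx (Pth.nil c) (by
      rw [Finset.disjoint_singleton_right, Finset.mem_union, Finset.mem_singleton]
      rintro (h | h)
      · exact hcS h
      · exact hcx.ne h.symm)
    refine ⟨a, nb_subset _ _ ha, c, nb_subset _ _ hc, _, ?_, p2.congr rfl rfl (by ring) rfl⟩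
    intro v hv
    simp only [Finset.mem_union, Finset.mem_singleton] at hv
    rcases hv with (hv | rfl) | rfl
    · rcases Finset.mem_union.mp (hS hv) with h1 | h1
      · exact Finset.mem_union_left _ (nb_subset _ _ h1)
      · refine Finset.mem_union_right _ ?_
        rw [Finset.mem_sdiff] at h1 ⊢
        exact ⟨h1.1, fun h => h1.2 (Finset.mem_insert_of_mem h)⟩
    · exact Finset.mem_union_right _ hxD
    · exact Finset.mem_union_left _ (nb_subset _ _ hc)

/-- Two vertices with many common neighbours are joined by paths of all small even lengths. -/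
theorem link {D : Finset V} {μ r J : ℕ} (hμ : 0 < μ) (hD : D.card ≤ r * μ) {w w' : V}
    (hne : w ≠ w') {W : Finset V} (hWD : W ⊆ D) (hW : Bd r J ≤ W.card)
    (hadj : ∀ y ∈ W, G.Adj w y ∧ G.Adj w' y) (hdeg : ∀ y ∈ W, μ + J + 2 ≤ dg G D y) {j : ℕ}
    (hj1 : 1 ≤ j) (hjJ : j ≤ J) : PIn G w w' (2 * j) (insert w (insert w' D)) := by
  obtain ⟨a, ha, b, hb, S, hS, hp⟩ := altpath (G := G) (D := D) hμ hD (j - 1) W {w, w'}
    ((Bd_mono r (by omega)).trans hW) (by
      intro y hy
      have h1 := hdeg y hy
      have h2 := dg_sdiff_ge (G := G) D {w, w'} y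
      have h3 : ({w, w'} : Finset V).card ≤ 2 := Finset.card_le_two
      omega)
  have hwS : ∀ u, u = w ∨ u = w' → u ∉ S := by
    intro u hu h
    rcases Finset.mem_union.mp (hS h) with h1 | h1
    · rcases hu with rfl | rfl
      · exact (hadj _ h1).1.ne rfl
      · exact (hadj _ h1).2.ne rfl
    · rw [Finset.mem_sdiff] at h1
      apply h1.2
      rcases hu with rfl | rfl <;> simp
  have p1 := (Pth.nil w).join (hadj a ha).1 hp (by
    rw [Finset.disjoint_singleton_left]; exact hwS _ (Or.inl rfl))
  have p2 := p1.join (hadj b hb).2.symm (Pth.nil w') (by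
    rw [Finset.disjoint_singleton_right, Finset.mem_union, Finset.mem_singleton]
    rintro (h | h)
    · exact hne h.symm
    · exact hwS _ (Or.inr rfl) h)
  refine ⟨_, ?_, p2.congr rfl rfl (by omega) rfl⟩
  intro v hv
  simp only [Finset.mem_union, Finset.mem_singleton] at hv
  simp only [Finset.mem_insert]
  rcases hv with (rfl | hv) | rfl
  · exact Or.inl rfl
  · rcases Finset.mem_union.mp (hS hv) with h1 | h1
    · exact Or.inr (Or.inr (hWD h1))
    · exact Or.inr (Or.inr (Finset.mem_sdiff.mp h1).1)
  · exact Or.inr (Or.inl rfl)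

end Pool.Agent.H34.OC
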