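import Pool.Agent.H34.OC.NC

/-!
# Choice of the constants
-/

set_option autoImplicit false

namespace Pool.Agent.H34.OC

theorem num_mk {g q r J b K d e μ0 L1 : ℕ} (hg : 5 ≤ g) (hK : K = 800000 * g) (hq : q = g * K)
    (hr : r = 4 * q) (hJ : J = 2 * r ^ 3) (hb : b = 80 * g) (he : e = d / K) (hμ : μ0 = d / 20)
    (hbig : 100 * (r ^ 2 * (Bd r J + L1 + b + 2) + J + r * b + 100) ≤ e) :
    Num (g * d) d e r J (2 * r ^ 2) b μ0 ∧
      g * d + r ^ 2 * (Bd r J + L1 + 2) < r * e := by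
  have hKpos : 0 < K := by omega
  have hq1 : 1 ≤ q := by rw [hq]; exact Nat.mul_pos (by omega) hKpos
  have hr4 : 4 ≤ r := by omega
  have he1 : 1 ≤ e := by omega
  have hKe : K * e ≤ d := by rw [he]; exact Nat.mul_div_le d K
  have hKe2 : d < K * (e + 1) := by
    rw [he]; exact Nat.lt_mul_div_succ d hKpos
  have hN : g * d ≤ q * (e + 1) := by
    have := Nat.mul_le_mul_left g hKe2.le
    calc g * d ≤ g * (K * (e + 1)) := this
      _ = q * (e + 1) := by rw [hq]; ring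
  have hN2 : g * d ≤ 2 * (q * e) := by
    have : q * (e + 1) = q * e + q := by ring
    have h2 : q ≤ q * e := Nat.le_mul_of_pos_right _ he1
    omega
  have hre : r * e = 4 * (q * e) := by rw [hr]; ring
  have hNr : g * d ≤ r * e := by omega
  have hr2 : r ^ 2 = 16 * q * q := by rw [hr]; ring
  have hr2pos : 1 ≤ r ^ 2 := Nat.one_le_pow _ _ (by omega)
  have hrr2 : r ≤ r ^ 2 := by
    rw [pow_two]; exact Nat.le_mul_of_pos_right _ (by omega)
  have hBdpos : 1 ≤ Bd r J := Bd_mono r (Nat.zero_le J)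
  have hX : r ^ 2 * (Bd r J + L1 + b + 2) =
    r ^ 2 * Bd r J + r ^ 2 * L1 + r ^ 2 * b + r ^ 2 * 2 := by ring
  have hX2 : r ^ 2 * (Bd r J + L1 + 2) = r ^ 2 * Bd r J + r ^ 2 * L1 + r ^ 2 * 2 := by ring
  have hX3 : r ^ 2 * (Bd r J + 2) = r ^ 2 * Bd r J + r ^ 2 * 2 := by ring
  have hX4 : r ^ 2 * (Bd r J + b) = r ^ 2 * Bd r J + r ^ 2 * b := by ring
  have hqe : e ≤ q * e := Nat.le_mul_of_pos_left _ hq1
  have hw2 : 4 * e ≤ μ0 := by
    rw [hμ, Nat.le_div_iff_mul_le (by norm_num)]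
    have : 80 * e ≤ K * e := Nat.mul_le_mul_right _ (by omega)
    omega
  have hμ1 : 20 * μ0 ≤ d := by rw [hμ]; exact Nat.mul_div_le d 20
  have hμ2 : d ≤ 20 * μ0 + 19 := by rw [hμ]; omega
  have hgd : g * d ≤ 20 * (g * μ0) + 19 * g := by
    have := Nat.mul_le_mul_left g hμ2
    calc g * d ≤ g * (20 * μ0 + 19) := this
      _ = _ := by ring
  have hrq : q ≤ r := by omega
  have hgq : g ≤ q := by rw [hq]; exact Nat.le_mul_of_pos_right _ hKpos
  refine ⟨⟨he1, by omega, hNr, by omega, ?_, ?_, ?_, ?_, ?_, hμ1, hw2, ?_, ?_, ?_, ?_⟩, ?_⟩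
  · rw [hJ]; nlinarith [Nat.one_le_pow 3 r (by omega)]
  · -- cC
    have : r * (4 * e) = 4 * (r * e) := by ring
    omega
  · -- c1
    intro m hm
    set t := m / (2 * J) with ht
    have h1 : t * (2 * J) ≤ m := Nat.div_mul_le_self m (2 * J)
    have h2 : r * (4 * r ^ 2 * t) ≤ r * e := by
      calc r * (4 * r ^ 2 * t) = t * (2 * J) := by rw [hJ]; ring
        _ ≤ r * e := by omega
    have h3 : 4 * r ^ 2 * t ≤ e := Nat.le_of_mul_le_mul_left h2 (by omega)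
    have h4 : (t + 1) * (2 * r) * (g * d) ≤ (t + 1) * (2 * r) * (r * e) :=
      Nat.mul_le_mul_left _ hNr
    have h5 : (t + 1) * (2 * r) * (r * e) = 2 * r ^ 2 * t * e + 2 * r ^ 2 * e := by ring
    have h6 : 2 * (2 * r ^ 2 * t * e) ≤ e * e := by
      calc 2 * (2 * r ^ 2 * t * e) = (4 * r ^ 2 * t) * e := by ring
        _ ≤ e * e := Nat.mul_le_mul_right _ h3
    have h7 : (m + 1) * (r + b) ≤ r * e * (r + b) := Nat.mul_le_mul_right _ (by omega)
    have h8 : r * e * (r + b) = (r ^ 2 + r * b) * e := by ring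
    have h9 : 2 * ((2 * r ^ 2 + (r ^ 2 + r * b)) * e) ≤ e * e := by
      rw [← mul_assoc]
      apply Nat.mul_le_mul_right
      have : r ^ 2 * 2 ≤ r ^ 2 * (Bd r J + L1 + b + 2) := Nat.mul_le_mul_left _ (by omega)
      omega
    have h10 : 2 * r ^ 2 * e + (r ^ 2 + r * b) * e = (2 * r ^ 2 + (r ^ 2 + r * b)) * e := by ring
    have h11 : e ^ 2 = e * e := by ring
    omega
  · -- c2
    intro m δ hδ hm hmδ
    set t := m / (2 * J) with ht
    have h1 : t * (2 * J) ≤ m := Nat.div_mul_le_self m (2 * J)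
    have h2 : 2 * r ^ 2 * t ≤ m := by
      have : 2 * r ^ 2 * t ≤ 2 * r ^ 2 * t * (2 * r) := Nat.le_mul_of_pos_right _ (by omega)
      have h3 : 2 * r ^ 2 * t * (2 * r) = t * (2 * J) := by rw [hJ]; ring
      omega
    have h4 : (t + 1) * (2 * r) * (g * d) ≤ (t + 1) * (2 * r) * (r * e) :=
      Nat.mul_le_mul_left _ hNr
    have h5 : (t + 1) * (2 * r) * (r * e) = 2 * r ^ 2 * t * e + 2 * r ^ 2 * e := by ring
    have h6 : 2 * r ^ 2 * t * e ≤ (m + 1) * e := Nat.mul_le_mul_right _ (by omega)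
    have h7 : 2 * r ^ 2 * e ≤ (m + 1) * e := Nat.mul_le_mul_right _ (by omega)
    have h8 : (m + 1) * (r + b) ≤ (m + 1) * e := by
      apply Nat.mul_le_mul_left
      have : r ^ 2 * 2 ≤ r ^ 2 * (Bd r J + L1 + b + 2) := Nat.mul_le_mul_left _ (by omega)
      have h9 : b ≤ r * b := Nat.le_mul_of_pos_left _ (by omega)
      omega
    have h9 : 16 * e ≤ K * e := Nat.mul_le_mul_right _ (by omega)
    have h10 : (m + 1) * (4 * e) ≤ (m + 1) * (δ - (m + 1)) := Nat.mul_le_mul_left _ (by omega)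
    have h11 : (m + 1) * (4 * e) = 4 * ((m + 1) * e) := by ring
    have h12 : 1 ≤ (m + 1) * e := Nat.mul_pos (by omega) he1
    omega
  · -- m1J
    rw [hJ]
    have : r ^ 3 = r ^ 2 * r := by ring
    have h2 : r ^ 2 * 4 ≤ r ^ 2 * r := Nat.mul_le_mul_left _ hr4
    omega
  · -- w3
    refine ⟨40 * g, by omega, ?_⟩
    have h1 : 40 * g * μ0 = 40 * (g * μ0) := by ring
    have h2 : (40 * g) ^ 2 * 3 = g * (4800 * g) := by ring
    have h3 : g * (4800 * g + 19) < g * (20 * μ0) := by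
      apply Nat.mul_lt_mul_of_pos_left _ (by omega)
      have h4 : r ^ 2 * 2 ≤ r ^ 2 * (Bd r J + L1 + b + 2) := Nat.mul_le_mul_left _ (by omega)
      omega
    have h4 : g * (4800 * g + 19) = g * (4800 * g) + 19 * g := by ring
    have h5 : g * (20 * μ0) = 20 * (g * μ0) := by ring
    omega
  · -- w4
    have h1 : b * (μ0 - e) * 4 ≥ b * (3 * μ0) := by
      rw [mul_assoc]
      exact Nat.mul_le_mul_left _ (by omega)
    have h2 : b * (3 * μ0) = 240 * (g * μ0) := by rw [hb]; ring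
    have h3 : b ^ 2 * (r + 2) = g * (6400 * g * (r + 2)) := by rw [hb]; ring
    have h4 : g * (4 * (6400 * g * (r + 2)) + 4 * 19) < g * (160 * μ0) := by
      apply Nat.mul_lt_mul_of_pos_left _ (by omega)
      have h5 : 6400 * g * (r + 2) ≤ 80 * (r * b) + 160 * b := by rw [hb]; nlinarith
      have h6 : b ≤ r * b := Nat.le_mul_of_pos_left _ (by omega)
      omega
    have h5 : g * (4 * (6400 * g * (r + 2)) + 4 * 19) = 4 * (g * (6400 * g * (r + 2))) + 4 * (19 * g) := by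
      ring
    have h6 : g * (160 * μ0) = 160 * (g * μ0) := by ring
    omega
  · -- w5
    omega
  · -- big
    have : 10000 * b * e = K * e := by rw [hb, hK]; ring
    omega
  · omega

/-- The constants. -/
theorem num_exists {g : ℕ} (hg : 5 ≤ g) (L1 : ℕ) : ∃ r J m1 b : ℕ, 5 ≤ m1 ∧ g ≤ J ∧ ∀ C : ℕ, ∃ d0, ∀ d, d0 ≤ d →
    ∃ e μ0, Num (g * d) d e r J m1 b μ0 ∧
      g * d + r ^ 2 * (Bd r J + L1 + 2) < r * e ∧ C ≤ e := by
  obtain ⟨K, hK⟩ : ∃ K, K = 800000 * g := ⟨_, rfl⟩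
  obtain ⟨q, hq⟩ : ∃ q, q = g * K := ⟨_, rfl⟩
  obtain ⟨r, hr⟩ : ∃ r, r = 4 * q := ⟨_, rfl⟩
  obtain ⟨J, hJ⟩ : ∃ J, J = 2 * r ^ 3 := ⟨_, rfl⟩
  obtain ⟨b, hb⟩ : ∃ b, b = 80 * g := ⟨_, rfl⟩
  have hKpos : 0 < K := by omega
  refine ⟨r, J, 2 * r ^ 2, b, ?_, ?_, ?_⟩
  · have hq1 : 1 ≤ q := by rw [hq]; exact Nat.mul_pos (by omega) hKpos
    have : 4 ≤ r := by omega
    have : r * 4 ≤ r * r := Nat.mul_le_mul_left _ this
    have h2 : r ^ 2 = r * r := by ring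
    omega
  · have hgq : g ≤ q := by rw [hq]; exact Nat.le_mul_of_pos_right _ hKpos
    have h1 : r ≤ r ^ 3 := Nat.le_self_pow (by norm_num) r
    omega
  intro C
  refine ⟨K * (C + 100 * (r ^ 2 * (Bd r J + L1 + b + 2) + J + r * b + 100)), ?_⟩
  intro d hd
  have h1 : C + 100 * (r ^ 2 * (Bd r J + L1 + b + 2) + J + r * b + 100) ≤ d / K := by
    rw [Nat.le_div_iff_mul_le hKpos, mul_comm]; exact hd
  obtain ⟨e, he⟩ : ∃ e, e = d / K := ⟨_, rfl⟩
  obtain ⟨μ0, hμ⟩ : ∃ m, m = d / 20 := ⟨_, rfl⟩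
  rw [← he] at h1
  have h2 := num_mk (L1 := L1) hg hK hq hr hJ hb he hμ
    ((Nat.le_add_left _ _).trans h1)
  exact ⟨e, μ0, h2.1, h2.2, (Nat.le_add_right _ _).trans h1⟩

end Pool.Agent.H34.OC
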