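import Pool.Agent.H34.OC.EAR2
import Pool.Agent.H34.OC.EA1
import Pool.Agent.H34.OC.EA2
import Pool.Agent.H34.OC.EB1
import Pool.Agent.H34.OC.EB2

/-!
# The induction step: a cycle of odd length `l` gives one of length `l + 2`
-/

set_option autoImplicit false

namespace Pool.Agent.H34.OC

variable {V : Type*} [DecidableEq V] {G : SimpleGraph V}

/-- changing the parametrisation of the cycle -/
theorem Base.transfer [Fintype V] {l d z0 : ℕ} {x y : ℕ → V} {R Z F : Finset V}
    (h : Base G l d z0 x R Z F) (hy : CSeq G l y) (h1 : ∀ t, ∃ t', y t = x t')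
    (h2 : ∀ t, ∃ t', x t = y t') : Base G l d z0 y R Z F ∧
      img y 0 (l - 1) = img x 0 (l - 1) := by
  refine ⟨⟨⟨hy, h.ctx.odd, h.ctx.no, h.ctx.le, h.ctx.deg, ?_⟩, h.ll, h.Zc, h.Fc, ?_⟩, ?_⟩
  · intro v
    rw [h.ctx.hR]
    constructor
    · intro h3 t
      obtain ⟨t', ht'⟩ := h1 t
      rw [ht']; exact h3 t'
    · intro h3 t
      obtain ⟨t', ht'⟩ := h2 t
      rw [ht']; exact h3 t'
  · intro t ht
    obtain ⟨t', ht'⟩ := h1 t
    rw [ht'] at ht ⊢
    exact h.typ t' ht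
  · apply Finset.Subset.antisymm
    · intro v hv
      obtain ⟨t, _, _, rfl⟩ := mem_img.mp hv
      obtain ⟨t', ht'⟩ := h1 t
      rw [ht']; exact h.ctx.cs.mem_img_all t'
    · intro v hv
      obtain ⟨t, _, _, rfl⟩ := mem_img.mp hv
      obtain ⟨t', ht'⟩ := h2 t
      rw [ht']; exact hy.mem_img_all t'

theorem Base.shift [Fintype V] {l d z0 : ℕ} {x : ℕ → V} {R Z F : Finset V}
    (h : Base G l d z0 x R Z F) (a : ℕ) : Base G l d z0 (fun t => x (t + a)) R Z F ∧
      img (fun t => x (t + a)) 0 (l - 1) = img x 0 (l - 1) := by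
  have hl := h.ctx.cs.three
  refine h.transfer (h.ctx.cs.shift a) (fun t => ⟨t + a, rfl⟩) (fun t => ⟨t + (l - 1) * a, ?_⟩)
  rw [h.ctx.cs.eq_iff]
  have e : t + (l - 1) * a + a = t + l * a := by
    have h3 : l * a = (l - 1) * a + a := by
      conv_lhs => rw [show l = (l - 1) + 1 by omega]
      ring
    omega
  rw [e, Nat.add_mul_mod_self_left]

/-- the reflected cycle -/
theorem Base.reflect [Fintype V] {l d z0 : ℕ} {x : ℕ → V} {R Z F : Finset V}
    (h : Base G l d z0 x R Z F) : ∃ y : ℕ → V, Base G l d z0 y R Z F ∧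
      img y 0 (l - 1) = img x 0 (l - 1) ∧ y 0 = x 0 ∧ ∀ s, s ≤ l → y (l - s) = x s := by
  have hl := h.ctx.cs.three
  have hcs := h.ctx.cs
  have key : ∀ t, (l - 1) * ((l - 1) * t) % l = t % l := by
    intro t
    obtain ⟨m, rfl⟩ : ∃ m, l = m + 2 := ⟨l - 2, by omega⟩
    have h1 : m + 2 - 1 = m + 1 := by omega
    rw [h1]
    have h2 : (m + 1) * ((m + 1) * t) = t + (m + 2) * (m * t) := by ring
    rw [h2, Nat.add_mul_mod_self_left]
  obtain ⟨h1, h2⟩ := h.transfer (y := fun t => x ((l - 1) * t)) hcs.reflect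
    (fun t => ⟨(l - 1) * t, rfl⟩) (fun t => ⟨(l - 1) * t, by
      show x t = x ((l - 1) * ((l - 1) * t))
      rw [hcs.eq_iff, key]⟩)
  refine ⟨_, h1, h2, by simp, ?_⟩
  intro s hs
  show x ((l - 1) * (l - s)) = x s
  rw [hcs.eq_iff]
  have h3 : (l - 1) * (l - s) ≡ s [MOD l] := by
    apply Nat.ModEq.add_right_cancel' (l - s)
    have h4 : (l - 1) * (l - s) + (l - s) = l * (l - s) := by
      conv_rhs => rw [show l = (l - 1) + 1 by omega]
      rw [add_mul, one_mul]
      have : l - 1 + 1 - s = l - s := by omega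
      rw [this]
    have h5 : s + (l - s) = l * 1 := by omega
    rw [h4, h5]
    exact (Nat.modEq_zero_iff_dvd.mpr (dvd_mul_right _ _)).trans
      (Nat.modEq_zero_iff_dvd.mpr (dvd_mul_right _ _)).symm
  exact h3

/-- case Ea, the arc of the right parity -/
theorem Base.ea [Fintype V] {l d z0 s q0 Q0 E : ℕ} {x : ℕ → V} {R Z F : Finset V}
    (h : Base G l d z0 x R Z F) (hs0 : 0 < s) (hs : s < l) (hE : 100 * (z0 + Q0 + 100) ≤ E)
    (hz0 : 1 ≤ z0) (hd : 100 * z0 * E ≤ d) (hq0 : q0 ≤ Q0) (hpar : (l - s) % 2 = q0 % 2)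
    (hear : ∀ q, q % 2 = q0 % 2 → q0 ≤ q → q + E ≤ 2 * d → Ear G R (x 0) (x s) q) : False := by
  have hodd := h.ctx.odd
  have hle := h.ctx.le
  have hl := h.ctx.cs.three
  have hdE : 100 * E ≤ d := by
    have : 100 * 1 * E ≤ 100 * z0 * E := Nat.mul_le_mul_right _ (Nat.mul_le_mul_left _ hz0)
    omega
  have hdis : Disjoint (img x 0 (l - 1)) R := by
    rw [Finset.disjoint_left]
    intro v hv hvR
    obtain ⟨t, _, _, rfl⟩ := mem_img.mp hv
    exact ((h.ctx.hR _).mp hvR) t rfl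
  have hno : ∀ p, p % 2 = s % 2 → E ≤ p → p + Q0 ≤ l →
      ¬ PIn G (x 0) (x s) p (img x 0 (l - 1)) := by
    intro p hp1 hp2 hp3 hp
    have h1 := (hear (l - p) (by omega) (by omega) (by omega)).cyc hp hdis (by omega)
    have e : p + (l - p) + 2 = l + 2 := by omega
    rw [e] at h1
    exact h.ctx.no h1
  have harc : PIn G (x 0) (x s) s (img x 0 (l - 1)) := by
    have := (h.ctx.cs.pseq hs).pin (Nat.zero_le s) le_rfl
    exact this.mono (img_mono le_rfl (by omega))
  by_cases hc : E ≤ s ∧ s + Q0 ≤ l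
  · exact hno s rfl hc.1 hc.2 harc
  · rcases Nat.lt_or_ge s E with hsE | hsE
    · -- the short arc has the right parity
      obtain ⟨y, hy, himg, hy0, hys⟩ := h.reflect
      have e1 := hys s hs.le
      refine hy.ea2 (s := l - s) (Q0 := Q0) (E := E) (by omega) (by omega) hE hz0 hd ?_
      intro p hp1 hp2 hp3 hp
      rw [hy0, e1, himg] at hp
      exact hno p (by omega) hp2 hp3 hp
    · exact h.ea1 (Q0 := Q0) (E := E) hs (by omega) (by omega) hdE hno

/-- case Eb, the first arc is the longer one -/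
theorem Base.eb [Fintype V] {l d z0 s E : ℕ} {x : ℕ → V} {R Z F : Finset V}
    (h : Base G l d z0 x R Z F) (hs : s < l) (hE : 100 * (z0 + 100) ≤ E) (hlong : l ≤ 2 * s)
    (hz0 : 1 ≤ z0) (hd : 100 * z0 * E ≤ d)
    (hear : ∀ q, E ≤ q → q + E ≤ d → Ear G R (x 0) (x s) q) : False := by
  have hodd := h.ctx.odd
  have hle := h.ctx.le
  have hl := h.ctx.cs.three
  have hdE : 100 * E ≤ d := by
    have : 100 * 1 * E ≤ 100 * z0 * E := Nat.mul_le_mul_right _ (Nat.mul_le_mul_left _ hz0)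
    omega
  have hdis : Disjoint (img x 0 (l - 1)) R := by
    rw [Finset.disjoint_left]
    intro v hv hvR
    obtain ⟨t, _, _, rfl⟩ := mem_img.mp hv
    exact ((h.ctx.hR _).mp hvR) t rfl
  have hno : ∀ p, p + E ≤ l → l + E ≤ p + d →
      ¬ PIn G (x 0) (x s) p (img x 0 (l - 1)) := by
    intro p hp1 hp2 hp
    have h1 := (hear (l - p) (by omega) (by omega)).cyc hp hdis (by omega)
    have e : p + (l - p) + 2 = l + 2 := by omega
    rw [e] at h1
    exact h.ctx.no h1
  have harc : PIn G (x 0) (x s) s (img x 0 (l - 1)) := by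
    have := (h.ctx.cs.pseq hs).pin (Nat.zero_le s) le_rfl
    exact this.mono (img_mono le_rfl (by omega))
  rcases Nat.lt_or_ge l (s + E) with h1 | h1
  · exact h.eb1 hs h1 hE hdE hno
  · by_cases h2 : l + E ≤ s + d
    · exact hno s h1 h2 harc
    · obtain ⟨y, hy, himg, hy0, hys⟩ := h.reflect
      have e1 := hys s hs.le
      refine hy.eb2 (s := l - s) (E := E) (by omega) (by omega) (by omega) hE hz0 hd ?_
      intro p hp1 hp2 hp
      rw [hy0, e1, himg] at hp
      exact hno p hp1 hp2 hp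

theorem CSeq.exists_shift {l : ℕ} {x : ℕ → V} (hx : CSeq G l x) {α β : ℕ} (hα : α ≤ l - 1)
    (hβ : β ≤ l - 1) (huv : x α ≠ x β) : ∃ s, 0 < s ∧ s < l ∧ x (s + α) = x β := by
  have hl := hx.three
  have hne : α ≠ β := by rintro rfl; exact huv rfl
  rcases Nat.lt_or_ge α β with h | h
  · exact ⟨β - α, by omega, by omega, by congr 1; omega⟩
  · refine ⟨β + l - α, by omega, by omega, ?_⟩
    have : β + l - α + α = β + l := by omega
    rw [this, hx.per]

/-- The induction step. -/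
theorem step [Fintype V] {l d N e r J m1 b μ0 Λ L1 : ℕ} (hn : Num N d e r J m1 b μ0)
    (hN : Fintype.card V ≤ N) (hdeg : ∀ v : V, d ≤ dg G Finset.univ v)
    (hl5 : 5 ≤ l) (hm1 : m1 + 1 ≤ l) (hodd : l % 2 = 1) (hle : l + 3 ≤ 2 * d)
    (hc : BConn G Λ) (h3 : Three V) (hL1 : L1 = (Λ + 2) ^ 2)
    (hbig : N + r ^ 2 * (Bd r J + L1 + 2) < r * e)
    (hbig2 : 100 * (7 * b + (L1 + 2 * J) + 100) ≤ 14 * e)
    (hRc : e + 1 + l ≤ Fintype.card V) (hcyc : HasCyc G l) : HasCyc G (l + 2) := by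
  classical
  by_contra hno
  obtain ⟨x, hx⟩ := hcyc.cseq
  have hl := hx.three
  have hxc := ((hx.pseq (show l - 1 < l by omega)).seg (Nat.zero_le _) le_rfl).card
  have hctx : Ctx G l d x (Finset.univ \ img x 0 (l - 1)) := by
    refine ⟨hx, hodd, hno, hle, hdeg, ?_⟩
    intro v
    rw [Finset.mem_sdiff]
    constructor
    · rintro ⟨_, h1⟩ t rfl
      exact h1 (hx.mem_img_all t)
    · intro h1
      refine ⟨Finset.mem_univ _, fun h2 => ?_⟩
      obtain ⟨t, _, _, ht⟩ := mem_img.mp h2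
      exact h1 t ht
  set R := Finset.univ \ img x 0 (l - 1) with hR
  have hRcard : e + 1 ≤ R.card := by
    have h9 : R.card + (img x 0 (l - 1)).card = Fintype.card V := by
      rw [hR, Finset.card_sdiff_add_card_eq_card (Finset.subset_univ _), Finset.card_univ]
    omega
  obtain ⟨Z, F, hB⟩ := hctx.base hn hN hl5 hm1
  have hbig3 := hn.big
  have hb1 := hn.b1
  obtain ⟨u, v, hu, hv, huv, hear⟩ := hctx.ear hn hN hl5 hc h3 hL1 (by omega) hbig hRcard
  obtain ⟨α, _, hα, rfl⟩ := mem_img.mp hu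
  obtain ⟨β, _, hβ, rfl⟩ := mem_img.mp hv
  -- shift so that the first end is at position zero
  obtain ⟨hB', himg⟩ := hB.shift α
  obtain ⟨s, hs0, hs, hsx⟩ := hx.exists_shift hα hβ huv
  set y : ℕ → V := fun t => x (t + α) with hy
  have hy0 : y 0 = x α := by simp [hy]
  have hys : y s = x β := hsx
  rw [← hy0, ← hys] at hear
  have hd : 100 * (7 * b) * (14 * e) ≤ d := by
    have : 100 * (7 * b) * (14 * e) = 9800 * b * e := by ring
    have h4 : 9800 * b * e ≤ 10000 * b * e := by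
      rw [mul_assoc, mul_assoc]
      exact Nat.mul_le_mul_right _ (by norm_num)
    omega
  rcases hear with ⟨q0, hq0, hear⟩ | hear
  · -- case Ea
    by_cases hpar : (l - s) % 2 = q0 % 2
    · exact hB'.ea hs0 hs hbig2 (by omega) hd hq0 hpar hear
    · obtain ⟨z, hz, _, hz0, hzs⟩ := hB'.reflect
      have e1 := hzs s hs.le
      refine hz.ea (s := l - s) (q0 := q0) (Q0 := L1 + 2 * J) (E := 14 * e) (by omega) (by omega)
        hbig2 (by omega) hd hq0 (by omega) ?_
      intro q h4 h5 h6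
      rw [hz0, e1]
      exact hear q h4 h5 h6
  · -- case Eb
    rcases Nat.lt_or_ge (2 * s) l with hsl | hsl
    · obtain ⟨z, hz, _, hz0, hzs⟩ := hB'.reflect
      have e1 := hzs s hs.le
      refine hz.eb (s := l - s) (E := 14 * e) (by omega) (by omega) (by omega) (by omega) hd ?_
      intro q h4 h5
      rw [hz0, e1]
      exact hear q h4 h5
    · exact hB'.eb (E := 14 * e) hs (by omega) hsl (by omega) hd hear

end Pool.Agent.H34.OC
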