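import Pool.Agent.H34.OC.SA3
import Pool.Agent.H34.OC.A3
import Pool.Agent.H34.OC.ST
import Pool.Agent.H34.OC.NUM
import Pool.Agent.H34.OC.Diam

/-!
# Main theorem
-/

set_option autoImplicit false

namespace Pool.Agent.H34.OC

theorem main_oc (k : ℕ) (hk : 3 ≤ k) (hodd : k % 2 = 1) : ∃ d0 : ℕ, ∀ (V : Type) [Fintype V]
    [DecidableEq V] (G : SimpleGraph V) (d : ℕ), d0 ≤ d →
    (∀ v : V, (G.induce ({v}ᶜ : Set V)).Connected) → ¬ G.Colorable 2 →
    (∀ v, d ≤ dg G Finset.univ v) → 2 * Fintype.card V ≤ (k + 2) * d →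
    (k + 2) * d < 2 * Fintype.card V + (k + 2) →
    (∀ s : ℕ, IsEmpty (G ≃g (SimpleGraph.cycleGraph (k + 2)).comap
            (Prod.fst : Fin (k + 2) × Fin s → Fin (k + 2)))) →
    ∀ l, l % 2 = 1 → k ≤ l → l + 1 ≤ 2 * d → HasCyc G l := by
  obtain ⟨g, hg⟩ : ∃ g, g = k + 2 := ⟨_, rfl⟩
  obtain ⟨Λ, hΛ⟩ : ∃ Λ, Λ = 3 * g + 2 := ⟨_, rfl⟩
  obtain ⟨L1, hL1⟩ : ∃ L1, L1 = (Λ + 2) ^ 2 := ⟨_, rfl⟩
  have hg5 : 5 ≤ g := by omega
  obtain ⟨r, J, m1, b, hm15, hgJ, hnum⟩ := num_exists hg5 L1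
  obtain ⟨M, hM⟩ : ∃ M, M = Bd r J + g := ⟨_, rfl⟩
  obtain ⟨A1, hA1⟩ : ∃ A1, A1 = (g + 1) * ((g + 1) ^ 2 * M + ((Λ + 2) ^ 2 + (2 * Λ + 1)) + 1) :=
    ⟨_, rfl⟩
  obtain ⟨A2, hA2⟩ : ∃ A2, A2 = 1000 * g ^ 7 * M := ⟨_, rfl⟩
  obtain ⟨d0, hd0⟩ := hnum (100 * (7 * b + (L1 + 2 * J) + 100) + A1 + A2 + 100 * g)
  refine ⟨d0, ?_⟩
  intro V _ _ G d hd hconn hcol hdeg h2n h2n' hiso
  rw [← hg] at h2n h2n'
  obtain ⟨e, μ0, hn, hbig, hC⟩ := hd0 d hd
  have hn1 := hn.big'
  have hcT := hn.cT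
  -- number of vertices
  obtain ⟨v0⟩ : Nonempty V := by
    by_contra hcon
    rw [not_nonempty_iff] at hcon
    exact hcol ⟨⟨fun v => (hcon.elim v), fun {v} => hcon.elim v⟩⟩
  have hcard : d ≤ Fintype.card V := by
    have h4 := hdeg v0
    have h5 := dg_le (G := G) Finset.univ v0
    rw [Finset.card_univ] at h5
    omega
  have h3 : Three V := by
    intro a c
    by_contra hcon
    push Not at hcon
    have h4 : (Finset.univ : Finset V) ⊆ {a, c} := by
      intro v _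
      rw [Finset.mem_insert, Finset.mem_singleton]
      by_cases hva : v = a
      · exact Or.inl hva
      · exact Or.inr (hcon v hva)
    have h5 := Finset.card_le_card h4
    rw [Finset.card_univ] at h5
    have h6 : ({a, c} : Finset V).card ≤ 2 := Finset.card_le_two
    omega
  have hNV : Fintype.card V ≤ g * d := by
    have : 1 * d ≤ g * d := Nat.mul_le_mul_right _ (by omega)
    omega
  have hgd : 5 * d ≤ 2 * Fintype.card V + 5 := by
    by_contra hcon
    push Not at hcon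
    have h4 : g * d + 5 = (g - 5) * d + 5 * d + 5 := by
      have : g = (g - 5) + 5 := by omega
      conv_lhs => rw [this]
      ring
    have h5 : (g - 5) * 1 ≤ (g - 5) * d := Nat.mul_le_mul_left _ (by omega)
    omega
  have hBC : BConn G Λ := by
    rw [hΛ]
    refine bconn_of hconn (δ := d - 1) (r := g) ?_ ?_
    · intro v; have := hdeg v; omega
    · have h4 : (g + 1) * (d - 1) + (g + 1) = g * d + d := by
        have : d = (d - 1) + 1 := by omega
        conv_rhs => rw [this]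
        ring
      omega
  -- the short cycles
  have hshort : ∃ m, m + 4 ≤ g ∧ m % 2 = 1 ∧ ∀ j, 1 ≤ j → j ≤ J → HasCyc G (m + 2 * j) := by
    rcases stageA (M := M) hg5 (by omega) hdeg h2n hBC h3 hcol (by omega) (by rw [← hA1]; omega)
      with ⟨u, v, m, S, hL, hp, hm2, hm⟩ | ⟨hSA, c, hc⟩
    · refine ⟨m, hm, hm2, ?_⟩
      intro j hj1 hjJ
      refine cyc_of_linked (J := J) (μ := e) (r := r) hL hp hn.epos (hNV.trans hn.cr) ?_
        (by omega) (by omega) hj1 hjJ
      intro y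
      have := hdeg y
      omega
    · exfalso
      have : NeZero g := ⟨by omega⟩
      obtain ⟨s, hs⟩ := hSA.blowup hg hc (by rw [← hA2]; omega)
      exact (hiso s).false hs.some
  obtain ⟨m, hm4, hmodd, hshort⟩ := hshort
  have hm1J := hn.m1J
  -- induction
  intro l
  induction l using Nat.strong_induction_on with
  | _ l ih =>
    intro hl2 hkl hld
    rcases Nat.lt_or_ge (m + 2 * J) l with hlt | hge
    · have h4 : HasCyc G (l - 2) := ih (l - 2) (by omega) (by omega) (by omega) (by omega)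
      have h5 := step (l := l - 2) (L1 := L1) hn hNV hdeg (by omega) (by omega) (by omega)
        (by omega) hBC h3 hL1 hbig (by omega) (by omega) h4
      have : l - 2 + 2 = l := by omega
      rwa [this] at h5
    · have h4 := hshort ((l - m) / 2) (by omega) (by omega)
      have : m + 2 * ((l - m) / 2) = l := by omega
      rwa [this] at h4

end Pool.Agent.H34.OC
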