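import Pool.Agent.H34.OC.W2

/-!
# Growing a path inside a set of large minimum degree
-/

set_option autoImplicit false

namespace Pool.Agent.H34.OC

variable {V : Type*} [DecidableEq V] {G : SimpleGraph V}

/-- crossing move on a path -/
theorem PSeq.cross {m : ℕ} {x : ℕ → V} (h : PSeq G m x) {i j : ℕ} {w w' : V} (hij : i < j)
    (hj : j + 1 ≤ m) {D : Finset V} (hD : ∀ t, t ≤ m → x t ∉ D) (hw : w ∈ D) (hw' : w' ∈ D)
    (hne : w ≠ w') (h1 : G.Adj (x i) w) (h2 : G.Adj (x j) w)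
    (h3 : G.Adj (x (i + 1)) w') (h4 : G.Adj (x (j + 1)) w') :
    PIn G (x 0) (x m) (m + 2) (img x 0 m ∪ D) := by
  have hwy : ∀ a b, b ≤ m → w ∉ img x a b := by
    intro a b hb hv; obtain ⟨t, _, h5, ht⟩ := mem_img.mp hv; exact hD t (by omega) (ht ▸ hw)
  have hwy' : ∀ a b, b ≤ m → w' ∉ img x a b := by
    intro a b hb hv; obtain ⟨t, _, h5, ht⟩ := mem_img.mp hv; exact hD t (by omega) (ht ▸ hw')
  have p1 := (h.pin (Nat.zero_le i) (by omega)).join h1 (PIn.single w) (by
    rw [Finset.disjoint_singleton_right]; exact hwy _ _ (by omega))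
  have p2 := p1.join h2.symm (h.pin (show i + 1 ≤ j by omega) (by omega)).rev (by
    rw [Finset.disjoint_union_left, Finset.disjoint_singleton_left]
    exact ⟨h.img_disj (by omega) (by omega), hwy _ _ (by omega)⟩)
  have p3 := p2.join h3 (PIn.single w') (by
    rw [Finset.disjoint_singleton_right]
    simp only [Finset.mem_union, Finset.mem_singleton]
    rintro ((h5 | h5) | h5)
    · exact hwy' _ _ (by omega) h5
    · exact hne h5.symm
    · exact hwy' _ _ (by omega) h5)
  have p4 := p3.join h4.symm (h.pin hj le_rfl) (by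
    rw [Finset.disjoint_union_left, Finset.disjoint_union_left, Finset.disjoint_union_left,
      Finset.disjoint_singleton_left, Finset.disjoint_singleton_left]
    exact ⟨⟨⟨h.img_disj (by omega) le_rfl, hwy _ _ le_rfl⟩, h.img_disj (by omega) le_rfl⟩,
      hwy' _ _ le_rfl⟩)
  refine p4.congr rfl rfl (by omega) ?_
  intro v hv
  simp only [Finset.mem_union, Finset.mem_singleton] at hv ⊢
  rcases hv with (((hv | rfl) | hv) | rfl) | hv
  · exact Or.inl (img_mono le_rfl (by omega) hv)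
  · exact Or.inr hw
  · exact Or.inl (img_mono (by omega) (by omega) hv)
  · exact Or.inr hw'
  · exact Or.inl (img_mono (by omega) le_rfl hv)

open Classical in
/-- positions on a path adjacent to `w` -/
noncomputable def pos (G : SimpleGraph V) (m : ℕ) (x : ℕ → V) (w : V) : Finset ℕ :=
  (Finset.range (m + 1)).filter (fun i => G.Adj (x i) w)

theorem mem_pos {m : ℕ} {x : ℕ → V} {w : V} {i : ℕ} : i ∈ pos G m x w ↔ i ≤ m ∧ G.Adj (x i) w := by
  simp [pos, Nat.lt_succ_iff]

theorem PSeq.card_pos {m : ℕ} {x : ℕ → V} (h : PSeq G m x) (w : V) :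
    (pos G m x w).card = dg G (img x 0 m) w := by
  rw [dg]
  refine Finset.card_bij (fun a _ => x a) ?_ ?_ ?_
  · intro a ha
    rw [mem_pos] at ha
    rw [mem_nb]
    exact ⟨mem_img_self (Nat.zero_le _) ha.1, ha.2.symm⟩
  · intro a ha b hb hab
    exact h.inj _ _ (mem_pos.mp ha).1 (mem_pos.mp hb).1 hab
  · intro v hv
    obtain ⟨h1, h2⟩ := mem_nb.mp hv
    obtain ⟨t, _, ht, rfl⟩ := mem_img.mp h1
    exact ⟨t, mem_pos.mpr ⟨ht, h2.symm⟩, rfl⟩

theorem PSeq.pos_sum {m : ℕ} {x : ℕ → V} (h : PSeq G m x) {D : Finset V}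
    (hD : ∀ t, t ≤ m → x t ∉ D) (hno : ¬ PIn G (x 0) (x m) (m + 2) (img x 0 m ∪ D)) {w w' : V}
    (hw : w ∈ D) (hw' : w' ∈ D) (hne : w ≠ w') :
    dg G (img x 0 m) w + dg G (img x 0 m) w' ≤ m + 3 := by
  rw [← h.card_pos, ← h.card_pos]
  have h1 : (((pos G m x w).image (· + 1)) ∩ pos G m x w').card ≤ 1 := by
    by_contra hcon
    push Not at hcon
    obtain ⟨a, ha, b, hb, hab⟩ := Finset.one_lt_card.mp hcon
    have key : ∀ a ∈ ((pos G m x w).image (· + 1)) ∩ pos G m x w',
        ∀ b ∈ ((pos G m x w).image (· + 1)) ∩ pos G m x w', a < b → False := by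
      intro a ha b hb hlt
      rw [Finset.mem_inter, Finset.mem_image, mem_pos] at ha hb
      obtain ⟨⟨i, hi, rfl⟩, ha1, ha2⟩ := ha
      obtain ⟨⟨j, hj, rfl⟩, hb1, hb2⟩ := hb
      rw [mem_pos] at hi hj
      exact hno (h.cross (by omega) (by omega) hD hw hw' hne hi.2 hj.2 ha2 hb2)
    rcases Nat.lt_or_ge a b with h2 | h2
    · exact key a ha b hb h2
    · exact key b hb a ha (by omega)
  have h2 := Finset.card_union_add_card_inter ((pos G m x w).image (· + 1)) (pos G m x w')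
  have h3 : ((pos G m x w).image (· + 1)).card = (pos G m x w).card :=
    Finset.card_image_of_injective _ (add_left_injective 1)
  have h4 : ((pos G m x w).image (· + 1) ∪ pos G m x w').card ≤ m + 2 := by
    have : (pos G m x w).image (· + 1) ∪ pos G m x w' ⊆ Finset.range (m + 2) := by
      intro i hi
      rw [Finset.mem_union, Finset.mem_image, mem_pos] at hi
      rw [Finset.mem_range]
      rcases hi with ⟨j, hj, rfl⟩ | hi
      · rw [mem_pos] at hj; omega
      · omega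
    have := Finset.card_le_card this
    rwa [Finset.card_range] at this
  omega

/-- one step of the growth lemma -/
theorem px_step {U : Finset V} {δ : ℕ} (hU : ∀ v ∈ U, δ ≤ dg G U v) {m : ℕ} {x : ℕ → V}
    (hx : PSeq G m x) (hxU : ∀ t, t ≤ m → x t ∈ U) {μ r J T h : ℕ} (hμ : 0 < μ)
    (hUc : U.card ≤ r * μ) (hT : μ + J + 2 ≤ T) (hJ : 1 ≤ J)
    (hcount : U.card + h ^ 2 * (Bd r J + 1) < h * T)
    (hm : m + 2 + 2 * T ≤ 2 * δ)
    (hno : ¬ PIn G (x 0) (x m) (m + 2) U) :
    ∑ i ∈ Finset.range (m + 1), dg G (U \ img x 0 m) (x i) ≤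
      (m / (2 * J) + 1) * (2 * h) * U.card + (m + 1) * (h + 1) := by
  have hDU : U \ img x 0 m ⊆ U := Finset.sdiff_subset
  have hDc : (U \ img x 0 m).card ≤ U.card := Finset.card_le_card hDU
  have himg : img x 0 m ⊆ U := by
    intro v hv; obtain ⟨t, _, ht, rfl⟩ := mem_img.mp hv; exact hxU t ht
  have hD : ∀ t, t ≤ m → x t ∉ U \ img x 0 m := by
    intro t ht hv
    exact (Finset.mem_sdiff.mp hv).2 (mem_img_self (Nat.zero_le _) ht)
  have hUe : img x 0 m ∪ (U \ img x 0 m) = U := Finset.union_sdiff_of_subset himg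
  have hno' : ¬ PIn G (x 0) (x m) (m + 2) (img x 0 m ∪ (U \ img x 0 m)) := by rwa [hUe]
  have hb : (Dm G (U \ img x 0 m) T).card ≤ 1 := by
    by_contra hcon
    push Not at hcon
    obtain ⟨a, ha, b, hb, hab⟩ := Finset.one_lt_card.mp hcon
    rw [mem_Dm] at ha hb
    have h1 := hx.pos_sum hD hno' ha.1 hb.1 hab
    have h2 : ∀ v ∈ U, δ ≤ dg G (img x 0 m) v + dg G (U \ img x 0 m) v := by
      intro v hv
      refine (hU v hv).trans ?_
      have := dg_union_le (G := G) (img x 0 m) (U \ img x 0 m) v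
      rwa [hUe] at this
    have h3 := h2 a (hDU ha.1)
    have h4 := h2 b (hDU hb.1)
    omega
  refine (pxcore (h := h) hx hD hμ (hDc.trans hUc) hT hJ hb (by omega) hno').trans ?_
  have : (m / (2 * J) + 1) * (2 * h) * (U \ img x 0 m).card ≤
      (m / (2 * J) + 1) * (2 * h) * U.card := Nat.mul_le_mul_left _ hDc
  omega

/-- numerical hypotheses of the growth lemma -/
structure PXPar (N δ e T m1 : ℕ) : Prop where
  ex : ∃ μ r J h, 0 < μ ∧ N ≤ r * μ ∧ μ + J + 2 ≤ T ∧ 1 ≤ J ∧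
    N + h ^ 2 * (Bd r J + 1) < h * T ∧
    (∀ m, m1 ≤ m → 2 * (m + 1) ≤ δ →
      (m / (2 * J) + 1) * (2 * h) * N + (m + 1) * (h + 1) < (m + 1) * (δ - (m + 1))) ∧
    (∀ m, m + 1 ≤ N → (m / (2 * J) + 1) * (2 * h) * N + (m + 1) * (h + 1) ≤ e ^ 2)

/-- The growth lemma. -/
theorem px {U : Finset V} {δ N e T m1 : ℕ} (hpar : PXPar N δ e T m1) (hN : U.card ≤ N)
    (hU : ∀ v ∈ U, δ ≤ dg G U v) (he : 2 * (e + 1) ≤ δ) (hTδ : 2 * T + 1 ≤ δ + e) {t1 t2 : V} {m0 : ℕ} (hm0 : m1 ≤ m0)
    (hp : PIn G t1 t2 m0 U) :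
    ∃ M, m0 ≤ M ∧ M % 2 = m0 % 2 ∧
      (∀ m, m0 ≤ m → m ≤ M → m % 2 = m0 % 2 → PIn G t1 t2 m U) ∧ δ ≤ M + e ∧
      (2 * δ ≤ M + 1 + 2 * T ∨
        (M + 2 + 2 * T ≤ 2 * δ ∧
        ∃ x : ℕ → V, PSeq G M x ∧ (∀ t, t ≤ M → x t ∈ U) ∧ x 0 = t1 ∧ x M = t2 ∧
          ∑ i ∈ Finset.range (M + 1), dg G (U \ img x 0 M) (x i) ≤ e ^ 2)) := by
  classical
  obtain ⟨μ, r, J, h, hμ, hNr, hT, hJ, hcount, hc1, hc2⟩ := hpar.ex
  -- the least failure
  have hfail : ∃ j, ¬ PIn G t1 t2 (m0 + 2 * j) U := by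
    refine ⟨U.card, ?_⟩
    rintro ⟨S, hS, hp'⟩
    have h1 := Finset.card_le_card hS
    rw [hp'.card] at h1
    omega
  set j := Nat.find hfail with hj
  have hj1 : ¬ PIn G t1 t2 (m0 + 2 * j) U := Nat.find_spec hfail
  have hj0 : j ≠ 0 := by
    intro h0; rw [h0] at hj1; exact hj1 (by simpa using hp)
  have hlt : ∀ i, i < j → PIn G t1 t2 (m0 + 2 * i) U := by
    intro i hi
    by_contra hcon
    exact Nat.find_min hfail hi hcon
  set M := m0 + 2 * (j - 1) with hM
  have hall : ∀ m, m0 ≤ m → m ≤ M → m % 2 = m0 % 2 → PIn G t1 t2 m U := by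
    intro m h1 h2 h3
    have := hlt ((m - m0) / 2) (by omega)
    have e1 : m0 + 2 * ((m - m0) / 2) = m := by omega
    rwa [e1] at this
  have hPM : PIn G t1 t2 M U := hall M (by omega) le_rfl (by omega)
  have hnM : ¬ PIn G t1 t2 (M + 2) U := by
    have : M + 2 = m0 + 2 * j := by omega
    rw [this]; exact hj1
  obtain ⟨S, hSU, hpS⟩ := hPM
  obtain ⟨x, hx, hx0, hxM, hxS⟩ := hpS.seq
  have hxU : ∀ t, t ≤ M → x t ∈ U := by
    intro t ht; apply hSU; rw [← hxS]; exact mem_img_self (Nat.zero_le _) ht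
  have hMN : M + 1 ≤ N := by
    have := Finset.card_le_card hSU
    rw [hpS.card] at this; omega
  rcases Nat.lt_or_ge (2 * δ) (M + 2 + 2 * T) with hcase | hcase
  · refine ⟨M, by omega, by omega, hall, ?_, Or.inl (by omega)⟩
    omega
  · have hno : ¬ PIn G (x 0) (x M) (M + 2) U := by rw [hx0, hxM]; exact hnM
    have hsum := px_step (h := h) hU hx hxU hμ (hN.trans hNr) hT hJ (by omega) hcase hno
    have hmono : (M / (2 * J) + 1) * (2 * h) * U.card ≤ (M / (2 * J) + 1) * (2 * h) * N :=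
      Nat.mul_le_mul_left _ hN
    have hle := hc2 M hMN
    refine ⟨M, by omega, by omega, hall, ?_, Or.inr ⟨hcase, x, hx, hxU, hx0, hxM, by omega⟩⟩
    have himgc : (img x 0 M).card = M + 1 := (hx.seg (Nat.zero_le M) le_rfl).card
    have hdeg : ∀ i ∈ Finset.range (M + 1), δ ≤ dg G (U \ img x 0 M) (x i) + M := by
      intro i hi
      rw [Finset.mem_range] at hi
      have h1 := hU (x i) (hxU i (by omega))
      have h2 := dg_sdiff_ge (G := G) U (img x 0 M \ {x i}) (x i)
      have h3 : (img x 0 M \ {x i}).card = M := by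
        rw [Finset.card_sdiff_of_subset (by
          rw [Finset.singleton_subset_iff]; exact mem_img_self (Nat.zero_le _) (by omega)), himgc]
        simp
      have h4 : dg G (U \ (img x 0 M \ {x i})) (x i) ≤ dg G (U \ img x 0 M) (x i) := by
        apply Finset.card_le_card
        intro v hv
        rw [mem_nb, Finset.mem_sdiff, Finset.mem_sdiff] at hv
        rw [mem_nb, Finset.mem_sdiff]
        refine ⟨⟨hv.1.1, fun h5 => hv.1.2 ⟨h5, ?_⟩⟩, hv.2⟩
        rw [Finset.mem_singleton]; rintro rfl; exact hv.2.ne rfl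
      omega
    have hMe : e < M + 1 := by
      by_contra hcon
      push Not at hcon
      have h1 := hc1 M (by omega) (by omega)
      have h2 : ∑ _i ∈ Finset.range (M + 1), (δ - (M + 1)) ≤
          ∑ i ∈ Finset.range (M + 1), dg G (U \ img x 0 M) (x i) := by
        refine Finset.sum_le_sum ?_
        intro i hi
        have := hdeg i hi
        omega
      rw [Finset.sum_const, Finset.card_range, smul_eq_mul] at h2
      omega
    by_contra hcon
    push Not at hcon
    have h2 : ∑ _i ∈ Finset.range (M + 1), (e + 1) ≤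
        ∑ i ∈ Finset.range (M + 1), dg G (U \ img x 0 M) (x i) := by
      refine Finset.sum_le_sum ?_
      intro i hi
      have := hdeg i hi
      omega
    rw [Finset.sum_const, Finset.card_range, smul_eq_mul] at h2
    have h3 : (e + 1) * (e + 1) ≤ (M + 1) * (e + 1) := Nat.mul_le_mul_right _ hMe
    have h4 : (e + 1) * (e + 1) = e ^ 2 + 2 * e + 1 := by ring
    omega

end Pool.Agent.H34.OC
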