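import Pool.Agent.H34.OC.Fin0
import Pool.Agent.H34.OC.PX

/-!
# A non-extendable odd cycle is nearly closed; the core of its complement
-/

set_option autoImplicit false

namespace Pool.Agent.H34.OC

variable {V : Type*} [DecidableEq V] {G : SimpleGraph V}

/-- Numerical hypotheses. -/
structure Num (N d e r J m1 b μ0 : ℕ) : Prop where
  epos : 0 < e
  b1 : 1 ≤ b
  cr : N ≤ r * e
  cT : e + J + 2 ≤ 4 * e
  J1 : 1 ≤ J
  cC : N + r ^ 2 * (Bd r J + b) < r * (4 * e)
  c1 : ∀ m, m + 1 ≤ N → (m / (2 * J) + 1) * (2 * r) * N + (m + 1) * (r + b) ≤ e ^ 2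
  c2 : ∀ m δ, d ≤ 2 * δ → m1 ≤ m → 2 * (m + 1) ≤ δ →
    (m / (2 * J) + 1) * (2 * r) * N + (m + 1) * (r + b) < (m + 1) * (δ - (m + 1))
  m1J : m1 + 3 ≤ 2 * J
  w1 : 20 * μ0 ≤ d
  w2 : 4 * e ≤ μ0
  w3 : ∃ h2, 2 * h2 ≤ b ∧ N + h2 ^ 2 * 3 < h2 * μ0
  w4 : N + b ^ 2 * (r + 2) < b * (μ0 - e)
  w5 : N + r ^ 2 * (Bd r J + 2) < r * e
  big : 10000 * b * e ≤ d

theorem Num.big' {N d e r J m1 b μ0 : ℕ} (h : Num N d e r J m1 b μ0) : 10000 * e ≤ d := by
  have h1 := h.big
  have h2 : 10000 * 1 * e ≤ 10000 * b * e :=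
    Nat.mul_le_mul_right _ (Nat.mul_le_mul_left _ h.b1)
  omega

theorem Num.toPX {N d e r J m1 b μ0 : ℕ} (h : Num N d e r J m1 b μ0) {δ : ℕ} (hδ : d ≤ 2 * δ) :
    PXPar N δ e (4 * e) m1 := by
  have hb := h.b1
  refine ⟨e, r, J, r, h.epos, h.cr, h.cT, h.J1, ?_, ?_, ?_⟩
  · have h1 := h.cC
    have h2 : r ^ 2 * (Bd r J + 1) ≤ r ^ 2 * (Bd r J + b) := Nat.mul_le_mul_left _ (by omega)
    omega
  · intro m hm hm2
    have h1 := h.c2 m δ hδ hm hm2
    have h2 : (m + 1) * (r + 1) ≤ (m + 1) * (r + b) := Nat.mul_le_mul_left _ (by omega)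
    omega
  · intro m hm
    have h1 := h.c1 m hm
    have h2 : (m + 1) * (r + 1) ≤ (m + 1) * (r + b) := Nat.mul_le_mul_left _ (by omega)
    omega

theorem Dm_mono {R : Finset V} {T T' : ℕ} (h : T ≤ T') : Dm G R T ⊆ Dm G R T' := by
  intro v hv
  rw [mem_Dm] at hv ⊢
  exact ⟨hv.1, by omega⟩

theorem Ctx.l_le [Fintype V] {l d : ℕ} {x : ℕ → V} {R : Finset V} (h : Ctx G l d x R) :
    l ≤ Fintype.card V := by
  have hl := h.cs.three
  have h1 := ((h.cs.pseq (show l - 1 < l by omega)).seg (Nat.zero_le _) le_rfl).card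
  have h2 := Finset.card_le_univ (img x 0 (l - 1))
  omega

theorem Ctx.Dm_card [Fintype V] {l d N e r J m1 b μ0 : ℕ} {x : ℕ → V} {R : Finset V}
    (h : Ctx G l d x R) (hn : Num N d e r J m1 b μ0) (hN : Fintype.card V ≤ N) (hl5 : 5 ≤ l) :
    (Dm G R μ0).card ≤ b := by
  obtain ⟨h2, h3, h4⟩ := hn.w3
  have hR : R.card ≤ N := (Finset.card_le_univ R).trans hN
  exact (lemmaW h hn.w1 (h2 := h2) (by omega) hl5).trans h3

theorem Ctx.sum_le [Fintype V] {l d N e r J m1 b μ0 : ℕ} {x : ℕ → V} {R : Finset V}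
    (h : Ctx G l d x R) (hn : Num N d e r J m1 b μ0) (hN : Fintype.card V ≤ N) (hl5 : 5 ≤ l) :
    ∑ i ∈ Finset.range l, dg G R (x i) ≤
      ((l - 1) / (2 * J) + 1) * (2 * r) * N + l * (r + b) := by
  have hl := h.cs.three
  have hR : R.card ≤ N := (Finset.card_le_univ R).trans hN
  have hD := h.Dm_card hn hN hl5
  have hD4 : (Dm G R (4 * e)).card ≤ b :=
    (Finset.card_le_card (Dm_mono hn.w2)).trans hD
  have h1 := pxcore (G := G) (h.cs.pseq (show l - 1 < l by omega)) (D := R)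
    (fun t _ ht => ((h.hR _).mp ht) t rfl) hn.epos (hR.trans hn.cr) hn.cT hn.J1 hD4
    (h := r) (by have := hn.cC; omega) (h.cs.no_ext h.no _)
  have e1 : l - 1 + 1 = l := by omega
  rw [e1] at h1
  refine h1.trans ?_
  have : ((l - 1) / (2 * J) + 1) * (2 * r) * R.card ≤ ((l - 1) / (2 * J) + 1) * (2 * r) * N :=
    Nat.mul_le_mul_left _ hR
  omega

theorem Ctx.deg_R [Fintype V] {l d : ℕ} {x : ℕ → V} {R : Finset V}
    (h : Ctx G l d x R) (i : ℕ) : d + 1 ≤ dg G R (x i) + l := by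
  have hl := h.cs.three
  have h1 := h.split (x i)
  have h2 : dg G (img x 0 (l - 1)) (x i) + 1 ≤ l := by
    have h3 : nb G (img x 0 (l - 1)) (x i) ⊆ (img x 0 (l - 1)).erase (x i) := by
      intro v hv
      rw [mem_nb] at hv
      rw [Finset.mem_erase]
      exact ⟨hv.2.ne.symm, hv.1⟩
    have h4 := Finset.card_le_card h3
    rw [Finset.card_erase_of_mem (h.cs.mem_img_all i)] at h4
    have h5 := ((h.cs.pseq (show l - 1 < l by omega)).seg (Nat.zero_le _) le_rfl).card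
    unfold dg
    omega
  omega

theorem Ctx.not_small [Fintype V] {l d N e r J m1 b μ0 : ℕ} {x : ℕ → V} {R : Finset V}
    (h : Ctx G l d x R) (hn : Num N d e r J m1 b μ0) (hN : Fintype.card V ≤ N) (hl5 : 5 ≤ l)
    (hm1 : m1 + 1 ≤ l) : d < 2 * l := by
  by_contra hcon
  push Not at hcon
  have h1 := h.sum_le hn hN hl5
  have h2 := hn.c2 (l - 1) d (by omega) (by omega) (by omega)
  have e1 : l - 1 + 1 = l := by omega
  rw [e1] at h2
  have h3 : ∑ _i ∈ Finset.range l, (d - l) ≤ ∑ i ∈ Finset.range l, dg G R (x i) := by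
    refine Finset.sum_le_sum ?_
    intro i _
    have := h.deg_R i
    omega
  rw [Finset.sum_const, Finset.card_range, smul_eq_mul] at h3
  omega

theorem Ctx.nearly [Fintype V] {l d N e r J m1 b μ0 : ℕ} {x : ℕ → V} {R : Finset V}
    (h : Ctx G l d x R) (hn : Num N d e r J m1 b μ0) (hN : Fintype.card V ≤ N) (hl5 : 5 ≤ l) :
    ∑ i ∈ Finset.range l, dg G R (x i) ≤ e ^ 2 := by
  have h1 := h.sum_le hn hN hl5
  have h2 := h.l_le
  have h3 := hn.c1 (l - 1) (by omega)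
  have e1 : l - 1 + 1 = l := by omega
  rw [e1] at h3
  omega

theorem Ctx.l_ge [Fintype V] {l d N e r J m1 b μ0 : ℕ} {x : ℕ → V} {R : Finset V}
    (h : Ctx G l d x R) (hn : Num N d e r J m1 b μ0) (hN : Fintype.card V ≤ N) (hl5 : 5 ≤ l)
    (hm1 : m1 + 1 ≤ l) : d ≤ l + e := by
  by_contra hcon
  push Not at hcon
  have h1 := h.nearly hn hN hl5
  have h2 := h.not_small hn hN hl5 hm1
  have h3 : ∑ _i ∈ Finset.range l, e ≤ ∑ i ∈ Finset.range l, dg G R (x i) := by
    refine Finset.sum_le_sum ?_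
    intro i _
    have := h.deg_R i
    omega
  rw [Finset.sum_const, Finset.card_range, smul_eq_mul] at h3
  have h4 := hn.big'
  have h5 := hn.epos
  have h6 : (e + 1) * e ≤ l * e := Nat.mul_le_mul_right _ (by omega)
  nlinarith

open Classical in
/-- the core of the complement -/
noncomputable def Rc (G : SimpleGraph V) (l : ℕ) (x : ℕ → V) (R : Finset V) (e : ℕ) : Finset V :=
  R.filter (fun w => dg G (img x 0 (l - 1)) w ≤ e)

theorem Rc_sub {l : ℕ} {x : ℕ → V} {R : Finset V} {e : ℕ} : Rc G l x R e ⊆ R :=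
  Finset.filter_subset _ _

/-- the conclusions about the core -/
theorem Ctx.core [Fintype V] {l d N e r J m1 b μ0 : ℕ} {x : ℕ → V} {R : Finset V}
    (h : Ctx G l d x R) (hn : Num N d e r J m1 b μ0) (hN : Fintype.card V ≤ N) (hl5 : 5 ≤ l) :
    (R \ Rc G l x R e).card ≤ e ∧ ∀ w ∈ Rc G l x R e, d ≤ dg G (Rc G l x R e) w + 2 * e := by
  classical
  have hl := h.cs.three
  have h1 := h.nearly hn hN hl5
  have hps := h.cs.pseq (show l - 1 < l by omega)
  have h2 : ∑ w ∈ R, dg G (img x 0 (l - 1)) w ≤ e ^ 2 := by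
    rw [sum_dg_comm]
    have : ∑ v ∈ img x 0 (l - 1), dg G R v = ∑ i ∈ Finset.range l, dg G R (x i) := by
      unfold img
      rw [Finset.sum_image]
      · refine Finset.sum_congr ?_ (fun _ _ => rfl)
        ext t; simp only [Finset.mem_Icc, Finset.mem_range]; omega
      · intro i hi j hj hij
        rw [Finset.mem_coe, Finset.mem_Icc] at hi hj
        exact hps.inj i j hi.2 hj.2 hij
    omega
  have hc : (R \ Rc G l x R e).card ≤ e := by
    have h3 : ∑ _w ∈ R \ Rc G l x R e, (e + 1) ≤ ∑ w ∈ R \ Rc G l x R e, dg G (img x 0 (l - 1)) w := by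
      refine Finset.sum_le_sum ?_
      intro w hw
      rw [Finset.mem_sdiff, Rc, Finset.mem_filter] at hw
      push Not at hw
      exact hw.2 hw.1
    have h4 : ∑ w ∈ R \ Rc G l x R e, dg G (img x 0 (l - 1)) w ≤ ∑ w ∈ R, dg G (img x 0 (l - 1)) w :=
      Finset.sum_le_sum_of_subset Finset.sdiff_subset
    rw [Finset.sum_const, smul_eq_mul] at h3
    by_contra hcon
    push Not at hcon
    have h5 : (e + 1) * (e + 1) ≤ (R \ Rc G l x R e).card * (e + 1) :=
      Nat.mul_le_mul_right _ hcon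
    have h6 : (e + 1) * (e + 1) = e ^ 2 + 2 * e + 1 := by ring
    omega
  refine ⟨hc, ?_⟩
  intro w hw
  have h3 := h.split w
  have h4 : dg G (img x 0 (l - 1)) w ≤ e := (Finset.mem_filter.mp hw).2
  have h5 : dg G R w ≤ dg G (Rc G l x R e) w + dg G (R \ Rc G l x R e) w := by
    have := dg_union_le (G := G) (Rc G l x R e) (R \ Rc G l x R e) w
    rwa [Finset.union_sdiff_of_subset Rc_sub] at this
  have h6 := dg_le (G := G) (R \ Rc G l x R e) w
  omega

/-- many even paths between two vertices with many common neighbours -/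
theorem even_paths {N d e r J m1 b μ0 : ℕ} (hn : Num N d e r J m1 b μ0) {U : Finset V} {δ : ℕ}
    (hUN : U.card ≤ N) (hU : ∀ v ∈ U, δ ≤ dg G U v) (hδ : d ≤ 2 * δ) {a c : V} (hac : a ≠ c)
    (ha : a ∈ U) (hcU : c ∈ U) (hcom : Bd r J ≤ (nb G U a ∩ nb G U c).card) :
    ∀ t, 1 ≤ t → 2 * t + e ≤ δ → PIn G a c (2 * t) U := by
  have hb := hn.big'
  have hT := hn.cT
  have hlink : ∀ j, 1 ≤ j → j ≤ J → PIn G a c (2 * j) U := by
    intro j hj1 hjJ
    have h1 := link (G := G) (D := U) hn.epos (hUN.trans hn.cr) hac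
      (W := nb G U a ∩ nb G U c)
      (fun v hv => nb_subset _ _ (Finset.mem_inter.mp hv).1) hcom
      (fun y hy => ⟨(mem_nb.mp (Finset.mem_inter.mp hy).1).2,
        (mem_nb.mp (Finset.mem_inter.mp hy).2).2⟩)
      (fun y hy => by
        have := hU y (nb_subset _ _ (Finset.mem_inter.mp hy).1)
        omega) hj1 hjJ
    refine h1.mono ?_
    intro v hv
    rw [Finset.mem_insert, Finset.mem_insert] at hv
    rcases hv with rfl | rfl | hv
    · exact ha
    · exact hcU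
    · exact hv
  intro t ht1 ht
  have hm1J := hn.m1J
  rcases Nat.lt_or_ge J t with hJt | hJt
  · obtain ⟨M, hM0, hMp, hall, hMδ, _⟩ := px (hn.toPX hδ) hUN hU (by omega) (by omega)
      (m0 := 2 * J) (by omega) (hlink J hn.J1 le_rfl)
    exact hall (2 * t) (by omega) (by omega) (by omega)
  · exact hlink t ht1 hJt

end Pool.Agent.H34.OC
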