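import Pool.Agent.H34.OC.Diam

/-!
# Short odd cycles and odd paths
-/

set_option autoImplicit false

namespace Pool.Agent.H34.OC

variable {V : Type*} [DecidableEq V] {G : SimpleGraph V}

theorem exists_odd_cyc {Λ : ℕ} (hc : BConn G Λ) (h3 : Three V) (hn : ¬ G.Colorable 2) [Nonempty V] :
    ∃ l, l % 2 = 1 ∧ l ≤ 2 * Λ + 1 ∧ HasCyc G l := by
  classical
  obtain ⟨r⟩ := ‹Nonempty V›
  have hconn : G.Connected := by
    have : Nonempty V := ⟨r⟩
    refine ⟨fun a b => ?_⟩
    obtain ⟨m, S, _, hp⟩ := hc.path h3 a b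
    obtain ⟨p, _⟩ := hp.toWalk
    exact ⟨p⟩
  have hbound : ∀ a b, G.dist a b ≤ Λ := by
    intro a b
    obtain ⟨m, S, hm, hp⟩ := hc.path h3 a b
    obtain ⟨p, _, h2, _⟩ := hp.toWalk
    have := SimpleGraph.dist_le p
    omega
  have hex : ∃ v w, G.Adj v w ∧ G.dist r v % 2 = G.dist r w % 2 := by
    by_contra hcon
    push Not at hcon
    apply hn
    refine ⟨SimpleGraph.Coloring.mk (fun v => (⟨G.dist r v % 2, Nat.mod_lt _ (by norm_num)⟩ : Fin 2)) ?_⟩
    intro v w hvw h
    exact hcon v w hvw (by simpa using h)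
  obtain ⟨v, w, hvw, hpar⟩ := hex
  have hd1 : G.dist v w = 1 := SimpleGraph.dist_eq_one_iff_adj.mpr hvw
  have ht1 := hconn.dist_triangle (u := r) (v := v) (w := w)
  have ht2 := hconn.dist_triangle (u := r) (v := w) (w := v)
  rw [SimpleGraph.dist_comm (u := w) (v := v)] at ht2
  have hD : G.dist r v = G.dist r w := by omega
  obtain ⟨p, hp1, hp2⟩ := hconn.exists_path_of_dist r v
  obtain ⟨q, hq1, hq2⟩ := hconn.exists_path_of_dist r w
  set D := G.dist r v with hDdef
  obtain ⟨x, hx, hx0, hxm, hxS⟩ := (Pth.ofWalk p hp1).seq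
  obtain ⟨y, hy, hy0, hym, hyS⟩ := (Pth.ofWalk q hq1).seq
  rw [hp2] at hx hxm hxS
  rw [hq2, ← hD] at hy hym hyS
  have hdist : ∀ (z : ℕ → V), PSeq G D z → z 0 = r → G.dist r (z D) = D → ∀ i, i ≤ D →
      G.dist r (z i) = i := by
    intro z hz hz0 hzD i hi
    obtain ⟨p1, _, e1, _⟩ := (hz.seg (Nat.zero_le i) hi).toWalk
    obtain ⟨p2, _, e2, _⟩ := (hz.seg hi le_rfl).toWalk
    have f1 := SimpleGraph.dist_le p1
    have f2 := SimpleGraph.dist_le p2
    have f3 := hconn.dist_triangle (u := r) (v := z i) (w := z D)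
    rw [e1, hz0] at f1
    rw [e2] at f2
    omega
  have hdx := hdist x hx hx0 (by rw [hxm])
  have hdy := hdist y hy hy0 (by rw [hym, ← hD])
  -- the last common index
  have hcom : ∃ i, i ≤ D ∧ x (D - i) = y (D - i) := ⟨D, le_rfl, by simp [hx0, hy0]⟩
  set k := Nat.find hcom with hk
  obtain ⟨hk1, hk2⟩ := Nat.find_spec hcom
  have hkmin : ∀ i, i ≤ D → D - k < i → x i ≠ y i := by
    intro i hi hki he
    have := Nat.find_min hcom (m := D - i) (by omega)
    apply this
    refine ⟨by omega, ?_⟩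
    have : D - (D - i) = i := by omega
    rw [this]; exact he
  have hk0 : 1 ≤ k := by
    rw [Nat.one_le_iff_ne_zero]
    intro h0
    rw [← hk, h0] at hk2
    simp only [Nat.sub_zero] at hk2
    rw [hxm, hym] at hk2
    exact hvw.ne hk2
  refine ⟨2 * k + 1, by omega, ?_, ?_⟩
  · have := hbound r v
    omega
  have p1 := (hx.pin (show D - k ≤ D by omega) le_rfl)
  have p2 := (hy.pin (show D - k + 1 ≤ D by omega) le_rfl).rev
  have hadj : G.Adj (x D) (y D) := by rw [hxm, hym]; exact hvw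
  have p3 := p1.join hadj p2 (by
    rw [Finset.disjoint_left]
    intro u hu hu'
    obtain ⟨t, ht1, ht2, rfl⟩ := mem_img.mp hu
    obtain ⟨s, hs1, hs2, hs3⟩ := mem_img.mp hu'
    have e1 := hdx t ht2
    have e2 := hdy s hs2
    rw [hs3] at e2
    have e3 : t = s := by omega
    subst e3
    exact hkmin t ht2 (by omega) hs3.symm)
  refine p3.hasCyc ?_ (by omega) (by omega)
  rw [hk2]
  exact (hy.adj (D - k) (by omega)).symm

/-- both arcs between two vertices of a cycle -/
theorem CSeq.arcs {l : ℕ} {x : ℕ → V} (h : CSeq G l x) {i s : ℕ} (hs0 : 1 ≤ s) (hs : s < l) :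
    PIn G (x i) (x (i + s)) s (img x 0 (l - 1)) ∧
    PIn G (x i) (x (i + s)) (l - s) (img x 0 (l - 1)) := by
  have hl := h.three
  have hy := h.shift i
  have hsub : ∀ a b, img (fun t => x (t + i)) a b ⊆ img x 0 (l - 1) := by
    intro a b v hv
    obtain ⟨t, _, _, rfl⟩ := mem_img.mp hv
    exact h.mem_img_all _
  constructor
  · have := (hy.pseq hs).pin (Nat.zero_le s) le_rfl
    refine this.congr (by simp) (by simp [add_comm]) rfl (hsub _ _)
  · have h1 := (hy.pseq (show l - 1 < l by omega)).pin (show s ≤ l - 1 by omega) le_rfl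
    have hadj : G.Adj (x (l - 1 + i)) (x i) := by
      have h2 := h.adj (l - 1 + i)
      have : l - 1 + i + 1 = i + l := by omega
      rwa [this, h.per] at h2
    have h2 := h1.join hadj (PIn.single (x i)) (by
      rw [Finset.disjoint_singleton_right]
      intro hv
      obtain ⟨t, ht1, ht2, ht3⟩ := mem_img.mp hv
      have h4 : (fun t => x (t + i)) t = (fun t => x (t + i)) 0 := by
        simpa using ht3
      have h5 := hy.inj t 0 (by omega) (by omega) h4
      omega)
    refine h2.rev.congr rfl ?_ (by omega) ?_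
    · show x (s + i) = x (i + s)
      rw [add_comm]
    · intro v hv
      rw [Finset.mem_union, Finset.mem_singleton] at hv
      rcases hv with hv | rfl
      · exact hsub _ _ hv
      · exact h.mem_img_all _

/-- between any two vertices there is an odd path of bounded length -/
theorem odd_path {Λ : ℕ} (hc : BConn G Λ) (h3 : Three V) (hn : ¬ G.Colorable 2) {u v : V}
    (huv : u ≠ v) : ∃ m S, m % 2 = 1 ∧ m ≤ (Λ + 2) ^ 2 + (2 * Λ + 1) ∧ Pth G u v m S := by
  have : Nonempty V := ⟨u⟩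
  obtain ⟨l, hlodd, hlΛ, hl⟩ := exists_odd_cyc hc h3 hn
  obtain ⟨x, hx⟩ := hl.cseq
  have hl3 := hx.three
  have hx01 : x 0 ≠ x 1 := by
    intro h; have := hx.inj 0 1 (by omega) (by omega) h; omega
  obtain ⟨s1, hs1, s2, hs2, t1, ht1, t2, ht2, m1, m2, P1, P2, hP1, hP2, hd, hm, e1, e2, e3, e4⟩ :=
    two_paths_sets hc h3 (S := {u, v}) (T := img x 0 (l - 1)) (a := u) (b := v) (t := x 0)
      (t' := x 1) (by simp) (by simp) (hx.mem_img_all _) (hx.mem_img_all _) huv hx01
  have hs12 : s1 ≠ s2 := by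
    rintro rfl
    exact Finset.disjoint_left.mp hd hP1.left_mem hP2.left_mem
  have ht12 : t1 ≠ t2 := by
    rintro rfl
    exact Finset.disjoint_left.mp hd hP1.right_mem hP2.right_mem
  -- a path between s1 and s2
  have key : ∀ a S, Pth G t1 t2 a S → S ⊆ img x 0 (l - 1) →
      ∃ S', Pth G s1 s2 (m1 + a + m2) S' := by
    intro a S hp hS
    have h1 := hP1.append hp (fun v hv hv' => e2 v hv (hS hv'))
    have h2 := h1.append hP2.rev (by
      intro v hv hv'
      rw [Finset.mem_union] at hv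
      rcases hv with hv | hv
      · exact absurd hv' (Finset.disjoint_left.mp hd hv)
      · exact e4 v hv' (hS hv))
    exact ⟨_, h2⟩
  have hodd : ∃ a S, (m1 + a + m2) % 2 = 1 ∧ a ≤ l ∧ Pth G t1 t2 a S ∧ S ⊆ img x 0 (l - 1) := by
    obtain ⟨i, _, hi, rfl⟩ := mem_img.mp ht1
    obtain ⟨j, _, hj, rfl⟩ := mem_img.mp ht2
    have hij : i ≠ j := by rintro rfl; exact ht12 rfl
    have hgen : ∀ i j, i < j → j ≤ l - 1 → ∃ a S, (m1 + a + m2) % 2 = 1 ∧ a ≤ l ∧
        Pth G (x i) (x j) a S ∧ S ⊆ img x 0 (l - 1) := by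
      intro i j hlt hj
      have h1 := hx.arcs (i := i) (s := j - i) (by omega) (by omega)
      have e : i + (j - i) = j := by omega
      rw [e] at h1
      obtain ⟨⟨S1, hS1, hp1⟩, ⟨S2, hS2, hp2⟩⟩ := h1
      by_cases hpar : (m1 + (j - i) + m2) % 2 = 1
      · exact ⟨_, S1, hpar, by omega, hp1, hS1⟩
      · exact ⟨_, S2, by omega, by omega, hp2, hS2⟩
    rcases Nat.lt_or_ge i j with h | h
    · exact hgen i j h hj
    · obtain ⟨a, S, h1, h2, h4, h5⟩ := hgen j i (by omega) hi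
      exact ⟨a, S, h1, h2, h4.rev, h5⟩
  obtain ⟨a, S, hpar, hal, hp, hS⟩ := hodd
  obtain ⟨S', hS'⟩ := key a S hp hS
  simp only [Finset.mem_insert, Finset.mem_singleton] at hs1 hs2
  have : (s1 = u ∧ s2 = v) ∨ (s1 = v ∧ s2 = u) := by
    rcases hs1 with rfl | rfl <;> rcases hs2 with rfl | rfl
    · exact absurd rfl hs12
    · exact Or.inl ⟨rfl, rfl⟩
    · exact Or.inr ⟨rfl, rfl⟩
    · exact absurd rfl hs12
  rcases this with ⟨rfl, rfl⟩ | ⟨rfl, rfl⟩
  · exact ⟨_, S', hpar, by omega, hS'⟩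
  · exact ⟨_, S', hpar, by omega, hS'.rev⟩

end Pool.Agent.H34.OC
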