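import Pool.Agent.H34.OC.OddPath

/-!
# Stage A: structure when no short odd path joins a linked pair
-/

set_option autoImplicit false

namespace Pool.Agent.H34.OC

variable {V : Type*} [DecidableEq V] {G : SimpleGraph V}

/-- linked vertices: at least `M` common neighbours -/
def Lk (G : SimpleGraph V) [Fintype V] (M : ℕ) (u v : V) : Prop :=
  u ≠ v ∧ M ≤ (nb G Finset.univ u ∩ nb G Finset.univ v).card

/-- Assumptions of stage A: every odd path between linked vertices has length at least `g - 2`. -/
structure SA (G : SimpleGraph V) [Fintype V] (g M d : ℕ) : Prop where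
  g5 : 5 ≤ g
  godd : g % 2 = 1
  deg : ∀ v, d ≤ dg G Finset.univ v
  two : 2 * Fintype.card V ≤ g * d
  min : ∀ u v m S, Lk G M u v → Pth G u v m S → m % 2 = 1 → g - 2 ≤ m
  M1 : 1 ≤ M

/-- a cycle indexed by residues -/
structure ZC (G : SimpleGraph V) (g : ℕ) (c : ZMod g → V) : Prop where
  adj : ∀ t, G.Adj (c t) (c (t + 1))
  inj : Function.Injective c

theorem ZC.cseq {g : ℕ} {c : ZMod g → V} (hg : 5 ≤ g) (h : ZC G g c) :
    CSeq G g (fun t => c (t : ZMod g)) := by
  refine ⟨by omega, ?_, ?_, ?_⟩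
  · intro i; simp
  · intro i
    have := h.adj (i : ZMod g)
    push_cast; exact this
  · intro i j hi hj hij
    have h1 : (i : ZMod g) = (j : ZMod g) := h.inj hij
    rw [ZMod.natCast_eq_natCast_iff'] at h1
    rwa [Nat.mod_eq_of_lt hi, Nat.mod_eq_of_lt hj] at h1

theorem CSeq.zc {g : ℕ} {x : ℕ → V} (h : CSeq G g x) [NeZero g] : ZC G g (fun t => x t.val) := by
  constructor
  · intro t
    have h1 := h.adj t.val
    have h2 := h.val_add t 1
    push_cast at h2
    rw [← h2] at h1
    exact h1
  · intro s t hst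
    exact ZMod.val_injective g (h.inj _ _ (ZMod.val_lt _) (ZMod.val_lt _) hst)

/-- the two arcs of a residue cycle -/
theorem ZC.arcs {g : ℕ} {c : ZMod g → V} (hg : 5 ≤ g) (h : ZC G g c) [Fintype V] (i : ZMod g)
    {s : ℕ} (hs1 : 1 ≤ s) (hs : s < g) :
    PIn G (c i) (c (i + s)) s Finset.univ ∧ PIn G (c i) (c (i + s)) (g - s) Finset.univ := by
  have : NeZero g := ⟨by omega⟩
  have h1 := (h.cseq hg).arcs (i := i.val) hs1 hs
  simp only [Nat.cast_add, ZMod.natCast_zmod_val] at h1
  exact ⟨h1.1.mono (Finset.subset_univ _), h1.2.mono (Finset.subset_univ _)⟩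

theorem zmod_ne {g : ℕ} (hg : 5 ≤ g) (hodd : g % 2 = 1) :
    (1 : ZMod g) ≠ 0 ∧ (2 : ZMod g) ≠ 0 ∧ (4 : ZMod g) ≠ 0 ∧ (6 : ZMod g) ≠ 0 ∧
      (3 : ZMod g) ≠ 0 := by
  have key : ∀ k : ℕ, ¬ g ∣ k → ((k : ℕ) : ZMod g) ≠ 0 := by
    intro k hk h
    exact hk ((ZMod.natCast_eq_zero_iff k g).mp h)
  refine ⟨?_, ?_, ?_, ?_, ?_⟩
  · have := key 1 (fun h => by have := Nat.le_of_dvd (by norm_num) h; omega)
    simpa using this
  · have := key 2 (fun h => by have := Nat.le_of_dvd (by norm_num) h; omega)
    simpa using this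
  · have := key 4 (fun h => by have := Nat.le_of_dvd (by norm_num) h; omega)
    simpa using this
  · have := key 6 (fun h => by
      have h1 := Nat.le_of_dvd (by norm_num) h
      interval_cases g <;> omega)
    simpa using this
  · have := key 3 (fun h => by have := Nat.le_of_dvd (by norm_num) h; omega)
    simpa using this

/-- vertices of the cycle at distance different from two are not linked -/
theorem SA.nolink [Fintype V] {g M d : ℕ} (h : SA G g M d) {c : ZMod g → V} (hc : ZC G g c)
    {i j : ZMod g} (hij : i ≠ j) (h1 : j ≠ i + 2) (h2 : j ≠ i - 2) :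
    (nb G Finset.univ (c i) ∩ nb G Finset.univ (c j)).card < M := by
  by_contra hcon
  push Not at hcon
  have hg := h.g5
  have hodd := h.godd
  have : NeZero g := ⟨by omega⟩
  have hL : Lk G M (c i) (c j) := ⟨fun h => hij (hc.inj h), hcon⟩
  set r := (j - i).val with hr
  have hj : j = i + (r : ZMod g) := by rw [hr, ZMod.natCast_zmod_val]; ring
  have hrlt : r < g := ZMod.val_lt _
  have hr1 : 1 ≤ r := by
    rw [Nat.one_le_iff_ne_zero]; intro h0
    rw [h0] at hj; apply hij; rw [hj]; simp
  obtain ⟨⟨S1, _, p1⟩, ⟨S2, _, p2⟩⟩ := hc.arcs hg i hr1 hrlt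
  rw [← hj] at p1 p2
  rcases Nat.mod_two_eq_zero_or_one r with hp | hp
  · have h3 := h.min _ _ _ _ hL p2 (by omega)
    have : r = 2 := by omega
    apply h1; rw [hj, this]; norm_num
  · have h3 := h.min _ _ _ _ hL p1 hp
    have : r = g - 2 := by omega
    apply h2
    rw [hj, this]
    push_cast [Nat.cast_sub (show 2 ≤ g by omega)]
    simp only [CharP.cast_eq_zero, zero_sub]
    ring

open Classical in
/-- positions of the cycle adjacent to `v` -/
noncomputable def Ic (G : SimpleGraph V) {g : ℕ} [NeZero g] (c : ZMod g → V) (v : V) :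
    Finset (ZMod g) := Finset.univ.filter (fun t => G.Adj (c t) v)

theorem mem_Ic {g : ℕ} [NeZero g] {c : ZMod g → V} {v : V} {t : ZMod g} :
    t ∈ Ic G c v ↔ G.Adj (c t) v := by simp [Ic]

/-- `v` is of type `t` with respect to the cycle -/
def Ty (G : SimpleGraph V) {g : ℕ} [NeZero g] (c : ZMod g → V) (t : ZMod g) (v : V) : Prop :=
  Ic G c v = {t - 1, t + 1}

open Classical in
/-- the exceptional vertices -/
noncomputable def Bad (G : SimpleGraph V) [Fintype V] {g : ℕ} [NeZero g] (c : ZMod g → V) :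
    Finset V := Finset.univ.filter (fun v => ¬ ∃ t, Ty G c t v)

theorem SA.bad_card [Fintype V] {g M d : ℕ} (h : SA G g M d) [NeZero g] {c : ZMod g → V}
    (hc : ZC G g c) : (Bad G c).card ≤ (g + 1) * (g ^ 2 * M) := by
  classical
  have hg := h.g5
  obtain ⟨n1, n2, n4, n6, n3⟩ := zmod_ne hg h.godd
  set P2 : Finset V := Finset.univ.filter (fun v => ∃ i ∈ Ic G c v, ∃ j ∈ Ic G c v, i ≠ j ∧
    j ≠ i + 2 ∧ j ≠ i - 2) with hP2
  set Pr : Finset (ZMod g × ZMod g) := Finset.univ.filter (fun p => p.1 ≠ p.2 ∧ p.2 ≠ p.1 + 2 ∧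
    p.2 ≠ p.1 - 2) with hPr
  have hP2c : P2.card ≤ g ^ 2 * M := by
    have h1 : P2 ⊆ Pr.biUnion (fun p => nb G Finset.univ (c p.1) ∩ nb G Finset.univ (c p.2)) := by
      intro v hv
      rw [hP2, Finset.mem_filter] at hv
      obtain ⟨_, i, hi, j, hj, h2⟩ := hv
      rw [Finset.mem_biUnion]
      refine ⟨(i, j), by rw [hPr, Finset.mem_filter]; exact ⟨Finset.mem_univ _, h2⟩, ?_⟩
      rw [Finset.mem_inter, mem_nb, mem_nb]
      exact ⟨⟨Finset.mem_univ _, mem_Ic.mp hi⟩, ⟨Finset.mem_univ _, mem_Ic.mp hj⟩⟩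
    refine (Finset.card_le_card h1).trans (Finset.card_biUnion_le.trans ?_)
    have h2 : ∑ p ∈ Pr, (nb G Finset.univ (c p.1) ∩ nb G Finset.univ (c p.2)).card ≤
        ∑ _p ∈ Pr, M := by
      refine Finset.sum_le_sum ?_
      intro p hp
      rw [hPr, Finset.mem_filter] at hp
      exact (h.nolink hc hp.2.1 hp.2.2.1 hp.2.2.2).le
    refine h2.trans ?_
    rw [Finset.sum_const, smul_eq_mul]
    refine Nat.mul_le_mul_right _ ?_
    have := Finset.card_le_univ Pr
    rw [Fintype.card_prod, ZMod.card] at this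
    rw [pow_two]; exact this
  -- vertices outside P2
  have hgood : ∀ v, v ∉ P2 → (Ic G c v).card ≤ 2 ∧
      ((Ic G c v).card = 2 → ∃ t, Ty G c t v) := by
    intro v hv
    have hpair : ∀ i ∈ Ic G c v, ∀ j ∈ Ic G c v, i ≠ j → j = i + 2 ∨ j = i - 2 := by
      intro i hi j hj hij
      by_contra hcon
      push Not at hcon
      apply hv
      rw [hP2, Finset.mem_filter]
      exact ⟨Finset.mem_univ _, i, hi, j, hj, hij, hcon⟩
    constructor
    · by_contra hcon
      push Not at hcon
      obtain ⟨i, hi, j, hj, k, hk, hij, hik, hjk⟩ := Finset.two_lt_card.mp hcon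
      have a1 := hpair i hi j hj hij
      have a2 := hpair i hi k hk hik
      have a3 := hpair j hj k hk hjk
      rcases a1 with rfl | rfl <;> rcases a2 with rfl | rfl
      · exact hjk rfl
      · rcases a3 with h5 | h5
        · apply n6; linear_combination -h5
        · apply n2; linear_combination h5 * (-1)
      · rcases a3 with h5 | h5
        · apply n2; linear_combination h5
        · apply n6; linear_combination h5
      · exact hjk rfl
    · intro hcard
      obtain ⟨i, j, hij, hI⟩ := Finset.card_eq_two.mp hcard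
      have a1 := hpair i (by rw [hI]; simp) j (by rw [hI]; simp) hij
      rcases a1 with rfl | rfl
      · refine ⟨i + 1, ?_⟩
        unfold Ty
        rw [hI]
        congr 1
        · ring
        · congr 1; ring
      · refine ⟨i - 1, ?_⟩
        unfold Ty
        rw [hI, Finset.pair_comm]
        congr 1
        · ring
        · congr 1; ring
  -- double counting
  have hsum : 2 * Fintype.card V ≤ ∑ v : V, (Ic G c v).card := by
    have h1 : ∑ v : V, (Ic G c v).card = ∑ t : ZMod g, dg G Finset.univ (c t) := by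
      have e1 : ∀ v : V, (Ic G c v).card = ∑ t : ZMod g, if G.Adj (c t) v then 1 else 0 := by
        intro v; rw [Ic, Finset.card_filter]
      have e2 : ∀ t : ZMod g, dg G Finset.univ (c t) = ∑ v : V, if G.Adj (c t) v then 1 else 0 := by
        intro t; rw [dg, nb, Finset.card_filter]
      rw [Finset.sum_congr rfl (fun v _ => e1 v), Finset.sum_congr rfl (fun t _ => e2 t),
        Finset.sum_comm]
    rw [h1]
    have h2 : ∑ _t : ZMod g, d ≤ ∑ t : ZMod g, dg G Finset.univ (c t) :=
      Finset.sum_le_sum (fun t _ => h.deg _)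
    rw [Finset.sum_const, Finset.card_univ, ZMod.card, smul_eq_mul] at h2
    exact h.two.trans h2
  set A : Finset V := Finset.univ.filter (fun v => v ∉ P2 ∧ (Ic G c v).card ≤ 1) with hA
  have hAc : A.card ≤ g * P2.card := by
    have h1 : ∀ v : V, (Ic G c v).card + (if v ∈ A then 1 else 0) ≤ 2 +
        (if v ∈ P2 then g else 0) := by
      intro v
      by_cases hv : v ∈ P2
      · have h2 : v ∉ A := by rw [hA, Finset.mem_filter]; tauto
        rw [if_pos hv, if_neg h2]
        have h3 := Finset.card_le_univ (Ic G c v)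
        rw [ZMod.card] at h3
        omega
      · rw [if_neg hv]
        have h2 := (hgood v hv).1
        by_cases hvA : v ∈ A
        · rw [if_pos hvA]
          rw [hA, Finset.mem_filter] at hvA
          omega
        · rw [if_neg hvA]; omega
    have h2 := Finset.sum_le_sum (fun v (_ : v ∈ (Finset.univ : Finset V)) => h1 v)
    rw [Finset.sum_add_distrib, Finset.sum_add_distrib] at h2
    simp only [Finset.sum_ite_mem, Finset.univ_inter, Finset.sum_const, Finset.card_univ,
      smul_eq_mul, mul_one] at h2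
    have h3 : P2.card * g = g * P2.card := by ring
    omega
  have hBad : Bad G c ⊆ P2 ∪ A := by
    intro v hv
    rw [Bad, Finset.mem_filter] at hv
    rw [Finset.mem_union]
    by_cases hvP : v ∈ P2
    · exact Or.inl hvP
    · right
      rw [hA, Finset.mem_filter]
      refine ⟨Finset.mem_univ _, hvP, ?_⟩
      have := hgood v hvP
      by_contra hcon
      push Not at hcon
      exact hv.2 (this.2 (by omega))
  have h1 := Finset.card_le_card hBad
  have h2 := Finset.card_union_le P2 A
  have h3 : g * P2.card ≤ g * (g ^ 2 * M) := Nat.mul_le_mul_left _ hP2c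
  have h4 : (g + 1) * (g ^ 2 * M) = g * (g ^ 2 * M) + g ^ 2 * M := by ring
  omega

end Pool.Agent.H34.OC
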