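import Pool.Agent.H34.OC.SA1

/-!
# Stage A: the classes
-/

set_option autoImplicit false

namespace Pool.Agent.H34.OC

variable {V : Type*} [DecidableEq V] {G : SimpleGraph V}

theorem zmod_pair {g : ℕ} (hg : 5 ≤ g) (hodd : g % 2 = 1) {s t : ZMod g}
    (h1 : s - 1 = t - 1 ∨ s - 1 = t + 1) (h2 : s + 1 = t - 1 ∨ s + 1 = t + 1) : s = t := by
  obtain ⟨n1, n2, n4, n6, n3⟩ := zmod_ne hg hodd
  rcases h1 with h1 | h1
  · linear_combination h1
  · rcases h2 with h2 | h2
    · exfalso; apply n4; linear_combination h2 - h1
    · linear_combination h2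

theorem Ty.unique {g : ℕ} [NeZero g] (hg : 5 ≤ g) (hodd : g % 2 = 1) {c : ZMod g → V}
    {s t : ZMod g} {v : V} (h1 : Ty G c s v) (h2 : Ty G c t v) : s = t := by
  unfold Ty at h1 h2
  have h3 : s - 1 ∈ ({t - 1, t + 1} : Finset (ZMod g)) := by rw [← h2, h1]; simp
  have h4 : s + 1 ∈ ({t - 1, t + 1} : Finset (ZMod g)) := by rw [← h2, h1]; simp
  rw [Finset.mem_insert, Finset.mem_singleton] at h3 h4
  exact zmod_pair hg hodd h3 h4

open Classical in
/-- the class of type `t` -/
noncomputable def X (G : SimpleGraph V) [Fintype V] {g : ℕ} [NeZero g] (c : ZMod g → V)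
    (t : ZMod g) : Finset V := Finset.univ.filter (fun v => Ty G c t v)

theorem mem_X [Fintype V] {g : ℕ} [NeZero g] {c : ZMod g → V} {t : ZMod g} {v : V} :
    v ∈ X G c t ↔ Ty G c t v := by simp [X]

theorem mem_Bad [Fintype V] {g : ℕ} [NeZero g] {c : ZMod g → V} {v : V} :
    v ∈ Bad G c ↔ ∀ t, ¬ Ty G c t v := by simp [Bad]

/-- replacing a vertex of the cycle by a vertex of the same type -/
theorem ZC.update {g : ℕ} [NeZero g] (hg : 5 ≤ g) (hodd : g % 2 = 1) {c : ZMod g → V}
    (hc : ZC G g c) {t : ZMod g} {x : V} (hx : Ty G c t x) :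
    ZC G g (Function.update c t x) := by
  obtain ⟨n1, n2, n4, n6, n3⟩ := zmod_ne hg hodd
  have hx1 : G.Adj (c (t - 1)) x := by
    apply mem_Ic.mp; unfold Ty at hx; rw [hx]; simp
  have hx2 : G.Adj (c (t + 1)) x := by
    apply mem_Ic.mp; unfold Ty at hx; rw [hx]; simp
  have hne : ∀ s, s ≠ t → c s ≠ x := by
    intro s hs he
    apply hs
    have h1 : s - 1 ∈ Ic G c x := by
      rw [mem_Ic, ← he]
      have := hc.adj (s - 1)
      rwa [sub_add_cancel] at this
    have h2 : s + 1 ∈ Ic G c x := by
      rw [mem_Ic, ← he]; exact (hc.adj s).symm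
    unfold Ty at hx
    rw [hx, Finset.mem_insert, Finset.mem_singleton] at h1 h2
    exact zmod_pair hg hodd h1 h2
  constructor
  · intro s
    by_cases h1 : s = t
    · subst h1
      have h2 : s + 1 ≠ s := by
        intro h; apply n1; linear_combination h
      rw [Function.update_self, Function.update_of_ne h2]
      exact hx2.symm
    · by_cases h2 : s + 1 = t
      · rw [Function.update_of_ne h1, h2, Function.update_self]
        have : s = t - 1 := by rw [← h2]; ring
        rw [this]; exact hx1
      · rw [Function.update_of_ne h1, Function.update_of_ne h2]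
        exact hc.adj s
  · intro s s' hss
    by_cases h1 : s = t <;> by_cases h2 : s' = t
    · rw [h1, h2]
    · rw [h1, Function.update_self, Function.update_of_ne h2] at hss
      exact absurd hss.symm (hne _ h2)
    · rw [h2, Function.update_self, Function.update_of_ne h1] at hss
      exact absurd hss (hne _ h1)
    · rw [Function.update_of_ne h1, Function.update_of_ne h2] at hss
      exact hc.inj hss

theorem mem_Ic_update {g : ℕ} [NeZero g] {c : ZMod g → V} {t s : ZMod g} {x v : V} :
    s ∈ Ic G (Function.update c t x) v ↔ (s = t ∧ G.Adj x v) ∨ (s ≠ t ∧ s ∈ Ic G c v) := by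
  rw [mem_Ic, mem_Ic]
  by_cases h : s = t
  · subst h; simp
  · simp [h]

/-- adjacency of a typical vertex -/
theorem SA.near [Fintype V] {g M d : ℕ} (h : SA G g M d) [NeZero g] {c : ZMod g → V}
    (hc : ZC G g c) {t : ZMod g} {x : V} (hx : Ty G c t x) :
    (∀ s, (s = t - 1 ∨ s = t + 1) →
      (X G c s).card ≤ dg G (X G c s) x + (g + 1) * (g ^ 2 * M)) := by
  classical
  obtain ⟨n1, n2, n4, n6, n3⟩ := zmod_ne h.g5 h.godd
  have hc' := hc.update h.g5 h.godd hx
  have hb' := h.bad_card hc'
  intro s hs
  have h1 : X G c s ⊆ nb G (X G c s) x ∪ Bad G (Function.update c t x) := by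
    intro v hv
    rw [Finset.mem_union]
    by_cases hxv : G.Adj x v
    · exact Or.inl (mem_nb.mpr ⟨hv, hxv⟩)
    · right
      rw [mem_Bad]
      intro r hr
      have hvs := mem_X.mp hv
      unfold Ty at hvs hr
      -- Ic c' v has at most one element
      have h2 : ∀ q ∈ Ic G (Function.update c t x) v, q ≠ t ∧ (q = s - 1 ∨ q = s + 1) := by
        intro q hq
        rw [mem_Ic_update] at hq
        rcases hq with hq | hq
        · exact absurd hq.2 hxv
        · rw [hvs, Finset.mem_insert, Finset.mem_singleton] at hq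
          exact hq
      have h3 := h2 (r - 1) (by rw [hr]; simp)
      have h4 := h2 (r + 1) (by rw [hr]; simp)
      rcases hs with rfl | rfl
      · have e1 : r - 1 = t - 1 - 1 := by
          rcases h3.2 with h5 | h5
          · exact h5
          · exact absurd (by rw [h5]; ring) h3.1
        have e2 : r + 1 = t - 1 - 1 := by
          rcases h4.2 with h5 | h5
          · exact h5
          · exact absurd (by rw [h5]; ring) h4.1
        apply n2; linear_combination e2 - e1
      · have e1 : r - 1 = t + 1 + 1 := by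
          rcases h3.2 with h5 | h5
          · exact absurd (by rw [h5]; ring) h3.1
          · exact h5
        have e2 : r + 1 = t + 1 + 1 := by
          rcases h4.2 with h5 | h5
          · exact absurd (by rw [h5]; ring) h4.1
          · exact h5
        apply n2; linear_combination e2 - e1
  have h2 := Finset.card_le_card h1
  have h3 := Finset.card_union_le (nb G (X G c s) x) (Bad G (Function.update c t x))
  unfold dg
  omega

/-- sum of two classes at distance two -/
theorem SA.two_classes [Fintype V] {g M d : ℕ} (h : SA G g M d) [NeZero g] {c : ZMod g → V}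
    (hc : ZC G g c) (t : ZMod g) :
    d ≤ (X G c (t - 1)).card + (X G c (t + 1)).card + (g + 1) * (g ^ 2 * M) := by
  have h1 : nb G Finset.univ (c t) ⊆ (X G c (t - 1) ∪ X G c (t + 1)) ∪ Bad G c := by
    intro v hv
    rw [mem_nb] at hv
    by_cases hb : v ∈ Bad G c
    · exact Finset.mem_union_right _ hb
    · rw [mem_Bad] at hb
      push Not at hb
      obtain ⟨s, hs⟩ := hb
      have h2 : t ∈ Ic G c v := mem_Ic.mpr hv.2
      have hs' := hs
      unfold Ty at hs'
      rw [hs', Finset.mem_insert, Finset.mem_singleton] at h2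
      apply Finset.mem_union_left
      rw [Finset.mem_union, mem_X, mem_X]
      rcases h2 with h2 | h2
      · right; have : t + 1 = s := by rw [h2]; ring
        rw [this]; exact hs
      · left; have : t - 1 = s := by rw [h2]; ring
        rw [this]; exact hs
  have h2 := Finset.card_le_card h1
  have h3 := Finset.card_union_le (X G c (t - 1) ∪ X G c (t + 1)) (Bad G c)
  have h4 := Finset.card_union_le (X G c (t - 1)) (X G c (t + 1))
  have h5 := h.bad_card hc
  have h6 := h.deg (c t)
  unfold dg at h6
  omega

theorem SA.sum_X [Fintype V] {g M d : ℕ} (h : SA G g M d) [NeZero g] (c : ZMod g → V) :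
    ∑ t : ZMod g, (X G c t).card ≤ Fintype.card V := by
  classical
  rw [← Finset.card_biUnion]
  · exact Finset.card_le_univ _
  · intro s _ t _ hst
    rw [Function.onFun, Finset.disjoint_left]
    intro v hv hv'
    exact hst (Ty.unique h.g5 h.godd (mem_X.mp hv) (mem_X.mp hv'))

/-- each class has about `d / 2` elements -/
theorem SA.size [Fintype V] {g M d : ℕ} (h : SA G g M d) [NeZero g] {c : ZMod g → V}
    (hc : ZC G g c) (t : ZMod g) :
    d ≤ 2 * (X G c t).card + g ^ 2 * ((g + 1) * (g ^ 2 * M)) ∧
    2 * (X G c t).card ≤ d + g ^ 2 * ((g + 1) * (g ^ 2 * M)) := by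
  set B := (g + 1) * (g ^ 2 * M) with hB
  have hg := h.g5
  -- lower and upper bounds for sums
  have hlow : ∀ s : ZMod g, d ≤ (X G c s).card + (X G c (s + 2)).card + B := by
    intro s
    have := h.two_classes hc (s + 1)
    have e1 : s + 1 - 1 = s := by ring
    have e2 : s + 1 + 1 = s + 2 := by ring
    rw [e1, e2] at this
    omega
  have htot : ∑ s : ZMod g, ((X G c s).card + (X G c (s + 2)).card) ≤ g * d := by
    rw [Finset.sum_add_distrib]
    have e1 : ∑ s : ZMod g, (X G c (s + 2)).card = ∑ s : ZMod g, (X G c s).card :=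
      Equiv.sum_comp (Equiv.addRight (2 : ZMod g)) (fun s => (X G c s).card)
    have := h.sum_X c
    have := h.two
    omega
  have hup : ∀ s : ZMod g, (X G c s).card + (X G c (s + 2)).card ≤ d + g * B := by
    intro s
    have h1 : ∑ s' ∈ Finset.univ.erase s, d ≤
        ∑ s' ∈ Finset.univ.erase s, ((X G c s').card + (X G c (s' + 2)).card + B) :=
      Finset.sum_le_sum (fun s' _ => hlow s')
    rw [Finset.sum_const, Finset.sum_add_distrib, Finset.sum_const,
      Finset.card_erase_of_mem (Finset.mem_univ _), Finset.card_univ, ZMod.card, smul_eq_mul,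
      smul_eq_mul] at h1
    have h2 := Finset.add_sum_erase Finset.univ
      (fun s' => (X G c s').card + (X G c (s' + 2)).card) (Finset.mem_univ s)
    have h3 : (g - 1) * B ≤ g * B := Nat.mul_le_mul_right _ (by omega)
    have h4 : g * d = (g - 1) * d + d := by
      conv_lhs => rw [show g = (g - 1) + 1 by omega]
      ring
    omega
  -- alternating induction
  have hind : ∀ k : ℕ,
      (k % 2 = 0 → (X G c t).card ≤ (X G c (t + 2 * k)).card + k * (g * B) ∧
        (X G c (t + 2 * k)).card ≤ (X G c t).card + k * (g * B)) ∧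
      (k % 2 = 1 → d ≤ (X G c t).card + (X G c (t + 2 * k)).card + k * (g * B) ∧
        (X G c t).card + (X G c (t + 2 * k)).card ≤ d + k * (g * B)) := by
    intro k
    induction k with
    | zero => simp
    | succ k ih =>
      have h1 := hlow (t + 2 * k)
      have h2 := hup (t + 2 * k)
      have e : t + 2 * ((k + 1 : ℕ) : ZMod g) = t + 2 * k + 2 := by push_cast; ring
      rw [e]
      have e2 : (k + 1) * (g * B) = k * (g * B) + g * B := by ring
      rw [e2]
      have h3 : B ≤ g * B := Nat.le_mul_of_pos_left _ (by omega)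
      rcases Nat.mod_two_eq_zero_or_one k with hk | hk
      · obtain ⟨a1, a2⟩ := ih.1 hk
        refine ⟨fun h => by omega, fun _ => ⟨by omega, by omega⟩⟩
      · obtain ⟨a1, a2⟩ := ih.2 hk
        refine ⟨fun _ => ⟨by omega, by omega⟩, fun h => by omega⟩
  obtain ⟨a1, a2⟩ := (hind g).2 h.godd
  have e : t + 2 * ((g : ℕ) : ZMod g) = t := by simp
  rw [e] at a1 a2
  have e3 : g * (g * B) = g ^ 2 * B := by ring
  rw [e3] at a1 a2
  omega

end Pool.Agent.H34.OC
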