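import Pool.Agent.H34.OC.SA3K

/-!
# Stage A: classification of the vertices and the blow-up structure
-/

set_option autoImplicit false

namespace Pool.Agent.H34.OC

variable {V : Type*} [DecidableEq V] {G : SimpleGraph V}

theorem rep_odd {g : ℕ} (hg : 5 ≤ g) (hodd : g % 2 = 1) [NeZero g] {D : ZMod g} (h0 : D ≠ 0)
    (h2 : D ≠ 2) (h2' : D ≠ -2) : ∃ δ : ZMod g, (δ = 1 ∨ δ = -1) ∧ ∃ o : ℕ, o % 2 = 1 ∧
      o + 4 ≤ g ∧ D = δ * o := by
  obtain ⟨r, hr⟩ : ∃ r, r = D.val := ⟨_, rfl⟩
  have hD : D = (r : ZMod g) := by rw [hr, ZMod.natCast_zmod_val]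
  have hlt : r < g := by rw [hr]; exact ZMod.val_lt _
  have hr0 : r ≠ 0 := by rintro rfl; apply h0; rw [hD]; simp
  have hr2 : r ≠ 2 := by rintro rfl; apply h2; rw [hD]; simp
  have hrg : r ≠ g - 2 := by
    intro h; apply h2'; rw [hD, h, Nat.cast_sub (by omega)]; simp
  rcases Nat.mod_two_eq_zero_or_one r with hp | hp
  · refine ⟨-1, Or.inr rfl, g - r, by omega, by omega, ?_⟩
    rw [hD, Nat.cast_sub hlt.le]; simp
  · exact ⟨1, Or.inl rfl, r, hp, by omega, by rw [hD]; ring⟩

theorem rep_even {g : ℕ} (hg : 5 ≤ g) (hodd : g % 2 = 1) [NeZero g] {D : ZMod g} (h1 : D ≠ 1)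
    (h1' : D ≠ -1) : ∃ δ : ZMod g, (δ = 1 ∨ δ = -1) ∧ ∃ o : ℕ, o % 2 = 0 ∧
      o + 3 ≤ g ∧ D = δ * o := by
  obtain ⟨r, hr⟩ : ∃ r, r = D.val := ⟨_, rfl⟩
  have hD : D = (r : ZMod g) := by rw [hr, ZMod.natCast_zmod_val]
  have hlt : r < g := by rw [hr]; exact ZMod.val_lt _
  have hr1 : r ≠ 1 := by rintro rfl; apply h1; rw [hD]; simp
  have hrg : r ≠ g - 1 := by
    intro h; apply h1'; rw [hD, h, Nat.cast_sub (by omega)]; simp
  rcases Nat.mod_two_eq_zero_or_one r with hp | hp
  · exact ⟨1, Or.inl rfl, r, hp, by omega, by rw [hD]; ring⟩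
  · refine ⟨-1, Or.inr rfl, g - r, by omega, by omega, ?_⟩
    rw [hD, Nat.cast_sub hlt.le]; simp

/-- `y` has many neighbours in the two classes next to `t` -/
def Lo (G : SimpleGraph V) [Fintype V] {g : ℕ} [NeZero g] (c : ZMod g → V) (q : ℕ) (y : V)
    (t : ZMod g) : Prop := ∀ s, (s = t - 1 ∨ s = t + 1) → q ≤ dg G (X G c s) y

/-- walking through the classes -/
theorem class_walk [Fintype V] {g : ℕ} [NeZero g] {c : ZMod g → V} {q : ℕ}
    (hX : ∀ t, ∀ x ∈ X G c t, Lo G c q x t) {δ : ZMod g} (hδ : δ = 1 ∨ δ = -1) (w : ℕ) :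
    ∀ (y : V) (t : ZMod g) (F : Finset V), F.card + w + 2 ≤ q → Lo G c q y t → y ∉ F →
      ∃ z ∈ X G c (t + δ * ((w + 1 : ℕ) : ZMod g)), ∃ S, Pth G y z (w + 1) S ∧ Disjoint S F := by
  induction w with
  | zero =>
    intro y t F hq hy hyF
    have h1 := hy (t + δ) (by rcases hδ with rfl | rfl <;> [right; left] <;> ring)
    obtain ⟨z, hz, hzF⟩ : ∃ z ∈ nb G (X G c (t + δ)) y, z ∉ insert y F := by
      by_contra hcon
      push Not at hcon
      have h2 := Finset.card_le_card
        (show nb G (X G c (t + δ)) y ⊆ insert y F from fun v hv => hcon v hv)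
      have h3 := Finset.card_insert_le y F
      unfold dg at h1
      omega
    rw [mem_nb] at hz
    rw [Finset.mem_insert, not_or] at hzF
    refine ⟨z, by simpa using hz.1, _, Pth.cons hz.2 (Pth.nil z) (by
      rw [Finset.mem_singleton]; exact fun h => hzF.1 h.symm), ?_⟩
    rw [Finset.disjoint_left]
    intro v hv
    rw [Finset.mem_insert, Finset.mem_singleton] at hv
    rcases hv with rfl | rfl
    · exact hyF
    · exact hzF.2
  | succ w ih =>
    intro y t F hq hy hyF
    have h1 := hy (t + δ) (by rcases hδ with rfl | rfl <;> [right; left] <;> ring)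
    obtain ⟨y1, hy1, hyF1⟩ : ∃ z ∈ nb G (X G c (t + δ)) y, z ∉ insert y F := by
      by_contra hcon
      push Not at hcon
      have h2 := Finset.card_le_card
        (show nb G (X G c (t + δ)) y ⊆ insert y F from fun v hv => hcon v hv)
      have h3 := Finset.card_insert_le y F
      unfold dg at h1
      omega
    rw [mem_nb] at hy1
    have h3 := Finset.card_insert_le y F
    obtain ⟨z, hz, S, hp, hS⟩ := ih y1 (t + δ) (insert y F) (by omega) (hX _ _ hy1.1) hyF1
    have hyS : y ∉ S := by
      intro h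
      exact Finset.disjoint_left.mp hS h (Finset.mem_insert_self _ _)
    refine ⟨z, ?_, _, Pth.cons hy1.2 hp hyS, ?_⟩
    · have e : t + δ * ((w + 1 + 1 : ℕ) : ZMod g) = t + δ + δ * ((w + 1 : ℕ) : ZMod g) := by
        push_cast; ring
      rw [e]; exact hz
    · rw [Finset.disjoint_left]
      intro v hv hvF
      rcases Finset.mem_insert.mp hv with rfl | hv
      · exact hyF hvF
      · exact Finset.disjoint_left.mp hS hv (Finset.mem_insert_of_mem hvF)

theorem inter_ge {U : Finset V} {y z : V} {a b : ℕ} (h1 : a ≤ dg G U y)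
    (h2 : U.card ≤ dg G U z + b) [Fintype V] :
    a ≤ (nb G Finset.univ y ∩ nb G Finset.univ z).card + b := by
  have h3 := Finset.card_union_add_card_inter (nb G U y) (nb G U z)
  have h4 : (nb G U y ∪ nb G U z).card ≤ U.card :=
    Finset.card_le_card (Finset.union_subset (nb_subset _ _) (nb_subset _ _))
  have h5 : (nb G U y ∩ nb G U z).card ≤ (nb G Finset.univ y ∩ nb G Finset.univ z).card :=
    Finset.card_le_card (Finset.inter_subset_inter (nb_mono (Finset.subset_univ _) _)
      (nb_mono (Finset.subset_univ _) _))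
  unfold dg at h1 h2
  omega

/-- numerical hypotheses for the classification -/
structure SN (g M d A B q : ℕ) : Prop where
  hB : B = (g + 1) * (g ^ 2 * M)
  hA : A = g ^ 2 * B
  hq : 2 * q + A + 2 * B ≤ d
  hq2 : d ≤ 2 * q + A + 2 * B + 1
  hqg : 4 * g + 10 ≤ q
  h1 : d + A + 2 * M ≤ 4 * q
  h3 : 8 * g * (B + M + 10) ≤ q

/-- vertices of a class -/
theorem SA.lo_of_X [Fintype V] {g M d A B q : ℕ} (h : SA G g M d) (hn : SN g M d A B q)
    [NeZero g] {c : ZMod g → V} (hc : ZC G g c) (t : ZMod g) (x : V) (hx : x ∈ X G c t) :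
    Lo G c q x t := by
  intro s hs
  have h1 := h.near hc (mem_X.mp hx) s hs
  have h2 := (h.size hc s).1
  rw [← hn.hB] at h1 h2
  rw [← hn.hA] at h2
  have := hn.hq
  omega

theorem SA.class_le [Fintype V] {g M d A B q : ℕ} (h : SA G g M d) (hn : SN g M d A B q)
    [NeZero g] {c : ZMod g → V} (hc : ZC G g c) (t : ZMod g) : 2 * (X G c t).card ≤ d + A := by
  have h2 := (h.size hc t).2
  rw [← hn.hB, ← hn.hA] at h2
  exact h2

theorem SA.link_common [Fintype V] {g M d A B q : ℕ} (h : SA G g M d) (hn : SN g M d A B q)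
    [NeZero g] {c : ZMod g → V} (hc : ZC G g c) {y z : V} (hyz : y ≠ z) {s : ZMod g}
    (h1 : q ≤ dg G (X G c s) y) (h2 : q ≤ dg G (X G c s) z) : Lk G M y z := by
  refine ⟨hyz, ?_⟩
  have h3 := h.class_le hn hc s
  have h4 := inter_ge (b := (X G c s).card - q) h1 (show (X G c s).card ≤ dg G (X G c s) z + ((X G c s).card - q) by omega)
  have := hn.h1
  have h5 := dg_le (G := G) (X G c s) y
  omega

/-- The neighbours of a vertex with a heavy class `l`. -/
theorem SA.heavy [Fintype V] {g M d A B q : ℕ} (h : SA G g M d) (hn : SN g M d A B q)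
    [NeZero g] {c : ZMod g → V} (hc : ZC G g c) {y : V} {l : ZMod g}
    (hl : B + M ≤ dg G (X G c l) y) {j : ZMod g} {x : V} (hx : x ∈ X G c j) (hyx : G.Adj y x) :
    j = l ∨ j = l + 2 ∨ j = l - 2 := by
  by_contra hcon
  push Not at hcon
  obtain ⟨h1, h2, h3⟩ := hcon
  have hg := h.g5
  have hodd := h.godd
  obtain ⟨δ, hδ, o, ho, hog, hD⟩ := rep_odd hg hodd (D := j - l)
    (fun he => h1 (by linear_combination he)) (fun he => h2 (by linear_combination he))
    (fun he => h3 (by linear_combination he))
  -- a path of length `o` from `y` to a vertex of the class `l + δ`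
  have hpath : ∃ z ∈ X G c (l + δ), ∃ S, Pth G y z o S ∧ y ≠ z := by
    rcases Nat.lt_or_ge o 2 with hlt | hge
    · have : o = 1 := by omega
      subst this
      refine ⟨x, ?_, _, Pth.cons hyx (Pth.nil x) (by
        rw [Finset.mem_singleton]; exact hyx.ne), hyx.ne⟩
      have e : l + δ = j := by
        have : j - l = δ := by rw [hD]; simp
        linear_combination -this
      rw [e]; exact hx
    · have hqg := hn.hqg
      obtain ⟨z, hz, S, hp, hS⟩ := class_walk (h.lo_of_X hn hc) (δ := -δ)
        (by rcases hδ with rfl | rfl <;> simp) (o - 2) x j {y} (by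
          rw [Finset.card_singleton]; omega) (h.lo_of_X hn hc j x hx) (by
          rw [Finset.mem_singleton]; exact hyx.ne.symm)
      have hyS : y ∉ S := fun hy => Finset.disjoint_left.mp hS hy (Finset.mem_singleton_self y)
      refine ⟨z, ?_, _, (Pth.cons hyx hp hyS).congr rfl rfl (by omega) rfl, ?_⟩
      · have e : j + -δ * ((o - 2 + 1 : ℕ) : ZMod g) = l + δ := by
          have e2 : (o - 2 + 1 : ℕ) = o - 1 := by omega
          rw [e2, Nat.cast_sub (by omega)]
          push_cast
          linear_combination hD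
        rw [← e]; exact hz
      · rintro rfl; exact hyS hp.right_mem
  obtain ⟨z, hz, S, hp, hyz⟩ := hpath
  have hL : Lk G M y z := by
    refine ⟨hyz, ?_⟩
    have h4 := h.near hc (mem_X.mp hz) l (by
      rcases hδ with rfl | rfl
      · left; ring
      · right; ring)
    rw [← hn.hB] at h4
    have h5 := inter_ge hl h4
    omega
  have := h.min _ _ _ _ hL hp ho
  omega

/-- classification of all vertices -/
theorem SA.classify [Fintype V] {g M d A B q : ℕ} (h : SA G g M d) (hn : SN g M d A B q)
    [NeZero g] {c : ZMod g → V} (hc : ZC G g c) (y : V) :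
    ∃ t, Lo G c q y t ∧ ∀ s x, x ∈ X G c s → G.Adj y x → s = t - 1 ∨ s = t + 1 := by
  classical
  obtain ⟨n1, n2, n4, n6, n3⟩ := zmod_ne h.g5 h.godd
  have hg := h.g5
  -- degree decomposition
  have hdec : ∀ T : Finset (ZMod g), (∀ s x, x ∈ X G c s → G.Adj y x → s ∈ T) →
      d ≤ ∑ s ∈ T, dg G (X G c s) y + B := by
    intro T hT
    have h1 : nb G Finset.univ y ⊆ T.biUnion (fun s => nb G (X G c s) y) ∪ Bad G c := by
      intro v hv
      rw [mem_nb] at hv
      rw [Finset.mem_union]
      by_cases hb : v ∈ Bad G c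
      · exact Or.inr hb
      · left
        rw [mem_Bad] at hb
        push Not at hb
        obtain ⟨s, hs⟩ := hb
        rw [Finset.mem_biUnion]
        exact ⟨s, hT s v (mem_X.mpr hs) hv.2, mem_nb.mpr ⟨mem_X.mpr hs, hv.2⟩⟩
    have h2 := (Finset.card_le_card h1).trans (Finset.card_union_le _ _)
    have h3 : (T.biUnion (fun s => nb G (X G c s) y)).card ≤ ∑ s ∈ T, dg G (X G c s) y :=
      Finset.card_biUnion_le
    have h4 := h.bad_card hc
    rw [← hn.hB] at h4
    have h5 := h.deg y
    unfold dg at h5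
    omega
  -- a heavy class
  obtain ⟨l, hl⟩ : ∃ l, B + M ≤ dg G (X G c l) y := by
    by_contra hcon
    push Not at hcon
    have h1 := hdec Finset.univ (fun _ _ _ _ => Finset.mem_univ _)
    have h2 : ∑ s : ZMod g, dg G (X G c s) y ≤ ∑ _s : ZMod g, (B + M) :=
      Finset.sum_le_sum (fun s _ => (hcon s).le)
    rw [Finset.sum_const, Finset.card_univ, ZMod.card, smul_eq_mul] at h2
    have h3 := hn.hq
    have h4 := hn.h3
    have h5 : 8 * g * (B + M + 10) = 8 * (g * (B + M)) + 80 * g := by ring
    omega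
  -- two steps
  have hthree := fun s x hx hyx => h.heavy hn hc hl (j := s) (x := x) hx hyx
  have hcl := fun t => h.class_le hn hc t
  have hdgle : ∀ s, dg G (X G c s) y ≤ (X G c s).card := fun s => dg_le _ _
  have hd3 := hdec {l, l + 2, l - 2} (by
    intro s x hx hyx
    rw [Finset.mem_insert, Finset.mem_insert, Finset.mem_singleton]
    exact hthree s x hx hyx)
  have e1 : l ∉ ({l + 2, l - 2} : Finset (ZMod g)) := by
    rw [Finset.mem_insert, Finset.mem_singleton]
    rintro (he | he)
    · apply n2; linear_combination -he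
    · apply n2; linear_combination he
  have e2 : l + 2 ∉ ({l - 2} : Finset (ZMod g)) := by
    rw [Finset.mem_singleton]
    intro he; apply n4; linear_combination he
  rw [Finset.sum_insert e1, Finset.sum_insert e2, Finset.sum_singleton] at hd3
  have hq := hn.hq
  have h3 := hn.h3
  have hgB : 40 * (B + M + 10) ≤ 8 * g * (B + M + 10) := Nat.mul_le_mul_right _ (by omega)
  have key : ∀ δ : ZMod g, (δ = 1 ∨ δ = -1) → B + M ≤ dg G (X G c (l + 2 * δ)) y →
      ∃ t, Lo G c q y t ∧ ∀ s x, x ∈ X G c s → G.Adj y x → s = t - 1 ∨ s = t + 1 := by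
    intro δ hδ hl2
    have h4 := fun s x hx hyx => h.heavy hn hc hl2 (j := s) (x := x) hx hyx
    have h5 : ∀ s x, x ∈ X G c s → G.Adj y x → s = l ∨ s = l + 2 * δ := by
      intro s x hx hyx
      have a1 := hthree s x hx hyx
      have a2 := h4 s x hx hyx
      rcases hδ with rfl | rfl
      · rcases a1 with a | a | a
        · exact Or.inl a
        · right; rw [a]; ring
        · exfalso
          rcases a2 with b | b | b
          · apply n4; linear_combination a - b
          · apply n6; linear_combination a - b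
          · apply n2; linear_combination a - b
      · rcases a1 with a | a | a
        · exact Or.inl a
        · exfalso
          rcases a2 with b | b | b
          · apply n4; linear_combination b - a
          · apply n2; linear_combination b - a
          · apply n6; linear_combination b - a
        · right; rw [a]; ring
    have h6 := hdec {l, l + 2 * δ} (by
      intro s x hx hyx
      rw [Finset.mem_insert, Finset.mem_singleton]
      exact h5 s x hx hyx)
    have e3 : l ∉ ({l + 2 * δ} : Finset (ZMod g)) := by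
      rw [Finset.mem_singleton]
      intro he
      rcases hδ with rfl | rfl
      · apply n2; linear_combination -he
      · apply n2; linear_combination he
    rw [Finset.sum_insert e3, Finset.sum_singleton] at h6
    have h7 := hcl l
    have h8 := hcl (l + 2 * δ)
    have h9 := hdgle l
    have h10 := hdgle (l + 2 * δ)
    have hA : q ≤ dg G (X G c l) y := by omega
    have hB : q ≤ dg G (X G c (l + 2 * δ)) y := by omega
    refine ⟨l + δ, ?_, ?_⟩
    · intro s hs
      rcases hδ with rfl | rfl
      · rcases hs with rfl | rfl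
        · have : l + 1 - 1 = l := by ring
          rw [this]; exact hA
        · have : l + 1 + 1 = l + 2 * 1 := by ring
          rw [this]; exact hB
      · rcases hs with rfl | rfl
        · have : l + -1 - 1 = l + 2 * -1 := by ring
          rw [this]; exact hB
        · have : l + -1 + 1 = l := by ring
          rw [this]; exact hA
    · intro s x hx hyx
      rcases hδ with rfl | rfl
      · rcases h5 s x hx hyx with a | a
        · left; rw [a]; ring
        · right; rw [a]; ring
      · rcases h5 s x hx hyx with a | a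
        · right; rw [a]; ring
        · left; rw [a]; ring
  by_cases hp : B + M ≤ dg G (X G c (l + 2)) y
  · refine key 1 (Or.inl rfl) ?_
    rw [mul_one]; exact hp
  · refine key (-1) (Or.inr rfl) ?_
    have e3 : l + 2 * (-1) = l - 2 := by ring
    rw [e3]
    have h7 := hcl l
    have h9 := hdgle l
    omega

/-- adjacent vertices have adjacent types -/
theorem SA.hom [Fintype V] {g M d A B q : ℕ} (h : SA G g M d) (hn : SN g M d A B q)
    [NeZero g] {c : ZMod g → V} (hc : ZC G g c) {y y' : V} {s t : ZMod g} (hyy : G.Adj y y')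
    (hy : Lo G c q y s) (hy' : Lo G c q y' t) : t = s + 1 ∨ t = s - 1 := by
  by_contra hcon
  push Not at hcon
  have hg := h.g5
  have hodd := h.godd
  obtain ⟨δ, hδ, o, ho, hog, hD⟩ := rep_even hg hodd (D := t - s)
    (fun he => hcon.1 (by linear_combination he)) (fun he => hcon.2 (by linear_combination he))
  rcases Nat.eq_zero_or_pos o with h0 | hpos
  · subst h0
    have e : t = s := by
      have : t - s = 0 := by rw [hD]; simp
      linear_combination this
    subst e
    have hL := h.link_common hn hc hyy.ne (s := t + 1) (hy _ (Or.inr rfl)) (hy' _ (Or.inr rfl))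
    have := h.min _ _ _ _ hL (Pth.cons hyy (Pth.nil y') (by
      rw [Finset.mem_singleton]; exact hyy.ne)) (by norm_num)
    omega
  · have hpath : ∃ z, Lo G c q z (s + 2 * δ) ∧ ∃ S, Pth G y z (o - 1) S ∧ y ≠ z := by
      rcases Nat.lt_or_ge o 3 with hlt | hge
      · have : o = 2 := by omega
        subst this
        refine ⟨y', ?_, _, (Pth.cons hyy (Pth.nil y') (by
          rw [Finset.mem_singleton]; exact hyy.ne)), hyy.ne⟩
        have e : s + 2 * δ = t := by
          push_cast at hD
          linear_combination -hD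
        rw [e]; exact hy'
      · have hqg := hn.hqg
        obtain ⟨z, hz, S, hp, hS⟩ := class_walk (h.lo_of_X hn hc) (δ := -δ)
          (by rcases hδ with rfl | rfl <;> simp) (o - 3) y' t {y} (by
            rw [Finset.card_singleton]; omega) hy' (by
            rw [Finset.mem_singleton]; exact hyy.ne.symm)
        have hyS : y ∉ S := fun hy => Finset.disjoint_left.mp hS hy (Finset.mem_singleton_self y)
        refine ⟨z, ?_, _, (Pth.cons hyy hp hyS).congr rfl rfl (by omega) rfl, ?_⟩
        · have e : t + -δ * ((o - 3 + 1 : ℕ) : ZMod g) = s + 2 * δ := by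
            have e2 : (o - 3 + 1 : ℕ) = o - 2 := by omega
            rw [e2, Nat.cast_sub (by omega)]
            push_cast
            linear_combination hD
          rw [← e]; exact h.lo_of_X hn hc _ z hz
        · rintro rfl; exact hyS hp.right_mem
    obtain ⟨z, hz, S, hp, hyz⟩ := hpath
    have hL : Lk G M y z := by
      refine h.link_common hn hc hyz (s := s + δ) ?_ ?_
      · apply hy
        rcases hδ with rfl | rfl
        · right; rfl
        · left; ring
      · apply hz
        rcases hδ with rfl | rfl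
        · left; ring
        · right; ring
    have := h.min _ _ _ _ hL hp (by omega)
    omega

theorem SA.blowup {V : Type} [DecidableEq V] [Fintype V] {G : SimpleGraph V} {g M d k : ℕ}
    [NeZero g] (hk : g = k + 2) (h : SA G g M d) {c : ZMod g → V} (hc : ZC G g c)
    (hbig : 1000 * g ^ 7 * M ≤ d) :
    ∃ s, Nonempty (G ≃g (SimpleGraph.cycleGraph (k + 2)).comap
            (Prod.fst : Fin (k + 2) × Fin s → Fin (k + 2))) := by
  classical
  have hg := h.g5
  have hM := h.M1
  obtain ⟨B, hB⟩ : ∃ B, B = (g + 1) * (g ^ 2 * M) := ⟨_, rfl⟩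
  obtain ⟨A, hA⟩ : ∃ A, A = g ^ 2 * B := ⟨_, rfl⟩
  obtain ⟨q, hq⟩ : ∃ q, q = (d - A - 2 * B) / 2 := ⟨_, rfl⟩
  have hn : SN g M d A B q := by
    obtain ⟨P, hP⟩ : ∃ P, P = g ^ 7 * M := ⟨_, rfl⟩
    have hpow : ∀ a, a ≤ 7 → g ^ a * M ≤ P := by
      intro a ha
      rw [hP]
      exact Nat.mul_le_mul_right _ (Nat.pow_le_pow_right (by omega) ha)
    have h1000 : 1000 * P ≤ d := by
      rw [hP, ← mul_assoc]; exact hbig
    have hBe : B = g ^ 3 * M + g ^ 2 * M := by rw [hB]; ring
    have hAe : A = g ^ 5 * M + g ^ 4 * M := by rw [hA, hBe]; ring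
    have hgBe : g * B = g ^ 4 * M + g ^ 3 * M := by rw [hBe]; ring
    have hgM : g * M = g ^ 1 * M := by ring
    have hMe : M = g ^ 0 * M := by ring
    have p0 := hpow 0 (by norm_num)
    have p1 := hpow 1 (by norm_num)
    have p2 := hpow 2 (by norm_num)
    have p3 := hpow 3 (by norm_num)
    have p4 := hpow 4 (by norm_num)
    have p5 := hpow 5 (by norm_num)
    have hgP : g ≤ g * M := Nat.le_mul_of_pos_right _ hM
    have h3 : 8 * g * (B + M + 10) = 8 * (g * B) + 8 * (g * M) + 80 * g := by ring
    have hP1 : 5 ≤ P := by omega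
    refine ⟨hB, hA, ?_, ?_, ?_, ?_, ?_⟩
    · omega
    · omega
    · omega
    · omega
    · omega
  choose φ hφ1 hφ2 using fun y => h.classify hn hc y
  refine iso_of_phi hk hg h.godd h.deg h.two φ ?_ ?_
  · intro y y' hyy
    exact h.hom hn hc hyy (hφ1 y) (hφ1 y')
  · intro t
    have hsz := (h.size hc t).1
    rw [← hB, ← hA] at hsz
    have hq2 := hn.hq
    have hqg := hn.hqg
    obtain ⟨v, hv⟩ : (X G c t).Nonempty := by
      rw [← Finset.card_pos]; omega
    refine ⟨v, ?_⟩
    have hlo := h.lo_of_X hn hc t v hv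
    have key : ∀ s, (s = t - 1 ∨ s = t + 1) → (s = φ v - 1 ∨ s = φ v + 1) := by
      intro s hs
      have h1 := hlo s hs
      obtain ⟨x, hx⟩ : (nb G (X G c s) v).Nonempty := by
        rw [← Finset.card_pos]; unfold dg at h1; omega
      rw [mem_nb] at hx
      exact hφ2 v s x hx.1 hx.2
    exact (zmod_pair hg h.godd (key _ (Or.inl rfl)) (key _ (Or.inr rfl))).symm

end Pool.Agent.H34.OC
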