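import Pool.Agent.H34.OC.SA2

/-!
# Stage A: a homomorphism to the odd cycle gives the blow-up
-/

set_option autoImplicit false

namespace Pool.Agent.H34.OC

theorem zmod_four {g : ℕ} (hodd : g % 2 = 1) [NeZero g] (f : ZMod g → ℕ)
    (h : ∀ t, f (t + 4) = f t) (s t : ZMod g) : f s = f t := by
  have h1 : ∀ n : ℕ, ∀ t, f (t + 4 * n) = f t := by
    intro n
    induction n with
    | zero => intro t; simp
    | succ n ih =>
      intro t
      have e : t + 4 * ((n + 1 : ℕ) : ZMod g) = (t + 4 * n) + 4 := by push_cast; ring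
      rw [e, h, ih]
  have hco : Nat.Coprime 4 g := by
    have : Nat.Coprime 2 g := (Nat.coprime_two_left).mpr (Nat.odd_iff.mpr hodd)
    exact (Nat.Coprime.pow_left 2 this)
  have h2 : ((4 : ℕ) : ZMod g) * ((4 : ℕ) : ZMod g)⁻¹ = 1 := ZMod.coe_mul_inv_eq_one 4 hco
  have h3 := h1 (((4 : ℕ) : ZMod g)⁻¹ * (s - t)).val t
  rw [ZMod.natCast_zmod_val] at h3
  have h4 : t + 4 * (((4 : ℕ) : ZMod g)⁻¹ * (s - t)) = s := by
    push_cast at h2 ⊢
    linear_combination (s - t) * h2
  rw [h4] at h3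
  exact h3

theorem iso_of_phi {V : Type} [DecidableEq V] [Fintype V] {G : SimpleGraph V} {g k d : ℕ}
    [NeZero g] (hk : g = k + 2) (hg : 5 ≤ g) (hodd : g % 2 = 1)
    (hdeg : ∀ v, d ≤ dg G Finset.univ v) (h2n : 2 * Fintype.card V ≤ g * d) (φ : V → ZMod g)
    (hom : ∀ y y', G.Adj y y' → φ y' = φ y + 1 ∨ φ y' = φ y - 1) (hne : ∀ t, ∃ v, φ v = t) :
    ∃ s, Nonempty (G ≃g (SimpleGraph.cycleGraph (k + 2)).comap
            (Prod.fst : Fin (k + 2) × Fin s → Fin (k + 2))) := by
  classical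
  obtain ⟨n1, n2, n4, n6, n3⟩ := zmod_ne hg hodd
  set F : ZMod g → Finset V := fun t => Finset.univ.filter (fun v => φ v = t) with hF
  have hmF : ∀ t v, v ∈ F t ↔ φ v = t := by intro t v; simp [hF]
  have hnb : ∀ v, nb G Finset.univ v ⊆ F (φ v - 1) ∪ F (φ v + 1) := by
    intro v w hw
    rw [mem_nb] at hw
    rw [Finset.mem_union, hmF, hmF]
    rcases hom v w hw.2 with h | h
    · exact Or.inr h
    · exact Or.inl h
  have hdisj : ∀ t, Disjoint (F (t - 1)) (F (t + 1)) := by
    intro t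
    rw [Finset.disjoint_left]
    intro v hv hv'
    rw [hmF] at hv hv'
    apply n2
    linear_combination hv - hv'
  have hcu : ∀ t, (F (t - 1) ∪ F (t + 1)).card = (F (t - 1)).card + (F (t + 1)).card :=
    fun t => Finset.card_union_of_disjoint (hdisj t)
  have hlow : ∀ t, d ≤ (F (t - 1)).card + (F (t + 1)).card := by
    intro t
    obtain ⟨v, rfl⟩ := hne t
    have h1 := hdeg v
    have h2 := Finset.card_le_card (hnb v)
    rw [hcu] at h2
    unfold dg at h1
    omega
  have hsumF : ∑ t : ZMod g, (F t).card = Fintype.card V := by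
    rw [← Finset.card_univ]
    exact (Finset.card_eq_sum_card_fiberwise (f := φ) (t := Finset.univ)
      (fun v _ => Finset.mem_univ _)).symm
  have hsum : ∑ t : ZMod g, ((F (t - 1)).card + (F (t + 1)).card) = 2 * Fintype.card V := by
    rw [Finset.sum_add_distrib]
    have e1 : ∑ t : ZMod g, (F (t - 1)).card = ∑ t : ZMod g, (F t).card :=
      Equiv.sum_comp (Equiv.subRight (1 : ZMod g)) (fun t => (F t).card)
    have e2 : ∑ t : ZMod g, (F (t + 1)).card = ∑ t : ZMod g, (F t).card :=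
      Equiv.sum_comp (Equiv.addRight (1 : ZMod g)) (fun t => (F t).card)
    rw [e1, e2, hsumF]; ring
  have heq : ∀ t, (F (t - 1)).card + (F (t + 1)).card = d := by
    intro t
    by_contra hcon
    have h1 := hlow t
    have h2 : ∑ _t : ZMod g, d < ∑ t : ZMod g, ((F (t - 1)).card + (F (t + 1)).card) :=
      Finset.sum_lt_sum (fun t _ => hlow t) ⟨t, Finset.mem_univ _, by omega⟩
    rw [hsum, Finset.sum_const, Finset.card_univ, ZMod.card, smul_eq_mul] at h2
    omega
  have hall : ∀ t, (F t).card = (F 0).card := by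
    intro t
    apply zmod_four hodd (fun t => (F t).card)
    intro t
    have h1 := heq (t + 1)
    have h2 := heq (t + 3)
    have e1 : t + 1 - 1 = t := by ring
    have e2 : t + 1 + 1 = t + 2 := by ring
    have e3 : t + 3 - 1 = t + 2 := by ring
    have e4 : t + 3 + 1 = t + 4 := by ring
    rw [e1, e2] at h1
    rw [e3, e4] at h2
    show (F (t + 4)).card = (F t).card
    omega
  have hadj : ∀ v w, G.Adj v w ↔ (φ w = φ v + 1 ∨ φ w = φ v - 1) := by
    intro v w
    refine ⟨hom v w, ?_⟩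
    intro h
    have h1 : nb G Finset.univ v = F (φ v - 1) ∪ F (φ v + 1) := by
      apply Finset.eq_of_subset_of_card_le (hnb v)
      rw [hcu, heq]
      exact hdeg v
    have h2 : w ∈ nb G Finset.univ v := by
      rw [h1, Finset.mem_union, hmF, hmF]
      tauto
    exact (mem_nb.mp h2).2
  obtain ⟨s, hs⟩ : ∃ s, s = (F 0).card := ⟨_, rfl⟩
  refine ⟨s, ?_⟩
  subst hk
  have hfib : ∀ t : ZMod (k + 2), Nonempty ({v // φ v = t} ≃ Fin s) := by
    intro t
    refine ⟨Fintype.equivFinOfCardEq ?_⟩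
    rw [Fintype.card_subtype, hs, ← hall t]
  have ε : ∀ t : ZMod (k + 2), {v // φ v = t} ≃ Fin s := fun t => (hfib t).some
  set ψ : V ≃ Fin (k + 2) × Fin s :=
    (Equiv.sigmaFiberEquiv φ).symm.trans ((Equiv.sigmaCongrRight ε).trans
      (Equiv.sigmaEquivProd (ZMod (k + 2)) (Fin s))) with hψ
  have hψ1 : ∀ v, (ψ v).1 = φ v := fun v => rfl
  refine ⟨⟨ψ, ?_⟩⟩
  intro a b
  rw [SimpleGraph.comap_adj, hadj]
  refine (SimpleGraph.cycleGraph_adj (u := (ψ a).1) (v := (ψ b).1)).trans ?_
  constructor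
  · rintro (h | h)
    · right
      have h' : φ a - φ b = 1 := h
      linear_combination -h'
    · left
      have h' : φ b - φ a = 1 := h
      linear_combination h'
  · rintro (h | h)
    · right
      show φ b - φ a = 1
      rw [h]; ring
    · left
      show φ a - φ b = 1
      rw [h]; ring

end Pool.Agent.H34.OC
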