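import Pool.Agent.H34.OC.SA2

/-!
# Stage A: a short odd path between linked vertices, or the structure `SA` with a `g`-cycle
-/

set_option autoImplicit false

namespace Pool.Agent.H34.OC

variable {V : Type*} [DecidableEq V] {G : SimpleGraph V}

theorem Lk.symm [Fintype V] {M : ℕ} {u v : V} (h : Lk G M u v) : Lk G M v u :=
  ⟨h.1.symm, by rw [Finset.inter_comm]; exact h.2⟩

/-- among `g` vertices two are linked -/
theorem exists_linked [Fintype V] {g M d : ℕ} (hdeg : ∀ v, d ≤ dg G Finset.univ v)
    (h2 : 2 * Fintype.card V ≤ g * d) {W : Finset V} (hW : 2 * W.card = g + 1)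
    (hbig : (g + 1) ^ 2 * M < d) : ∃ w ∈ W, ∃ w' ∈ W, Lk G M w w' := by
  obtain ⟨w, hw, w', hw', h3, h4⟩ := codeg_pigeon (W := W) (f := fun v => nb G Finset.univ v)
    (D := Finset.univ) (μ := d) (M := M) (fun _ _ => Finset.subset_univ _)
    (fun w _ => hdeg w) (by
      rw [Finset.card_univ]
      have h5 : W.card ^ 2 * M ≤ (g + 1) ^ 2 * M / 2 := by
        rw [Nat.le_div_iff_mul_le (by norm_num)]
        have : (g + 1) ^ 2 = 4 * W.card ^ 2 := by rw [← hW]; ring
        rw [this]
        nlinarith [Nat.zero_le (W.card ^ 2 * M)]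
      have h6 : 2 * (W.card * d) = g * d + d := by
        rw [← mul_assoc, hW]; ring
      omega)
  exact ⟨w, hw, w', hw', h3, h4⟩

theorem stageA [Fintype V] {g M d Λ : ℕ} (hg : 5 ≤ g) (hodd : g % 2 = 1)
    (hdeg : ∀ v, d ≤ dg G Finset.univ v) (h2 : 2 * Fintype.card V ≤ g * d)
    (hc : BConn G Λ) (h3 : Three V) (hn : ¬ G.Colorable 2) (hM : g ≤ M)
    (hbig : (g + 1) * ((g + 1) ^ 2 * M + ((Λ + 2) ^ 2 + (2 * Λ + 1)) + 1) < d) :
    (∃ u v m S, Lk G M u v ∧ Pth G u v m S ∧ m % 2 = 1 ∧ m + 4 ≤ g) ∨
    (SA G g M d ∧ ∃ c : ZMod g → V, ZC G g c) := by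
  classical
  set L0 := (Λ + 2) ^ 2 + (2 * Λ + 1) with hL0
  have hnz : NeZero g := ⟨by omega⟩
  have hMd : (g + 1) ^ 2 * M < d := by nlinarith [Nat.zero_le ((g + 1) ^ 2 * M), Nat.zero_le L0]
  have hgM : g * g < (g + 1) ^ 2 * M := by nlinarith
  -- number of vertices
  obtain ⟨v0⟩ : Nonempty V := by
    by_contra hcon
    rw [not_nonempty_iff] at hcon
    exact hn ⟨⟨fun v => (hcon.elim v), fun {v} => hcon.elim v⟩⟩
  have hcard : g + 1 ≤ Fintype.card V := by
    have h4 := hdeg v0
    have h5 := dg_le (G := G) Finset.univ v0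
    rw [Finset.card_univ] at h5
    nlinarith
  obtain ⟨W, hWs, hWc⟩ := Finset.exists_subset_card_eq (s := (Finset.univ : Finset V))
    (n := (g + 1) / 2) (by rw [Finset.card_univ]; omega)
  obtain ⟨w, _, w', _, hww⟩ := exists_linked (M := M) hdeg h2 (W := W) (by omega) hMd
  have hex : ∃ m, ∃ u v S, Lk G M u v ∧ Pth G u v m S ∧ m % 2 = 1 := by
    obtain ⟨m, S, h4, h5, h6⟩ := odd_path hc h3 hn hww.1
    exact ⟨m, w, w', S, hww, h6, h4⟩
  have hmin : ∀ m', m' < Nat.find hex → ∀ u v S, Lk G M u v → Pth G u v m' S → m' % 2 = 1 →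
      False := by
    intro m' hm' u v S h4 h5 h6
    exact Nat.find_min hex hm' ⟨u, v, S, h4, h5, h6⟩
  obtain ⟨u, v, S, hL, hp, hmodd⟩ := Nat.find_spec hex
  have hmL : Nat.find hex ≤ L0 := by
    obtain ⟨m, S', h4, h5, h6⟩ := odd_path hc h3 hn hww.1
    exact (Nat.find_min' hex ⟨w, w', S', hww, h6, h4⟩).trans h5
  set m0 := Nat.find hex with hm0
  rcases Nat.lt_or_ge m0 (g - 3) with hsm | hge
  · exact Or.inl ⟨u, v, m0, S, hL, hp, hmodd, by omega⟩
  right
  rcases Nat.lt_or_ge m0 g with hlt | hge2
  · -- the case m0 = g - 2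
    have hm0e : m0 = g - 2 := by omega
    refine ⟨⟨hg, hodd, hdeg, h2, ?_, by omega⟩, ?_⟩
    · intro u v m S h4 h5 h6
      by_contra hcon
      exact hmin m (by omega) u v S h4 h5 h6
    · have hSc := hp.card
      obtain ⟨z, hz, hzS⟩ : ∃ z ∈ nb G Finset.univ u ∩ nb G Finset.univ v, z ∉ S := by
        by_contra hcon
        push Not at hcon
        have := Finset.card_le_card (show nb G Finset.univ u ∩ nb G Finset.univ v ⊆ S from hcon)
        have := hL.2
        omega
      rw [Finset.mem_inter, mem_nb, mem_nb] at hz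
      have hcyc : HasCyc G g := by
        refine ⟨by omega, z, v, insert z S, ?_, hz.2.2⟩
        have := Pth.cons hz.1.2.symm hp hzS
        exact this.congr rfl rfl (by omega) rfl
      obtain ⟨x, hx⟩ := hcyc.cseq
      exact ⟨_, hx.zc⟩
  · -- the case m0 ≥ g : contradiction by counting
    exfalso
    obtain ⟨x, hx, hx0, hxm, hxS⟩ := hp.seq
    set E : Finset V := ((Finset.range (g + 1) ×ˢ Finset.range (g + 1)).filter (fun p =>
      (nb G Finset.univ (x p.1) ∩ nb G Finset.univ (x p.2)).card < M)).biUnion
        (fun p => nb G Finset.univ (x p.1) ∩ nb G Finset.univ (x p.2)) with hE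
    have hEc : E.card ≤ (g + 1) ^ 2 * M := by
      refine Finset.card_biUnion_le.trans ?_
      refine (Finset.sum_le_card_nsmul _ _ M ?_).trans ?_
      · intro p hp
        exact ((Finset.mem_filter.mp hp).2).le
      · rw [smul_eq_mul]
        refine Nat.mul_le_mul_right _ ?_
        refine (Finset.card_filter_le _ _).trans ?_
        rw [Finset.card_product, Finset.card_range, pow_two]
    set ps : V → Finset ℕ := fun y => (Finset.range (g + 1)).filter (fun i => G.Adj (x i) y)
      with hps
    have hpsc : ∀ y, y ∉ E → y ∉ img x 0 m0 → (ps y).card ≤ 2 := by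
      intro y hyE hyI
      have hpair : ∀ p ∈ ps y, ∀ q ∈ ps y, p < q →
          (((q - p) % 2 = 1 → p = 0 ∧ q = m0) ∧ ((q - p) % 2 = 0 → q = p + 2)) := by
        intro p hp q hq hpq
        rw [hps, Finset.mem_filter, Finset.mem_range] at hp hq
        constructor
        · intro hpar
          by_contra hcon
          have hlk : Lk G M (x p) (x q) := by
            refine ⟨fun h => ?_, ?_⟩
            · have := hx.inj p q (by omega) (by omega) h
              omega
            · by_contra hlt
              push Not at hlt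
              apply hyE
              rw [hE, Finset.mem_biUnion]
              refine ⟨(p, q), ?_, ?_⟩
              · rw [Finset.mem_filter, Finset.mem_product, Finset.mem_range, Finset.mem_range]
                exact ⟨⟨hp.1, hq.1⟩, hlt⟩
              · rw [Finset.mem_inter, mem_nb, mem_nb]
                exact ⟨⟨Finset.mem_univ _, hp.2⟩, ⟨Finset.mem_univ _, hq.2⟩⟩
          have hsub : q - p < m0 := by omega
          exact hmin (q - p) hsub _ _ _ hlk (hx.seg (by omega) (by omega)) hpar
        · intro hpar
          by_contra hcon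
          have hd := hx.detour hpq (by omega) (w := y) (w' := y) (D := {y}) (r := 0) (by
            intro t ht h
            rw [Finset.mem_singleton] at h
            exact hyI (mem_img.mpr ⟨t, by omega, ht, h⟩)) (PIn.single y) hp.2 hq.2
          rw [hx0, hxm] at hd
          obtain ⟨S', _, hS'⟩ := hd
          refine hmin _ ?_ _ _ _ hL hS' ?_
          · omega
          · omega
      by_contra hcon
      push Not at hcon
      obtain ⟨a, ha, b, hb, c, hcc, hab, hac, hbc⟩ := Finset.two_lt_card.mp hcon
      have hlt : ∀ i ∈ ps y, i ≤ g := by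
        intro i hi
        rw [hps, Finset.mem_filter, Finset.mem_range] at hi
        omega
      have ga := hlt a ha
      have gb := hlt b hb
      have gc := hlt c hcc
      have h1 := hpair a ha b hb
      have h2 := hpair b hb a ha
      have h3 := hpair a ha c hcc
      have h4 := hpair c hcc a ha
      have h5 := hpair b hb c hcc
      have h6 := hpair c hcc b hb
      omega
    -- counting
    have hsum : ∑ i ∈ Finset.range (g + 1), dg G Finset.univ (x i) = ∑ y : V, (ps y).card := by
      have e1 : ∀ y : V, (ps y).card = ∑ i ∈ Finset.range (g + 1), if G.Adj (x i) y then 1 else 0 := by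
        intro y; rw [hps, Finset.card_filter]
      have e2 : ∀ i, dg G Finset.univ (x i) = ∑ y : V, if G.Adj (x i) y then 1 else 0 := by
        intro i; rw [dg, nb, Finset.card_filter]
      rw [Finset.sum_congr rfl (fun y _ => e1 y), Finset.sum_congr rfl (fun i _ => e2 i),
        Finset.sum_comm]
    have hlow : (g + 1) * d ≤ ∑ i ∈ Finset.range (g + 1), dg G Finset.univ (x i) := by
      have := Finset.card_nsmul_le_sum (Finset.range (g + 1)) (fun i => dg G Finset.univ (x i)) d
        (fun i _ => hdeg _)
      simpa using this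
    have hup : ∑ y : V, (ps y).card ≤ 2 * Fintype.card V + (g + 1) * (E.card + (m0 + 1)) := by
      have h4 : ∀ y : V, (ps y).card ≤ 2 + (if y ∈ E ∪ img x 0 m0 then g + 1 else 0) := by
        intro y
        by_cases hy : y ∈ E ∪ img x 0 m0
        · rw [if_pos hy]
          have := Finset.card_filter_le (Finset.range (g + 1)) (fun i => G.Adj (x i) y)
          rw [Finset.card_range] at this
          show ((Finset.range (g + 1)).filter _).card ≤ _
          omega
        · rw [if_neg hy]
          rw [Finset.mem_union] at hy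
          push Not at hy
          exact hpsc y hy.1 hy.2
      refine (Finset.sum_le_sum (fun y _ => h4 y)).trans ?_
      rw [Finset.sum_add_distrib]
      simp only [Finset.sum_ite_mem, Finset.univ_inter, Finset.sum_const, Finset.card_univ,
        smul_eq_mul]
      have h5 := Finset.card_union_le E (img x 0 m0)
      have h6 : (img x 0 m0).card ≤ m0 + 1 := by
        refine (Finset.card_image_le).trans ?_
        simp
      have h7 : (E ∪ img x 0 m0).card * (g + 1) ≤ (E.card + (m0 + 1)) * (g + 1) :=
        Nat.mul_le_mul_right _ (by omega)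
      have h8 : (E.card + (m0 + 1)) * (g + 1) = (g + 1) * (E.card + (m0 + 1)) := by ring
      omega
    have h9 : (g + 1) * (E.card + (m0 + 1)) ≤ (g + 1) * ((g + 1) ^ 2 * M + L0 + 1) :=
      Nat.mul_le_mul_left _ (by omega)
    have h10 : (g + 1) * d = g * d + d := by ring
    omega

end Pool.Agent.H34.OC
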