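import Pool.Agent.H34.OC.Cyc

/-!
# Few vertices outside a non-extendable odd cycle have few outside neighbours
-/

set_option autoImplicit false

namespace Pool.Agent.H34.OC

section shift

variable {l : ℕ} [NeZero l]

/-- translate of a set of residues -/
def sh (c : ZMod l) (S : Finset (ZMod l)) : Finset (ZMod l) := S.image (fun a => a + c)

theorem mem_sh {c a : ZMod l} {S : Finset (ZMod l)} : a ∈ sh c S ↔ a - c ∈ S := by
  simp only [sh, Finset.mem_image]
  constructor
  · rintro ⟨b, hb, rfl⟩; simpa using hb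
  · intro h; exact ⟨a - c, h, by ring⟩

theorem card_sh (c : ZMod l) (S : Finset (ZMod l)) : (sh c S).card = S.card :=
  Finset.card_image_of_injective _ (add_left_injective c)

theorem sh_inter (c : ZMod l) (S T : Finset (ZMod l)) : sh c (S ∩ T) = sh c S ∩ sh c T := by
  ext a; simp [mem_sh]

theorem sh_sh (c c' : ZMod l) (S : Finset (ZMod l)) : sh c (sh c' S) = sh (c' + c) S := by
  ext a; simp only [mem_sh]
  rw [show a - c - c' = a - (c' + c) by ring]

theorem card_zfin (S : Finset (ZMod l)) : S.card ≤ l := by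
  have := Finset.card_le_univ S
  rwa [ZMod.card] at this

theorem two_step {S1 S2 S3 : Finset (ZMod l)} (h13 : (sh 1 S1 ∩ S3).card ≤ 1)
    (h32 : (sh 1 S3 ∩ S2).card ≤ 1) :
    S1.card + S2.card + S3.card ≤ (sh 2 S1 ∩ S2).card + 2 + l := by
  have e1 : (sh 2 S1 ∩ sh 1 S3).card ≤ 1 := by
    have : sh 2 S1 ∩ sh 1 S3 = sh 1 (sh 1 S1 ∩ S3) := by
      rw [sh_inter, sh_sh]; norm_num
    rw [this, card_sh]; exact h13
  have e2 : (S2 ∩ sh 1 S3).card ≤ 1 := by rw [Finset.inter_comm]; exact h32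
  have e3 : sh 1 S3 ∪ (sh 2 S1 \ sh 1 S3 ∪ S2 \ sh 1 S3) ⊆ Finset.univ := Finset.subset_univ _
  have e4 := Finset.card_le_card e3
  rw [Finset.card_univ, ZMod.card] at e4
  have e5 : (sh 1 S3 ∪ (sh 2 S1 \ sh 1 S3 ∪ S2 \ sh 1 S3)).card =
      (sh 1 S3).card + (sh 2 S1 \ sh 1 S3 ∪ S2 \ sh 1 S3).card := by
    rw [Finset.card_union_of_disjoint]
    rw [Finset.disjoint_left]
    intro a h1 h2
    simp only [Finset.mem_union, Finset.mem_sdiff] at h2
    tauto
  have e6 := Finset.card_union_add_card_inter (sh 2 S1 \ sh 1 S3) (S2 \ sh 1 S3)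
  have e7 : ((sh 2 S1 \ sh 1 S3) ∩ (S2 \ sh 1 S3)).card ≤ (sh 2 S1 ∩ S2).card := by
    apply Finset.card_le_card
    intro a; simp only [Finset.mem_inter, Finset.mem_sdiff]; tauto
  have e8 := Finset.card_sdiff_add_card_inter (sh 2 S1) (sh 1 S3)
  have e9 := Finset.card_sdiff_add_card_inter S2 (sh 1 S3)
  rw [card_sh] at e5 e8
  omega

theorem four_step {S1 S2 S3 : Finset (ZMod l)} (h13 : (sh 1 S1 ∩ S3).card ≤ 1)
    (h23 : (sh 1 S2 ∩ S3).card ≤ 1) (h32 : (sh 1 S3 ∩ S2).card ≤ 1) :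
    S1.card + 2 * S2.card + 2 * S3.card ≤ (sh 4 S1 ∩ S2).card + 4 + 2 * l := by
  have e1 := two_step h13 h32
  have e2 := two_step h23 h32
  have e3 : (sh 4 S1 ∩ sh 2 S2).card = (sh 2 S1 ∩ S2).card := by
    have : sh 4 S1 ∩ sh 2 S2 = sh 2 (sh 2 S1 ∩ S2) := by
      rw [sh_inter, sh_sh]; norm_num
    rw [this, card_sh]
  have e4 := Finset.card_union_add_card_inter (sh 4 S1 ∩ sh 2 S2) (sh 2 S2 ∩ S2)
  have e5 : (sh 4 S1 ∩ sh 2 S2 ∪ sh 2 S2 ∩ S2).card ≤ (sh 2 S2).card := by
    apply Finset.card_le_card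
    intro a; simp only [Finset.mem_inter, Finset.mem_union]; tauto
  have e6 : ((sh 4 S1 ∩ sh 2 S2) ∩ (sh 2 S2 ∩ S2)).card ≤ (sh 4 S1 ∩ S2).card := by
    apply Finset.card_le_card
    intro a; simp only [Finset.mem_inter]; tauto
  rw [card_sh] at e5
  omega

/-- for odd `l`, a proper nonempty set of residues is not invariant under `+2` -/
theorem card_two_shifts (hodd : l % 2 = 1) {S : Finset (ZMod l)} (hne : S.Nonempty)
    (hnu : S ≠ Finset.univ) : S.card + 1 ≤ (sh 1 S ∪ sh (-1) S).card := by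
  by_contra hcon
  push Not at hcon
  have h1 : sh 1 S ∪ sh (-1) S = sh 1 S := by
    refine (Finset.eq_of_subset_of_card_le Finset.subset_union_left ?_).symm
    rw [card_sh]; omega
  have h2 : sh (-1) S ⊆ sh 1 S := by rw [← h1]; exact Finset.subset_union_right
  have h3 : ∀ a ∈ S, a - 2 ∈ S := by
    intro a ha
    have h4 : a - 1 ∈ sh (-1) S := by rw [mem_sh]; simpa using ha
    have h5 := mem_sh.mp (h2 h4)
    have : a - 1 - 1 = a - 2 := by ring
    rwa [this] at h5
  have h4 : ∀ k : ℕ, ∀ a ∈ S, a - 2 * k ∈ S := by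
    intro k
    induction k with
    | zero => intro a ha; simpa using ha
    | succ k ih =>
      intro a ha
      have := h3 _ (ih a ha)
      have e : a - 2 * ((k + 1 : ℕ) : ZMod l) = a - 2 * (k : ZMod l) - 2 := by push_cast; ring
      rw [e]; exact this
  apply hnu
  rw [Finset.eq_univ_iff_forall]
  intro b
  obtain ⟨a, ha⟩ := hne
  -- find k with a - 2k = b
  obtain ⟨q, hq⟩ : ∃ q, l = 2 * q + 1 := ⟨l / 2, by omega⟩
  have h5 := h4 ((a - b).val * (q + 1)) a ha
  have h6 : (2 * (((a - b).val * (q + 1) : ℕ) : ZMod l)) = a - b := by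
    push_cast
    rw [ZMod.natCast_zmod_val]
    have h7 : ((2 * q + 1 : ℕ) : ZMod l) = 0 := by rw [← hq]; exact ZMod.natCast_self l
    push_cast at h7
    have : (2 : ZMod l) * ((a - b) * (q + 1)) = (a - b) * (2 * q + 1) + (a - b) := by ring
    rw [this, h7]; ring
  rw [h6] at h5
  simpa using h5

end shift

variable {V : Type*} [DecidableEq V] {G : SimpleGraph V}

open Classical in
/-- the positions on the cyclic sequence adjacent to `w` -/
noncomputable def Az (G : SimpleGraph V) (l : ℕ) [NeZero l] (x : ℕ → V) (w : V) :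
    Finset (ZMod l) := Finset.univ.filter (fun a => G.Adj (x a.val) w)

theorem mem_Az {l : ℕ} [NeZero l] {x : ℕ → V} {w : V} {a : ZMod l} :
    a ∈ Az G l x w ↔ G.Adj (x a.val) w := by simp [Az]

theorem CSeq.val {l : ℕ} {x : ℕ → V} (h : CSeq G l x) (t : ℕ) : x ((t : ZMod l).val) = x t := by
  rw [ZMod.val_natCast]; exact (h.mod t).symm

theorem CSeq.val_add {l : ℕ} [NeZero l] {x : ℕ → V} (h : CSeq G l x) (a : ZMod l) (c : ℕ) :
    x (a + (c : ZMod l)).val = x (a.val + c) := by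
  rw [← h.val (a.val + c)]
  push_cast
  rw [ZMod.natCast_zmod_val]

theorem CSeq.card_Az {l : ℕ} [NeZero l] {x : ℕ → V} (h : CSeq G l x) (w : V) :
    (Az G l x w).card = dg G (img x 0 (l - 1)) w := by
  have hl := h.three
  rw [dg]
  refine Finset.card_bij (fun a _ => x a.val) ?_ ?_ ?_
  · intro a ha
    rw [mem_nb]
    have := ZMod.val_lt a
    exact ⟨mem_img_self (Nat.zero_le _) (by omega), (mem_Az.mp ha).symm⟩
  · intro a _ b _ hab
    exact ZMod.val_injective l (h.inj _ _ (ZMod.val_lt a) (ZMod.val_lt b) hab)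
  · intro v hv
    obtain ⟨h1, h2⟩ := mem_nb.mp hv
    obtain ⟨t, _, ht, rfl⟩ := mem_img.mp h1
    refine ⟨(t : ZMod l), ?_, h.val t⟩
    rw [mem_Az, h.val]; exact h2.symm

/-- crossing in residue form -/
theorem CSeq.az_cross {l : ℕ} [NeZero l] {x : ℕ → V} (h : CSeq G l x)
    (hno : ¬ HasCyc G (l + 2)) {w w' : V} (hw : ∀ t, x t ≠ w) (hw' : ∀ t, x t ≠ w')
    (hne : w ≠ w') : (sh 1 (Az G l x w) ∩ Az G l x w').card ≤ 1 := by
  by_contra hcon
  push Not at hcon
  obtain ⟨a, ha, b, hb, hab⟩ := Finset.one_lt_card.mp hcon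
  apply hno
  rw [Finset.mem_inter, mem_sh, mem_Az, mem_Az] at ha hb
  have hs1 : 1 ≤ (b - a).val := by
    rw [Nat.one_le_iff_ne_zero]
    intro h0
    rw [ZMod.val_eq_zero] at h0
    exact hab (sub_eq_zero.mp h0).symm
  have e1 : x (b - 1).val = x ((a - 1).val + (b - a).val) := by
    rw [← h.val_add, ZMod.natCast_zmod_val]; congr 2; ring
  have e2 : x a.val = x ((a - 1).val + 1) := by
    rw [← h.val_add]; congr 2; push_cast; ring
  have e3 : x b.val = x ((a - 1).val + (b - a).val + 1) := by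
    have := h.val_add (a - 1) ((b - a).val + 1)
    rw [← Nat.add_assoc] at this
    rw [← this]
    push_cast
    rw [ZMod.natCast_zmod_val]; congr 2; ring
  exact h.cross hs1 (ZMod.val_lt _) hw hw' hne ha.1 (e1 ▸ hb.1) (e2 ▸ ha.2) (e3 ▸ hb.2)

theorem CSeq.az_sum {l : ℕ} [NeZero l] {x : ℕ → V} (h : CSeq G l x)
    (hno : ¬ HasCyc G (l + 2)) {w w' : V} (hw : ∀ t, x t ≠ w) (hw' : ∀ t, x t ≠ w')
    (hne : w ≠ w') : (Az G l x w).card + (Az G l x w').card ≤ l + 1 := by
  have h1 := h.az_cross hno hw hw' hne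
  have h2 := Finset.card_union_add_card_inter (sh 1 (Az G l x w)) (Az G l x w')
  have h3 := card_zfin (sh 1 (Az G l x w) ∪ Az G l x w')
  rw [card_sh] at h2
  omega

/-- a route of length `s` outside replaces an arc of length `s` -/
theorem CSeq.az_route {l : ℕ} [NeZero l] {x : ℕ → V} (h : CSeq G l x)
    (hno : ¬ HasCyc G (l + 2)) {w w' : V} {D : Finset V} (hD : ∀ t, x t ∉ D) {s : ℕ}
    (hs1 : 1 ≤ s) (hs : s ≤ l) (hr : PIn G w w' s D) {a : ZMod l} (ha : a ∈ Az G l x w)
    (hb : a + (s : ZMod l) ∈ Az G l x w') : False := by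
  apply hno
  rw [mem_Az] at ha hb
  rw [h.val_add] at hb
  exact h.replace hD hs hs1 hr ha hb (by omega) (by omega)

theorem CSeq.az_adj {l : ℕ} [NeZero l] {x : ℕ → V} (h : CSeq G l x)
    (hno : ¬ HasCyc G (l + 2)) (hodd : l % 2 = 1) {w w' : V} (hw : ∀ t, x t ≠ w)
    (hw' : ∀ t, x t ≠ w') (hadj : G.Adj w w') (h1 : (Az G l x w).Nonempty)
    (h2 : (Az G l x w').Nonempty) : (Az G l x w).card + (Az G l x w').card + 1 ≤ l := by
  have hl := h.three
  have hr : PIn G w w' 1 {w, w'} := by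
    have := (PIn.single (G := G) w).join hadj (PIn.single w') (by
      rw [Finset.disjoint_singleton_right, Finset.mem_singleton]; exact hadj.ne')
    refine this.congr rfl rfl rfl ?_
    intro v; simp
  have hD : ∀ t, x t ∉ ({w, w'} : Finset V) := by
    intro t; simp only [Finset.mem_insert, Finset.mem_singleton]
    rintro (h3 | h3)
    · exact hw t h3
    · exact hw' t h3
  have hr' : PIn G w' w 1 {w, w'} := hr.rev
  have hd1 : Disjoint (sh 1 (Az G l x w)) (Az G l x w') := by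
    rw [Finset.disjoint_left]
    intro a ha hb
    rw [mem_sh] at ha
    refine h.az_route hno hD le_rfl (by omega) hr ha ?_
    have : a - 1 + ((1 : ℕ) : ZMod l) = a := by push_cast; ring
    rw [this]; exact hb
  have hd2 : Disjoint (sh (-1) (Az G l x w)) (Az G l x w') := by
    rw [Finset.disjoint_left]
    intro a ha hb
    rw [mem_sh] at ha
    refine h.az_route hno hD le_rfl (by omega) hr' hb ?_
    have : a + ((1 : ℕ) : ZMod l) = a - -1 := by push_cast; ring
    rw [this]; exact ha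
  have hnu : Az G l x w ≠ Finset.univ := by
    intro he
    obtain ⟨b, hb⟩ := h2
    refine (Finset.disjoint_left.mp hd1) ?_ hb
    rw [mem_sh, he]; exact Finset.mem_univ _
  have h3 := card_two_shifts hodd h1 hnu
  have h4 : Disjoint (sh 1 (Az G l x w) ∪ sh (-1) (Az G l x w)) (Az G l x w') :=
    Finset.disjoint_union_left.mpr ⟨hd1, hd2⟩
  have h5 := Finset.card_union_of_disjoint h4
  have h6 := card_zfin ((sh 1 (Az G l x w) ∪ sh (-1) (Az G l x w)) ∪ Az G l x w')
  omega

end Pool.Agent.H34.OC
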