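import Pool.Agent.H34.OC.W

/-!
# Few vertices outside a non-extendable odd cycle have few outside neighbours (conclusion)
-/

set_option autoImplicit false

namespace Pool.Agent.H34.OC

variable {V : Type*} [DecidableEq V] {G : SimpleGraph V}

/-- Context: a non-extendable odd cycle. -/
structure Ctx (G : SimpleGraph V) [Fintype V] (l d : ℕ) (x : ℕ → V) (R : Finset V) : Prop where
  cs : CSeq G l x
  odd : l % 2 = 1
  no : ¬ HasCyc G (l + 2)
  le : l + 3 ≤ 2 * d
  deg : ∀ v, d ≤ dg G Finset.univ v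
  hR : ∀ v, v ∈ R ↔ ∀ t, x t ≠ v

theorem Ctx.split [Fintype V] {l d : ℕ} {x : ℕ → V} {R : Finset V} (h : Ctx G l d x R) (w : V) :
    d ≤ dg G (img x 0 (l - 1)) w + dg G R w := by
  refine (h.deg w).trans (le_trans (dg_mono ?_ w) (dg_union_le _ _ _))
  intro v _
  rw [Finset.mem_union]
  by_cases hv : ∀ t, x t ≠ v
  · exact Or.inr ((h.hR v).mpr hv)
  · push Not at hv
    obtain ⟨t, rfl⟩ := hv
    exact Or.inl (h.cs.mem_img_all t)

theorem Ctx.az_ge [Fintype V] {l d : ℕ} [NeZero l] {x : ℕ → V} {R : Finset V}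
    (h : Ctx G l d x R) (w : V) : d ≤ (Az G l x w).card + dg G R w := by
  rw [h.cs.card_Az]; exact h.split w

theorem Ctx.sum_ge [Fintype V] {l d : ℕ} {x : ℕ → V} {R : Finset V}
    (h : Ctx G l d x R) {w w' : V} (hw : w ∈ R) (hw' : w' ∈ R) (hne : w ≠ w') :
    2 * d ≤ dg G R w + dg G R w' + l + 1 := by
  have hl := h.cs.three
  haveI : NeZero l := ⟨by omega⟩
  have h1 := h.az_ge w
  have h2 := h.az_ge w'
  have h3 := h.cs.az_sum h.no ((h.hR w).mp hw) ((h.hR w').mp hw') hne
  omega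

theorem lemmaW [Fintype V] {l d μ0 h2 : ℕ} {x : ℕ → V} {R : Finset V} (h : Ctx G l d x R)
    (hμ : 20 * μ0 ≤ d) (hcount : R.card + h2 ^ 2 * 3 < h2 * μ0) (hl5 : 5 ≤ l) :
    (Dm G R μ0).card ≤ 2 * h2 := by
  classical
  by_contra hcon
  push Not at hcon
  have hl := h.cs.three
  have hle := h.le
  haveI : NeZero l := ⟨by omega⟩
  have hh2 : 1 ≤ h2 := by
    rcases Nat.eq_zero_or_pos h2 with h0 | h0
    · subst h0; simp at hcount
    · exact h0
  have hR : ∀ w ∈ R, ∀ t, x t ≠ w := fun w hw => (h.hR w).mp hw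
  have hmR : ∀ w ∈ Dm G R μ0, w ∈ R := fun w hw => (mem_Dm.mp hw).1
  have hpR : ∀ w ∈ Dp G R μ0, w ∈ R := fun w hw => (mem_Dp.mp hw).1
  have hcardm : ∀ w ∈ Dm G R μ0, d + 1 ≤ (Az G l x w).card + μ0 := by
    intro w hw
    have h1 := h.az_ge w
    have h3 := (mem_Dm.mp hw).2
    omega
  have hthird : ∀ w w', ∃ w'' ∈ Dm G R μ0, w'' ≠ w ∧ w'' ≠ w' := by
    intro w w'
    by_contra hc
    push Not at hc
    have h1 : Dm G R μ0 ⊆ {w, w'} := by
      intro v hv
      rw [Finset.mem_insert, Finset.mem_singleton]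
      by_cases hvw : v = w
      · exact Or.inl hvw
      · exact Or.inr (hc v hv hvw)
    have h3 := Finset.card_le_card h1
    have h4 : ({w, w'} : Finset V).card ≤ 2 := Finset.card_le_two
    omega
  have htwo : ∀ w ∈ Dm G R μ0, ∀ w' ∈ Dm G R μ0, w ≠ w' →
      ∃ a, a ∈ Az G l x w ∧ a + ((2 : ℕ) : ZMod l) ∈ Az G l x w' := by
    intro w hw w' hw' hne
    obtain ⟨w'', hw'', hn1, hn2⟩ := hthird w w'
    have h1 := two_step (h.cs.az_cross h.no (hR w (hmR w hw)) (hR w'' (hmR w'' hw'')) hn1.symm)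
      (h.cs.az_cross h.no (hR w'' (hmR w'' hw'')) (hR w' (hmR w' hw')) hn2)
    have h3 := hcardm w hw
    have h4 := hcardm w' hw'
    have h5 := hcardm w'' hw''
    have h6 : 0 < (sh 2 (Az G l x w) ∩ Az G l x w').card := by omega
    obtain ⟨b, hb⟩ := Finset.card_pos.mp h6
    rw [Finset.mem_inter, mem_sh] at hb
    refine ⟨b - 2, hb.1, ?_⟩
    have : b - 2 + ((2 : ℕ) : ZMod l) = b := by push_cast; ring
    rw [this]; exact hb.2
  have hfour : ∀ w ∈ Dm G R μ0, ∀ w' ∈ Dm G R μ0, w ≠ w' →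
      ∃ a, a ∈ Az G l x w ∧ a + ((4 : ℕ) : ZMod l) ∈ Az G l x w' := by
    intro w hw w' hw' hne
    obtain ⟨w'', hw'', hn1, hn2⟩ := hthird w w'
    have h1 := four_step (h.cs.az_cross h.no (hR w (hmR w hw)) (hR w'' (hmR w'' hw'')) hn1.symm)
      (h.cs.az_cross h.no (hR w' (hmR w' hw')) (hR w'' (hmR w'' hw'')) hn2.symm)
      (h.cs.az_cross h.no (hR w'' (hmR w'' hw'')) (hR w' (hmR w' hw')) hn2)
    have h3 := hcardm w hw
    have h4 := hcardm w' hw'
    have h5 := hcardm w'' hw''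
    have h6 : 0 < (sh 4 (Az G l x w) ∩ Az G l x w').card := by omega
    obtain ⟨b, hb⟩ := Finset.card_pos.mp h6
    rw [Finset.mem_inter, mem_sh] at hb
    refine ⟨b - 4, hb.1, ?_⟩
    have : b - 4 + ((4 : ℕ) : ZMod l) = b := by push_cast; ring
    rw [this]; exact hb.2
  have hF6 : ∀ z ∈ R, ∀ w ∈ Dm G R μ0, ∀ w' ∈ Dm G R μ0, w ≠ w' → G.Adj z w → G.Adj z w' →
      False := by
    intro z hz w hw w' hw' hne hzw hzw'
    obtain ⟨a, ha, hb⟩ := htwo w hw w' hw' hne
    have hr := ((PIn.single (G := G) w).join hzw.symm (PIn.single z) (by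
      rw [Finset.disjoint_singleton_right, Finset.mem_singleton]; exact hzw.ne)).join hzw'
      (PIn.single w') (by
      rw [Finset.disjoint_singleton_right, Finset.mem_union, Finset.mem_singleton,
        Finset.mem_singleton]
      rintro (h7 | h7)
      · exact hne h7.symm
      · exact hzw'.ne h7.symm)
    refine h.cs.az_route h.no ?_ (by norm_num) (by omega) hr ha hb
    intro t
    simp only [Finset.mem_union, Finset.mem_singleton]
    rintro ((h7 | h7) | h7)
    · exact hR w (hmR w hw) t h7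
    · exact hR z hz t h7
    · exact hR w' (hmR w' hw') t h7
  set S := (Dm G R μ0).filter (fun w => ∃ u ∈ Dp G R μ0, G.Adj w u) with hS
  have hmem : ∀ u ∈ R, u ∈ Dp G R μ0 ∨ u ∈ Dm G R μ0 := by
    intro u hu
    have := Dp_union_Dm (G := G) R μ0
    rw [← this] at hu
    exact Finset.mem_union.mp hu
  -- the vertices outside S
  have hN : ∀ w ∈ Dm G R μ0, w ∉ S → ∀ u ∈ nb G R w, u ∈ Dm G R μ0 := by
    intro w hw hwS u hu
    obtain ⟨h1, h3⟩ := mem_nb.mp hu
    rcases hmem u h1 with h4 | h4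
    · exfalso; apply hwS
      rw [hS, Finset.mem_filter]; exact ⟨hw, u, h4, h3⟩
    · exact h4
  have hone : ∀ w ∈ Dm G R μ0, (nb G R w ∩ Dm G R μ0).card ≤ 1 := by
    intro w hw
    by_contra hc
    push Not at hc
    obtain ⟨a, ha, b, hb, hab⟩ := Finset.one_lt_card.mp hc
    rw [Finset.mem_inter, mem_nb] at ha hb
    exact hF6 w (hmR w hw) a ha.2 b hb.2 hab ha.1.2 hb.1.2
  have hN1 : ∀ w ∈ Dm G R μ0, w ∉ S → dg G R w ≤ 1 := by
    intro w hw hwS
    have h1 : nb G R w ⊆ nb G R w ∩ Dm G R μ0 := by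
      intro u hu; exact Finset.mem_inter.mpr ⟨hu, hN w hw hwS u hu⟩
    exact (Finset.card_le_card h1).trans (hone w hw)
  have hcardDm : (Dm G R μ0).card ≤ S.card + (1 + S.card) := by
    have h1 : Dm G R μ0 ⊆ S ∪ (((Dm G R μ0 \ S).filter (fun w => dg G R w = 0)) ∪
        ((Dm G R μ0 \ S).filter (fun w => dg G R w = 1))) := by
      intro w hw
      by_cases hwS : w ∈ S
      · exact Finset.mem_union_left _ hwS
      · refine Finset.mem_union_right _ ?_
        have h3 := hN1 w hw hwS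
        rw [Finset.mem_union, Finset.mem_filter, Finset.mem_filter, Finset.mem_sdiff]
        have h4 : dg G R w = 0 ∨ dg G R w = 1 := by omega
        rcases h4 with h4 | h4
        · exact Or.inl ⟨⟨hw, hwS⟩, h4⟩
        · exact Or.inr ⟨⟨hw, hwS⟩, h4⟩
    have h3 : ((Dm G R μ0 \ S).filter (fun w => dg G R w = 0)).card ≤ 1 := by
      by_contra hc
      push Not at hc
      obtain ⟨a, ha, b, hb, hab⟩ := Finset.one_lt_card.mp hc
      rw [Finset.mem_filter, Finset.mem_sdiff] at ha hb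
      have := h.sum_ge (hmR a ha.1.1) (hmR b hb.1.1) hab
      omega
    have h4 : ((Dm G R μ0 \ S).filter (fun w => dg G R w = 1)).card ≤ S.card := by
      have hex : ∀ w, w ∈ (Dm G R μ0 \ S).filter (fun w => dg G R w = 1) →
          ∃ u, u ∈ S ∧ G.Adj w u := by
        intro w hw
        rw [Finset.mem_filter, Finset.mem_sdiff] at hw
        obtain ⟨⟨hwm, hwS⟩, hw1⟩ := hw
        have h5 : (nb G R w).Nonempty := by
          rw [← Finset.card_pos]; unfold dg at hw1; omega
        obtain ⟨u, hu⟩ := h5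
        have hum := hN w hwm hwS u hu
        obtain ⟨huR, hadj⟩ := mem_nb.mp hu
        refine ⟨u, ?_, hadj⟩
        have h6 : (Az G l x w).Nonempty := by
          rw [← Finset.card_pos]; have := hcardm w hwm; omega
        have h7 : (Az G l x u).Nonempty := by
          rw [← Finset.card_pos]; have := hcardm u hum; omega
        have h8 := h.cs.az_adj h.no h.odd (hR w (hmR w hwm)) (hR u huR) hadj h6 h7
        have h9 := h.az_ge w
        have h10 := h.az_ge u
        have h11 : 3 ≤ dg G R u := by omega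
        by_contra huS
        have := hN1 u hum huS
        omega
      choose! φ hφ using hex
      refine Finset.card_le_card_of_injOn φ (fun w hw => (hφ w hw).1) ?_
      intro w hw w' hw' hww
      by_contra hne
      have hw2 : w ∈ (Dm G R μ0 \ S).filter (fun w => dg G R w = 1) := hw
      have hw2' : w' ∈ (Dm G R μ0 \ S).filter (fun w => dg G R w = 1) := hw'
      have h5 := hφ w hw2
      have h6 := hφ w' hw2'
      rw [Finset.mem_filter, Finset.mem_sdiff] at hw2 hw2'
      have h7 : φ w ∈ Dm G R μ0 := (Finset.mem_filter.mp h5.1).1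
      have h8 : G.Adj (φ w) w' := by
        have : φ w = φ w' := hww
        rw [this]; exact h6.2.symm
      exact hF6 (φ w) (hmR _ h7) w hw2.1.1 w' hw2'.1.1 hne h5.2.symm h8
    have h5 := Finset.card_le_card h1
    have h6 := Finset.card_union_le S (((Dm G R μ0 \ S).filter (fun w => dg G R w = 0)) ∪
        ((Dm G R μ0 \ S).filter (fun w => dg G R w = 1)))
    have h7 := Finset.card_union_le ((Dm G R μ0 \ S).filter (fun w => dg G R w = 0))
        ((Dm G R μ0 \ S).filter (fun w => dg G R w = 1))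
    omega
  have hSc : h2 ≤ S.card := by omega
  obtain ⟨S', hS'1, hS'2⟩ := Finset.exists_subset_card_eq hSc
  have hex : ∀ w, w ∈ S' → ∃ u, u ∈ Dp G R μ0 ∧ G.Adj w u := by
    intro w hw
    have := (Finset.mem_filter.mp (hS'1 hw)).2
    obtain ⟨u, hu, h1⟩ := this
    exact ⟨u, hu, h1⟩
  choose! g hg using hex
  have hS'm : ∀ w ∈ S', w ∈ Dm G R μ0 := fun w hw => (Finset.mem_filter.mp (hS'1 hw)).1
  obtain ⟨w, hw, w', hw', hne, hc⟩ := codeg_pigeon (W := S') (f := fun w => nb G R (g w))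
    (D := R) (μ := μ0) (M := 3) (fun w _ => nb_subset _ _)
    (fun w hw => (mem_Dp.mp (hg w hw).1).2) (by rw [hS'2]; exact hcount)
  obtain ⟨y, hy, hyn⟩ : ∃ y ∈ nb G R (g w) ∩ nb G R (g w'), y ∉ ({w, w'} : Finset V) := by
    by_contra hc'
    push Not at hc'
    have h1 := Finset.card_le_card (show nb G R (g w) ∩ nb G R (g w') ⊆ {w, w'} from hc')
    have h4 : ({w, w'} : Finset V).card ≤ 2 := Finset.card_le_two
    omega
  rw [Finset.mem_inter, mem_nb, mem_nb] at hy
  simp only [Finset.mem_insert, Finset.mem_singleton, not_or] at hyn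
  have hgne : g w ≠ g w' := by
    intro he
    refine hF6 (g w) (hpR _ (hg w hw).1) w (hS'm w hw) w' (hS'm w' hw') hne (hg w hw).2.symm ?_
    rw [he]; exact (hg w' hw').2.symm
  have hpm : ∀ u ∈ Dp G R μ0, ∀ v ∈ Dm G R μ0, u ≠ v := by
    rintro u hu v hv rfl
    have h1 := (mem_Dp.mp hu).2
    have h3 := (mem_Dm.mp hv).2
    omega
  obtain ⟨a, ha, hb⟩ := hfour w (hS'm w hw) w' (hS'm w' hw') hne
  have p1 := (PIn.single (G := G) w).join (hg w hw).2 (PIn.single (g w)) (by
    rw [Finset.disjoint_singleton_right, Finset.mem_singleton]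
    exact hpm _ (hg w hw).1 _ (hS'm w hw))
  have p2 := p1.join hy.1.2 (PIn.single y) (by
    rw [Finset.disjoint_singleton_right]
    simp only [Finset.mem_union, Finset.mem_singleton, not_or]
    exact ⟨hyn.1, hy.1.2.ne'⟩)
  have p3 := p2.join hy.2.2.symm (PIn.single (g w')) (by
    rw [Finset.disjoint_singleton_right]
    simp only [Finset.mem_union, Finset.mem_singleton, not_or]
    exact ⟨⟨hpm _ (hg w' hw').1 _ (hS'm w hw), hgne.symm⟩, hy.2.2.ne⟩)
  have p4 := p3.join (hg w' hw').2.symm (PIn.single w') (by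
    rw [Finset.disjoint_singleton_right]
    simp only [Finset.mem_union, Finset.mem_singleton, not_or]
    exact ⟨⟨⟨hne.symm, (hpm _ (hg w hw).1 _ (hS'm w' hw')).symm⟩, fun h => hyn.2 h.symm⟩,
      (hpm _ (hg w' hw').1 _ (hS'm w' hw')).symm⟩)
  refine h.cs.az_route h.no ?_ (by norm_num) (by omega) p4 ha hb
  intro t
  simp only [Finset.mem_union, Finset.mem_singleton]
  rintro ((((h7 | h7) | h7) | h7) | h7)
  · exact hR w (hmR w (hS'm w hw)) t h7
  · exact hR _ (hpR _ (hg w hw).1) t h7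
  · exact hR y hy.1.1 t h7
  · exact hR _ (hpR _ (hg w' hw').1) t h7
  · exact hR w' (hmR w' (hS'm w' hw')) t h7

end Pool.Agent.H34.OC
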